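import Mathlib

set_option autoImplicit false

open MeasureTheory Filter Topology Set

namespace Pool.Agent.H493R3

/-- The circle `R/Z`. -/
abbrev Circ : Type := AddCircle (1 : ℝ)

lemma integral_fourier_eq_zero {n : ℤ} (hn : n ≠ 0) :
    ∫ x : Circ, (fourier n x : ℂ) = 0 := by
  have ha : ∃ a : Circ, (fourier n a : ℂ) ≠ 1 := by
    refine ⟨((1 / (2 * n) : ℝ) : Circ), ?_⟩
    rw [fourier_coe_apply]
    have hn' : (n : ℂ) ≠ 0 := by exact_mod_cast hn
    have : 2 * (Real.pi : ℂ) * Complex.I * n * ((1 / (2 * n) : ℝ) : ℂ) / ((1 : ℝ) : ℂ) = Real.pi * Complex.I := by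
      push_cast
      field_simp
    rw [this, Complex.exp_pi_mul_I]
    norm_num
  obtain ⟨a, ha⟩ := ha
  have h1 : ∫ x : Circ, (fourier n (x + a) : ℂ) = ∫ x : Circ, (fourier n x : ℂ) :=
    integral_add_right_eq_self (fun x => (fourier n x : ℂ)) a
  have h2 : ∀ x : Circ, (fourier n (x + a) : ℂ) = fourier n x * fourier n a := by
    intro x
    simp only [fourier_apply]
    rw [smul_add, AddCircle.toCircle_add]; simp
  simp_rw [h2] at h1
  rw [integral_mul_const] at h1
  have h3 : (∫ x : Circ, (fourier n x : ℂ)) * ((fourier n a : ℂ) - 1) = 0 := by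
    rw [mul_sub, h1]; ring
  rcases mul_eq_zero.1 h3 with h | h
  · exact h
  · exact absurd (sub_eq_zero.1 h) ha

/-- average of a function along a sequence -/
noncomputable def avg (x : ℕ → Circ) (h : Circ → ℂ) (M : ℕ) : ℂ :=
  (∑ m ∈ Finset.range M, h (x m)) / M

lemma avg_norm_sub_le (x : ℕ → Circ) (f g : C(Circ, ℂ)) (M : ℕ) :
    ‖avg x f M - avg x g M‖ ≤ ‖f - g‖ := by
  unfold avg
  rcases Nat.eq_zero_or_pos M with rfl | hM
  · simp
  rw [← sub_div, ← Finset.sum_sub_distrib, norm_div, Complex.norm_natCast]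
  rw [div_le_iff₀ (by exact_mod_cast hM)]
  calc ‖∑ m ∈ Finset.range M, (f (x m) - g (x m))‖
      ≤ ∑ m ∈ Finset.range M, ‖f (x m) - g (x m)‖ := norm_sum_le _ _
    _ ≤ ∑ _m ∈ Finset.range M, ‖f - g‖ := by
        gcongr with m _
        exact (f - g).norm_coe_le_norm _
    _ = ‖f - g‖ * M := by simp [mul_comm]

/-- Weyl's criterion. -/
theorem weyl (x : ℕ → Circ)
    (hx : ∀ n : ℤ, n ≠ 0 → Tendsto (fun M => avg x (fun y => (fourier n y : ℂ)) M) atTop (𝓝 0))
    (h : C(Circ, ℂ)) :
    Tendsto (fun M => avg x h M) atTop (𝓝 (∫ y : Circ, h y)) := by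
  -- the set of good functions
  have hmem : ∀ f ∈ (Submodule.span ℂ (range <| @fourier 1)),
      Tendsto (fun M => avg x f M) atTop (𝓝 (∫ y : Circ, f y)) := by
    intro f hf
    induction hf using Submodule.span_induction with
    | mem f hf =>
      obtain ⟨n, rfl⟩ := hf
      by_cases hn : n = 0
      · subst hn
        have : ∀ M : ℕ, 0 < M → avg x (fun y => (fourier 0 y : ℂ)) M = 1 := by
          intro M hM
          unfold avg
          simp only [fourier_zero, Finset.sum_const, Finset.card_range, nsmul_eq_mul, mul_one]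
          have : (M : ℂ) ≠ 0 := by exact_mod_cast hM.ne'
          field_simp
        have hint : ∫ y : Circ, (fourier 0 y : ℂ) = 1 := by
          simp [fourier_zero, Measure.real]
        rw [hint]
        refine Tendsto.congr' ?_ tendsto_const_nhds
        filter_upwards [eventually_gt_atTop 0] with M hM
        exact (this M hM).symm
      · rw [integral_fourier_eq_zero hn]
        exact hx n hn
    | zero =>
      simp [avg]
    | add f g hf hg ihf ihg =>
      have hi : ∫ y : Circ, (f + g) y = (∫ y : Circ, f y) + ∫ y : Circ, g y := by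
        have := integral_add (μ := (volume : Measure Circ)) (f := f) (g := g)
          (f.continuous.integrable_of_hasCompactSupport (HasCompactSupport.of_compactSpace _))
          (g.continuous.integrable_of_hasCompactSupport (HasCompactSupport.of_compactSpace _))
        simpa using this
      rw [hi]
      refine (ihf.add ihg).congr (fun M => ?_)
      unfold avg
      rw [← add_div, ← Finset.sum_add_distrib]; rfl
    | smul c f hf ihf =>
      have hi : ∫ y : Circ, (c • f) y = c * (∫ y : Circ, f y) := by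
        simp [integral_const_mul]
      rw [hi]
      refine (ihf.const_mul c).congr (fun M => ?_)
      unfold avg
      simp only [ContinuousMap.coe_smul, Pi.smul_apply, smul_eq_mul]
      rw [← Finset.mul_sum, mul_div_assoc]
  rw [Metric.tendsto_atTop]
  intro ε hε
  have hcl : h ∈ (Submodule.span ℂ (range <| @fourier 1)).topologicalClosure := by
    rw [span_fourier_closure_eq_top]; trivial
  rw [← SetLike.mem_coe, Submodule.topologicalClosure_coe, Metric.mem_closure_iff] at hcl
  obtain ⟨f, hf, hfd⟩ := hcl (ε / 3) (by positivity)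
  have := Metric.tendsto_atTop.1 (hmem f hf) (ε / 3) (by positivity)
  obtain ⟨N, hN⟩ := this
  refine ⟨N, fun M hM => ?_⟩
  have h1 := hN M hM
  have h2 : ‖avg x h M - avg x f M‖ ≤ ‖h - f‖ := avg_norm_sub_le x h f M
  have h3 : ‖(∫ y : Circ, f y) - ∫ y : Circ, h y‖ ≤ ‖h - f‖ := by
    rw [← integral_sub (f.continuous.integrable_of_hasCompactSupport (HasCompactSupport.of_compactSpace _))
      (h.continuous.integrable_of_hasCompactSupport (HasCompactSupport.of_compactSpace _))]
    calc ‖∫ y : Circ, (f y - h y)‖ ≤ ‖h - f‖ * (volume : Measure Circ).real univ := by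
          apply norm_integral_le_of_norm_le_const
          filter_upwards with y
          rw [norm_sub_rev]
          exact (h - f).norm_coe_le_norm y
      _ = ‖h - f‖ := by simp [Measure.real]
  have h4 : ‖h - f‖ < ε / 3 := by rw [← dist_eq_norm]; exact hfd
  calc dist (avg x h M) (∫ y : Circ, h y)
      ≤ dist (avg x h M) (avg x f M) + dist (avg x f M) (∫ y : Circ, f y)
        + dist (∫ y : Circ, f y) (∫ y : Circ, h y) := dist_triangle4 _ _ _ _
    _ < ε / 3 + ε / 3 + ε / 3 := by
        rw [dist_eq_norm, dist_eq_norm (∫ y : Circ, f y)]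
        linarith
    _ = ε := by ring

open Classical in
/-- Upper density of visits to a closed set. -/
theorem closed_upper (x : ℕ → Circ)
    (hx : ∀ n : ℤ, n ≠ 0 → Tendsto (fun M => avg x (fun y => (fourier n y : ℂ)) M) atTop (𝓝 0))
    {E : Set Circ} (hE : IsClosed E) (v : ℝ) (hv : 0 ≤ v) (hEv : volume E ≤ ENNReal.ofReal v)
    (ε : ℝ) (hε : 0 < ε) :
    ∀ᶠ M : ℕ in atTop, (((Finset.range M).filter (fun m => x m ∈ E)).card : ℝ) / M < v + ε := by
  -- open neighbourhood of small measure
  obtain ⟨U, hNU, hUo, hUv⟩ : ∃ U ⊇ E, IsOpen U ∧ volume U < ENNReal.ofReal (v + ε / 2) :=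
    E.exists_isOpen_lt_of_lt _ (by
      refine lt_of_le_of_lt hEv ?_
      exact (ENNReal.ofReal_lt_ofReal_iff (by linarith)).2 (by linarith))
  obtain ⟨g, hg0, hg1, hg01⟩ := exists_continuous_zero_one_of_isClosed hUo.isClosed_compl hE
    (by rw [disjoint_compl_left_iff_subset]; exact hNU)
  let h : C(Circ, ℂ) := ⟨fun x => (g x : ℂ), by fun_prop⟩
  have hint : (∫ y : Circ, h y).re ≤ v + ε / 2 := by
    have h1 : ∫ y : Circ, h y = ((∫ y : Circ, g y : ℝ) : ℂ) := by
      simp only [h, ContinuousMap.coe_mk]
      exact integral_ofReal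
    rw [h1, Complex.ofReal_re]
    have h2 : ∫ y : Circ, g y ≤ ∫ y : Circ, U.indicator (fun _ => (1 : ℝ)) y := by
      apply integral_mono
      · exact g.continuous.integrable_of_hasCompactSupport (HasCompactSupport.of_compactSpace _)
      · exact (integrable_indicator_iff hUo.measurableSet).2 (integrableOn_const (by simp) )
      · intro y
        by_cases hy : y ∈ U
        · simp only [hy, indicator_of_mem]; exact (hg01 y).2
        · simp only [hy, not_false_eq_true, indicator_of_notMem]
          exact le_of_eq (hg0 hy)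
    rw [integral_indicator hUo.measurableSet] at h2
    simp only [integral_const, MeasurableSet.univ, measureReal_restrict_apply, univ_inter, smul_eq_mul, mul_one] at h2
    refine h2.trans ?_
    rw [Measure.real]
    exact ENNReal.toReal_le_of_le_ofReal (by positivity) hUv.le
  have hw := weyl x hx h
  have hw' : Tendsto (fun M => (avg x h M).re) atTop (𝓝 (∫ y : Circ, h y).re) :=
    (Complex.continuous_re.tendsto _).comp hw
  have hev : ∀ᶠ M in atTop, (avg x h M).re < v + ε := by
    apply hw'.eventually_lt_const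
    linarith
  filter_upwards [hev] with M hM
  refine lt_of_le_of_lt ?_ hM
  unfold avg
  have : (∑ m ∈ Finset.range M, h (x m)) / (M : ℂ) = (((∑ m ∈ Finset.range M, g (x m)) / M : ℝ) : ℂ) := by
    push_cast; rfl
  rw [this, Complex.ofReal_re]
  gcongr
  rw [Finset.card_filter]
  push_cast
  gcongr with m _
  split_ifs with hm
  · have := hg1 hm
    simp only [Pi.one_apply] at this
    rw [this]
  · exact (hg01 _).1

/-- The volume of an arc. -/
theorem volume_arc (a c : ℝ) (hac : c ≤ a + 1) :
    volume ((fun t : ℝ => (t : Circ)) '' Icc a c) ≤ ENNReal.ofReal (c - a) := by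
  have hcl : IsClosed ((fun t : ℝ => (t : Circ)) '' Icc a c) :=
    (isCompact_Icc.image (AddCircle.continuous_mk' (1 : ℝ))).isClosed
  have hmp := AddCircle.measurePreserving_mk (1 : ℝ) a
  have h1 := hmp.measure_preimage hcl.measurableSet.nullMeasurableSet
  have hsub : ((fun t : ℝ => (t : Circ)) ⁻¹' ((fun t : ℝ => (t : Circ)) '' Icc a c)) ∩
      Ioc a (a + 1) ⊆ Icc a c ∪ {a + 1} := by
    rintro t ⟨⟨s, hs, hst⟩, ht⟩
    have h2 : ((s : ℝ) : Circ) = ((t : ℝ) : Circ) := hst
    have h3 : ((s - t : ℝ) : Circ) = 0 := by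
      rw [AddCircle.coe_sub, h2, sub_self]
    rw [AddCircle.coe_eq_zero_iff] at h3
    obtain ⟨n, hn⟩ := h3
    rw [zsmul_eq_mul, mul_one] at hn
    have h4 : (-1 : ℝ) ≤ n := by rw [hn]; linarith [hs.1, ht.2]
    have h5 : (n : ℝ) < 1 := by rw [hn]; linarith [hs.2, ht.1]
    have h6 : -1 ≤ n := by exact_mod_cast h4
    have h7 : n < 1 := by exact_mod_cast h5
    rcases (by omega : n = -1 ∨ n = 0) with h | h
    · right
      rw [h] at hn
      push_cast at hn
      have h8 : t = s + 1 := by linarith
      have h9 : s = a := by linarith [hs.1, ht.2]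
      rw [Set.mem_singleton_iff]; linarith
    · left
      rw [h] at hn
      push_cast at hn
      have : t = s := by linarith
      rw [this]; exact hs
  rw [← h1]
  have h10 : MeasurableSet ((fun t : ℝ => (t : Circ)) ⁻¹' ((fun t : ℝ => (t : Circ)) '' Icc a c)) :=
    hmp.measurable hcl.measurableSet
  calc (volume.restrict (Ioc a (a + 1)))
        ((fun t : ℝ => (t : Circ)) ⁻¹' ((fun t : ℝ => (t : Circ)) '' Icc a c))
      = volume (((fun t : ℝ => (t : Circ)) ⁻¹' ((fun t : ℝ => (t : Circ)) '' Icc a c)) ∩
          Ioc a (a + 1)) := Measure.restrict_apply h10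
    _ ≤ volume (Icc a c ∪ {a + 1}) := measure_mono hsub
    _ ≤ volume (Icc a c) + volume {a + 1} := measure_union_le _ _
    _ = ENNReal.ofReal (c - a) := by rw [Real.volume_Icc, Real.volume_singleton, add_zero]

end Pool.Agent.H493R3
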