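import Mathlib
import Pool.Agent.H493R3.Weyl

set_option autoImplicit false

open MeasureTheory Filter Topology Set

namespace Pool.Agent.H493R3

/-- `e(x) = exp(2 π i x)` -/
noncomputable def ee (x : ℝ) : ℂ := Complex.exp (2 * Real.pi * x * Complex.I)

lemma ee_norm (x : ℝ) : ‖ee x‖ = 1 := by
  unfold ee
  have : (2 * (Real.pi : ℂ) * x * Complex.I) = ((2 * Real.pi * x : ℝ) : ℂ) * Complex.I := by
    push_cast; ring
  rw [this, Complex.norm_exp_ofReal_mul_I]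

lemma ee_add (x y : ℝ) : ee (x + y) = ee x * ee y := by
  unfold ee
  rw [← Complex.exp_add]
  congr 1
  push_cast; ring

lemma ee_neg (x : ℝ) : ee (-x) = (starRingEnd ℂ) (ee x) := by
  unfold ee
  rw [← Complex.exp_conj]
  congr 1
  rw [map_mul, map_mul, map_mul, Complex.conj_ofReal, Complex.conj_ofReal, Complex.conj_I]
  have h2 : (starRingEnd ℂ) 2 = 2 := Complex.conj_ofNat 2
  rw [h2]
  push_cast
  ring

lemma ee_int (n : ℤ) : ee n = 1 := by
  unfold ee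
  have : (2 * (Real.pi : ℂ) * ((n : ℝ) : ℂ) * Complex.I) = n * (2 * Real.pi * Complex.I) := by
    push_cast; ring
  rw [this, Complex.exp_int_mul_two_pi_mul_I]

lemma fourier_ee (n : ℤ) (t : ℝ) : (fourier n (t : Circ) : ℂ) = ee (n * t) := by
  rw [fourier_coe_apply]
  unfold ee
  congr 1
  push_cast
  ring

/-- the value of a digit block -/
def cv (b : ℤ) (D : ℕ → ℤ) : ℕ → ℤ
  | 0 => 0
  | k + 1 => b * cv b D k + D k

lemma cv_congr (b : ℤ) (D D' : ℕ → ℤ) (k : ℕ) (h : ∀ i < k, D i = D' i) : cv b D k = cv b D' k := by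
  induction k with
  | zero => rfl
  | succ k ih =>
    rw [cv, cv, ih (fun i hi => h i (by omega)), h k (by omega)]

lemma floor_step (b : ℕ) (hb : 2 ≤ b) (z : ℝ) : ⌊z * b⌋ = b * ⌊z⌋ + ⌊z * b⌋ % (b : ℤ) := by
  have hb0 : (0 : ℝ) < b := by exact_mod_cast (by omega : 0 < b)
  have h1 : ⌊z * b⌋ / (b : ℤ) = ⌊z⌋ := by
    have h2 := Int.floor_div_natCast (z * b) b
    rw [← h2]
    congr 1
    field_simp
  have h3 := Int.mul_ediv_add_emod ⌊z * b⌋ (b : ℤ)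
  rw [h1] at h3
  linarith

lemma floor_cv (b : ℕ) (hb : 2 ≤ b) (y : ℝ) (k : ℕ) :
    ⌊y * (b : ℝ) ^ k⌋ = (b : ℤ) ^ k * ⌊y⌋ + cv b (fun i => ⌊y * (b : ℝ) ^ (i + 1)⌋ % (b : ℤ)) k := by
  induction k with
  | zero => simp [cv]
  | succ k ih =>
    have e : y * (b : ℝ) ^ (k + 1) = y * (b : ℝ) ^ k * b := by rw [pow_succ]; ring
    have h1 : ⌊y * (b : ℝ) ^ (k + 1)⌋ = b * ⌊y * (b : ℝ) ^ k⌋ +
        ⌊y * (b : ℝ) ^ (k + 1)⌋ % (b : ℤ) := by
      rw [e]; exact floor_step b hb _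
    rw [ih] at h1
    change _ = _ + (b * cv b _ k + ⌊y * (b : ℝ) ^ (k + 1)⌋ % (b : ℤ))
    linear_combination h1

/-- the digit block at position `j` -/
noncomputable def dig (b : ℕ) (hb : 2 ≤ b) (ξ : ℝ) (k j : ℕ) : Fin k → Fin b := fun i =>
  ⟨(⌊ξ * (b : ℝ) ^ (j + 1 + (i : ℕ))⌋ % (b : ℤ)).toNat, by
    have h1 := Int.emod_lt_of_pos ⌊ξ * (b : ℝ) ^ (j + 1 + (i : ℕ))⌋ (by omega : (0 : ℤ) < b)
    have h2 := Int.emod_nonneg ⌊ξ * (b : ℝ) ^ (j + 1 + (i : ℕ))⌋ (by omega : (b : ℤ) ≠ 0)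
    omega⟩

lemma dig_iff (b : ℕ) (hb : 2 ≤ b) (ξ : ℝ) (k j : ℕ) (d : Fin k → Fin b) :
    (∀ i : Fin k, ⌊ξ * (b : ℝ) ^ (j + 1 + (i : ℕ))⌋ % (b : ℤ) = (((d i : ℕ)) : ℤ)) ↔
      dig b hb ξ k j = d := by
  constructor
  · intro h
    funext i
    apply Fin.ext
    unfold dig
    simp only
    rw [h i]
    simp
  · intro h i
    rw [← h]
    unfold dig
    simp only
    have h2 := Int.emod_nonneg ⌊ξ * (b : ℝ) ^ (j + 1 + (i : ℕ))⌋ (by omega : (b : ℤ) ≠ 0)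
    omega

/-- extension of a block by zero -/
def ext0 {b k : ℕ} (d : Fin k → Fin b) (i : ℕ) : ℤ := if h : i < k then ((d ⟨i, h⟩ : ℕ) : ℤ) else 0

/-- the closed arc of a block -/
def arc {b k : ℕ} (d : Fin k → Fin b) : Set Circ :=
  (fun t : ℝ => (t : Circ)) '' Icc ((cv b (ext0 d) k : ℝ) / (b : ℝ) ^ k)
    (((cv b (ext0 d) k : ℝ) + 1) / (b : ℝ) ^ k)

lemma mem_arc (b : ℕ) (hb : 2 ≤ b) (ξ : ℝ) (k j : ℕ) (d : Fin k → Fin b)
    (h : dig b hb ξ k j = d) : ((ξ * (b : ℝ) ^ j : ℝ) : Circ) ∈ arc d := by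
  have hb0 : (0 : ℝ) < b := by exact_mod_cast (by omega : 0 < b)
  have hbk : (0 : ℝ) < (b : ℝ) ^ k := by positivity
  rw [← dig_iff] at h
  obtain ⟨y, hy⟩ : ∃ y, y = ξ * (b : ℝ) ^ j := ⟨_, rfl⟩
  rw [← hy]
  have h1 := floor_cv b hb y k
  have h2 : cv b (fun i => ⌊y * (b : ℝ) ^ (i + 1)⌋ % (b : ℤ)) k = cv b (ext0 d) k := by
    apply cv_congr
    intro i hi
    unfold ext0
    rw [dif_pos hi, ← h ⟨i, hi⟩, hy, mul_assoc, ← pow_add]
    congr 4
    simp only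
    ring
  rw [h2] at h1
  refine ⟨y - ⌊y⌋, ⟨?_, ?_⟩, ?_⟩
  · rw [div_le_iff₀ hbk]
    have h3 := Int.floor_le (y * (b : ℝ) ^ k)
    rw [h1] at h3
    push_cast at h3
    linarith
  · rw [le_div_iff₀ hbk]
    have h3 := Int.lt_floor_add_one (y * (b : ℝ) ^ k)
    rw [h1] at h3
    push_cast at h3
    linarith
  · change ((y - ⌊y⌋ : ℝ) : Circ) = (y : Circ)
    rw [AddCircle.coe_sub]
    have : ((⌊y⌋ : ℝ) : Circ) = 0 := by
      rw [AddCircle.coe_eq_zero_iff]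
      exact ⟨⌊y⌋, by simp⟩
    rw [this, sub_zero]

open Classical in
/-- Weyl sums tending to zero imply the expected block frequencies. -/
theorem block_freq (b : ℕ) (hb : 2 ≤ b) (ξ : ℝ)
    (hW : ∀ h : ℕ, 1 ≤ h →
      Tendsto (fun M : ℕ => ‖∑ j ∈ Finset.range M, ee (h * (ξ * (b : ℝ) ^ j))‖ / M) atTop (𝓝 0))
    (k : ℕ) (d : Fin k → Fin b) :
    Tendsto (fun N : ℕ => (((Finset.range N).filter (fun j : ℕ => ∀ i : Fin k,
      ⌊ξ * (b : ℝ) ^ (j + 1 + (i : ℕ))⌋ % (b : ℤ) = (((d i : ℕ)) : ℤ))).card : ℝ) / (N : ℝ))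
      atTop (𝓝 (1 / (b : ℝ) ^ k)) := by
  have hb0 : (0 : ℝ) < b := by exact_mod_cast (by omega : 0 < b)
  have hbk : (0 : ℝ) < (b : ℝ) ^ k := by positivity
  obtain ⟨x, hxd⟩ : ∃ x : ℕ → Circ, x = fun j => ((ξ * (b : ℝ) ^ j : ℝ) : Circ) := ⟨_, rfl⟩
  have hx : ∀ n : ℤ, n ≠ 0 →
      Tendsto (fun M => avg x (fun y => (fourier n y : ℂ)) M) atTop (𝓝 0) := by
    intro n hn
    rw [tendsto_zero_iff_norm_tendsto_zero]
    have hn1 : 1 ≤ n.natAbs := Int.natAbs_pos.mpr hn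
    refine (hW n.natAbs hn1).congr (fun M => ?_)
    unfold avg
    rw [norm_div, Complex.norm_natCast]
    congr 1
    have e : ∀ j, (fourier n (x j) : ℂ) = ee (n * (ξ * (b : ℝ) ^ j)) := by
      intro j
      rw [hxd, fourier_ee]
    simp_rw [e]
    rcases Int.natAbs_eq n with h | h
    · have h2 : (n : ℝ) = (n.natAbs : ℝ) := by
        have : ((n : ℤ) : ℝ) = (((n.natAbs : ℕ) : ℤ) : ℝ) := by rw [← h]
        rw [this, Int.cast_natCast]
      rw [h2]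
    · have h2 : (n : ℝ) = -(n.natAbs : ℝ) := by
        have : ((n : ℤ) : ℝ) = ((-((n.natAbs : ℕ) : ℤ) : ℤ) : ℝ) := by rw [← h]
        rw [this, Int.cast_neg, Int.cast_natCast]
      rw [h2]
      have e2 : ∀ j, ee (-(n.natAbs : ℝ) * (ξ * (b : ℝ) ^ j)) =
          (starRingEnd ℂ) (ee ((n.natAbs : ℝ) * (ξ * (b : ℝ) ^ j))) := by
        intro j
        rw [neg_mul, ee_neg]
      simp_rw [e2]
      rw [← map_sum, RCLike.norm_conj]
  obtain ⟨cnt, hcnt⟩ : ∃ cnt : (Fin k → Fin b) → ℕ → ℝ, cnt = fun d N =>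
      (((Finset.range N).filter (fun j : ℕ => dig b hb ξ k j = d)).card : ℝ) / (N : ℝ) := ⟨_, rfl⟩
  have hup : ∀ (d : Fin k → Fin b) (ε : ℝ), 0 < ε →
      ∀ᶠ N : ℕ in atTop, cnt d N < 1 / (b : ℝ) ^ k + ε := by
    intro d ε hε
    have hcl : IsClosed (arc d) :=
      (isCompact_Icc.image (AddCircle.continuous_mk' (1 : ℝ))).isClosed
    have hv : volume (arc d) ≤ ENNReal.ofReal (1 / (b : ℝ) ^ k) := by
      have h1 := volume_arc ((cv b (ext0 d) k : ℝ) / (b : ℝ) ^ k)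
        (((cv b (ext0 d) k : ℝ) + 1) / (b : ℝ) ^ k) (by
          rw [add_div]
          have : 1 / (b : ℝ) ^ k ≤ 1 := by
            rw [div_le_one hbk]
            exact one_le_pow₀ (by exact_mod_cast (by omega : 1 ≤ b))
          linarith)
      have e : ((cv b (ext0 d) k : ℝ) + 1) / (b : ℝ) ^ k - (cv b (ext0 d) k : ℝ) / (b : ℝ) ^ k =
          1 / (b : ℝ) ^ k := by ring
      rwa [e] at h1
    filter_upwards [closed_upper x hx hcl (1 / (b : ℝ) ^ k) (by positivity) hv ε hε] with N hN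
    refine lt_of_le_of_lt ?_ hN
    rw [hcnt]
    simp only
    gcongr with j hj1
    intro j
    rw [hxd]
    exact mem_arc b hb ξ k _ d j
  have hsum : ∀ N : ℕ, 0 < N → ∑ d : Fin k → Fin b, cnt d N = 1 := by
    intro N hN
    rw [hcnt]
    simp only
    rw [← Finset.sum_div, div_eq_one_iff_eq (by positivity)]
    rw [← Nat.cast_sum]
    congr 1
    have := Finset.card_eq_sum_card_fiberwise (f := dig b hb ξ k) (s := Finset.range N)
      (t := Finset.univ) (fun _ _ => Finset.mem_coe.2 (Finset.mem_univ _))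
    rw [Finset.card_range] at this
    exact this.symm
  have hgoal : Tendsto (fun N => cnt d N) atTop (𝓝 (1 / (b : ℝ) ^ k)) := by
    rw [Metric.tendsto_atTop]
    intro ε hε
    obtain ⟨η, hη⟩ : ∃ η : ℝ, η = ε / (2 * (b : ℝ) ^ k) := ⟨_, rfl⟩
    have hη0 : 0 < η := by rw [hη]; positivity
    have hall : ∀ᶠ N : ℕ in atTop, ∀ d : Fin k → Fin b, cnt d N < 1 / (b : ℝ) ^ k + η :=
      eventually_all.2 (fun d => hup d η hη0)
    have hall2 := hall.and (eventually_gt_atTop 0)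
    obtain ⟨N0, hN0⟩ := eventually_atTop.1 hall2
    refine ⟨N0, fun N hN => ?_⟩
    obtain ⟨h1, h2⟩ := hN0 N hN
    have h3 := hsum N h2
    have hbk1 : (1 : ℝ) ≤ (b : ℝ) ^ k := one_le_pow₀ (by exact_mod_cast (by omega : 1 ≤ b))
    have hηε : η * (b : ℝ) ^ k = ε / 2 := by rw [hη]; field_simp
    have hηε2 : η ≤ ε / 2 := by nlinarith
    rw [Real.dist_eq, abs_lt]
    constructor
    · have h4 : ∑ d' ∈ Finset.univ.erase d, cnt d' N ≤
          ∑ d' ∈ Finset.univ.erase d, (1 / (b : ℝ) ^ k + η) :=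
        Finset.sum_le_sum (fun d' _ => (h1 d').le)
      have h5 := Finset.add_sum_erase Finset.univ (fun d' => cnt d' N) (Finset.mem_univ d)
      rw [h3] at h5
      rw [Finset.sum_const, nsmul_eq_mul, Finset.card_erase_of_mem (Finset.mem_univ d),
        Finset.card_univ, Fintype.card_fun, Fintype.card_fin, Fintype.card_fin] at h4
      have h6 : ((b ^ k - 1 : ℕ) : ℝ) = (b : ℝ) ^ k - 1 := by
        rw [Nat.cast_sub (Nat.one_le_pow _ _ (by omega))]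
        push_cast; ring
      rw [h6] at h4
      have h7 : ((b : ℝ) ^ k - 1) * (1 / (b : ℝ) ^ k + η) = 1 - 1 / (b : ℝ) ^ k +
          (η * (b : ℝ) ^ k) - η := by
        field_simp
        ring
      rw [h7, hηε] at h4
      linarith
    · have := h1 d
      linarith
  refine hgoal.congr (fun N => ?_)
  rw [hcnt]
  simp only
  congr 3
  ext j
  rw [Finset.mem_filter, Finset.mem_filter, dig_iff b hb ξ k j d]

end Pool.Agent.H493R3
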