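import Mathlib
import Pool.Agent.H493R3.Digits

set_option autoImplicit false

open Filter Topology Set

namespace Pool.Agent.H493R3

lemma ee_zpow (x : ℝ) (n : ℤ) : ee (x * n) = ee x ^ n := by
  unfold ee
  rw [← Complex.exp_int_mul]
  congr 1
  push_cast; ring

/-- geometric sums over integer intervals -/
theorem geo_bound (u v : ℤ) (z : ℂ) (hz : ‖z‖ = 1) (hz1 : z ≠ 1) :
    ‖∑ n ∈ Finset.Icc u v, z ^ n‖ ≤ 2 / ‖z - 1‖ := by
  have hz0 : z ≠ 0 := by
    intro h; rw [h] at hz; simp at hz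
  have hsub : z - 1 ≠ 0 := sub_ne_zero.2 hz1
  have hpos : 0 < ‖z - 1‖ := norm_pos_iff.2 hsub
  rw [Int.Icc_eq_finset_map, Finset.sum_map]
  simp only [Function.Embedding.trans_apply, Nat.castEmbedding_apply, addLeftEmbedding_apply]
  have e : ∀ i : ℕ, z ^ (u + (i : ℤ)) = z ^ u * z ^ i := by
    intro i
    rw [zpow_add₀ hz0, zpow_natCast]
  simp_rw [e]
  rw [← Finset.mul_sum, geom_sum_eq hz1, norm_mul, norm_div, norm_zpow, hz, one_zpow, one_mul]
  gcongr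
  calc ‖z ^ (v + 1 - u).toNat - 1‖ ≤ ‖z ^ (v + 1 - u).toNat‖ + ‖(1 : ℂ)‖ := norm_sub_le _ _
    _ = 2 := by rw [norm_pow, hz]; norm_num

lemma ee_sub_one (t : ℝ) (ht : |t| ≤ 1 / 2) : 4 * |t| ≤ ‖ee t - 1‖ := by
  have h1 : ee t = Complex.exp (Complex.I * ((2 * Real.pi * t : ℝ) : ℂ)) := by
    unfold ee
    congr 1
    push_cast; ring
  rw [h1, Complex.norm_exp_I_mul_ofReal_sub_one]
  have e : 2 * Real.pi * t / 2 = Real.pi * t := by ring
  rw [e, norm_mul, Real.norm_eq_abs, Real.norm_eq_abs, abs_two]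
  have hpi := Real.pi_pos
  rcases le_total 0 t with h | h
  · rw [abs_of_nonneg h] at ht ⊢
    have h2 := Real.mul_le_sin (x := Real.pi * t) (by positivity) (by nlinarith)
    have e2 : 2 / Real.pi * (Real.pi * t) = 2 * t := by field_simp
    rw [e2] at h2
    have h3 := le_abs_self (Real.sin (Real.pi * t))
    linarith
  · rw [abs_of_nonpos h] at ht ⊢
    have h2 := Real.mul_le_sin (x := Real.pi * (-t)) (by nlinarith) (by nlinarith)
    have e2 : 2 / Real.pi * (Real.pi * (-t)) = 2 * (-t) := by field_simp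
    rw [e2] at h2
    have h4 : Real.sin (Real.pi * (-t)) = - Real.sin (Real.pi * t) := by
      rw [mul_neg, Real.sin_neg]
    rw [h4] at h2
    have h3 := neg_le_abs (Real.sin (Real.pi * t))
    linarith

/-- norm of the exponential sum over `Icc u v` with frequency `m / N` -/
noncomputable def Gm (u v : ℤ) (N : ℕ) (m : ℤ) : ℝ :=
  ‖∑ n ∈ Finset.Icc u v, ee ((m : ℝ) / N * n)‖

lemma Gm_le_card (u v : ℤ) (N : ℕ) (m : ℤ) : Gm u v N m ≤ (Finset.Icc u v).card := by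
  unfold Gm
  refine (norm_sum_le _ _).trans ?_
  simp [ee_norm]

lemma Gm_nonneg (u v : ℤ) (N : ℕ) (m : ℤ) : 0 ≤ Gm u v N m := norm_nonneg _

lemma Gm_good (u v : ℤ) (N : ℕ) (hN : 1 ≤ N) (m r q : ℤ) (hm : m = r + N * q) (hr : r ≠ 0)
    (hr2 : 2 * |r| ≤ N) : Gm u v N m ≤ N / (2 * |(r : ℝ)|) := by
  have hN0 : (0 : ℝ) < N := by exact_mod_cast hN
  have hr0 : (0 : ℝ) < |(r : ℝ)| := abs_pos.2 (by exact_mod_cast hr)
  unfold Gm
  have h1 : ee ((m : ℝ) / N) = ee ((r : ℝ) / N) := by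
    have e : (m : ℝ) / N = (r : ℝ) / N + (q : ℤ) := by
      rw [hm]; push_cast; field_simp
    rw [e, ee_add, ee_int, mul_one]
  have h2 : ∀ n : ℤ, ee ((m : ℝ) / N * n) = ee ((r : ℝ) / N) ^ n := by
    intro n
    rw [ee_zpow, h1]
  simp_rw [h2]
  have h3 : |(r : ℝ) / N| ≤ 1 / 2 := by
    rw [abs_div, abs_of_pos hN0, div_le_iff₀ hN0]
    have : (2 : ℝ) * |(r : ℝ)| ≤ N := by exact_mod_cast hr2
    linarith
  have h4 := ee_sub_one _ h3
  have h5 : 0 < |(r : ℝ) / N| := by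
    rw [abs_div, abs_of_pos hN0]; positivity
  have h6 : 0 < ‖ee ((r : ℝ) / N) - 1‖ := by linarith
  have h7 : ee ((r : ℝ) / N) ≠ 1 := by
    intro h
    rw [h, sub_self, norm_zero] at h6
    exact lt_irrefl _ h6
  refine (geo_bound u v _ (ee_norm _) h7).trans ?_
  calc 2 / ‖ee ((r : ℝ) / N) - 1‖ ≤ 2 / (4 * |(r : ℝ) / N|) := by gcongr
    _ = N / (2 * |(r : ℝ)|) := by
      rw [abs_div, abs_of_pos hN0]
      field_simp
      norm_num

/-- second moment -/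
theorem moment (u v : ℤ) (N : ℕ) (θ : ℝ) (J : Finset ℕ) (f : ℕ → ℤ) :
    ∑ n ∈ Finset.Icc u v, ‖∑ j ∈ J, ee ((f j : ℝ) * (θ + (n : ℝ) / N))‖ ^ 2 ≤
      ∑ i ∈ J, ∑ j ∈ J, Gm u v N (f i - f j) := by
  have h1 : ∀ n : ℤ, ((‖∑ j ∈ J, ee ((f j : ℝ) * (θ + (n : ℝ) / N))‖ ^ 2 : ℝ) : ℂ) =
      ∑ i ∈ J, ∑ j ∈ J, ee (((f i - f j : ℤ) : ℝ) * θ) * ee (((f i - f j : ℤ) : ℝ) / N * n) := by
    intro n
    rw [Complex.ofReal_pow, ← Complex.mul_conj', map_sum, Finset.sum_mul_sum]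
    refine Finset.sum_congr rfl fun i _ => Finset.sum_congr rfl fun j _ => ?_
    rw [← ee_neg, ← ee_add, ← ee_add]
    congr 1
    push_cast; ring
  have h2 : ((∑ n ∈ Finset.Icc u v, ‖∑ j ∈ J, ee ((f j : ℝ) * (θ + (n : ℝ) / N))‖ ^ 2 : ℝ) : ℂ) =
      ∑ i ∈ J, ∑ j ∈ J, ee (((f i - f j : ℤ) : ℝ) * θ) *
        ∑ n ∈ Finset.Icc u v, ee (((f i - f j : ℤ) : ℝ) / N * n) := by
    rw [Complex.ofReal_sum]
    simp_rw [h1]
    rw [Finset.sum_comm]
    refine Finset.sum_congr rfl fun i _ => ?_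
    rw [Finset.sum_comm]
    refine Finset.sum_congr rfl fun j _ => ?_
    rw [Finset.mul_sum]
  have h3 : ∑ n ∈ Finset.Icc u v, ‖∑ j ∈ J, ee ((f j : ℝ) * (θ + (n : ℝ) / N))‖ ^ 2 =
      ‖((∑ n ∈ Finset.Icc u v, ‖∑ j ∈ J, ee ((f j : ℝ) * (θ + (n : ℝ) / N))‖ ^ 2 : ℝ) : ℂ)‖ := by
    rw [Complex.norm_real, Real.norm_eq_abs, abs_of_nonneg]
    exact Finset.sum_nonneg fun _ _ => by positivity
  rw [h3, h2]
  refine (norm_sum_le _ _).trans (Finset.sum_le_sum fun i _ => ?_)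
  refine (norm_sum_le _ _).trans (Finset.sum_le_sum fun j _ => ?_)
  rw [norm_mul, ee_norm, one_mul]
  rfl

/-- splitting a symmetric double sum -/
theorem sym_sum (G : ℕ → ℕ → ℝ) (hG : ∀ i j, G i j = G j i) (x y : ℕ) (hxy : x ≤ y) :
    ∑ i ∈ Finset.Ico x y, ∑ j ∈ Finset.Ico x y, G i j =
      ∑ j ∈ Finset.Ico x y, (G j j + 2 * ∑ i ∈ Finset.Ico x j, G i j) := by
  induction y, hxy using Nat.le_induction with
  | base => simp
  | succ y hy ih =>
    have hR : ∑ j ∈ Finset.Ico x (y + 1), (G j j + 2 * ∑ i ∈ Finset.Ico x j, G i j) =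
        ∑ j ∈ Finset.Ico x y, (G j j + 2 * ∑ i ∈ Finset.Ico x j, G i j) +
          (G y y + 2 * ∑ i ∈ Finset.Ico x y, G i y) := Finset.sum_Ico_succ_top hy _
    have hL : ∑ i ∈ Finset.Ico x (y + 1), ∑ j ∈ Finset.Ico x (y + 1), G i j =
        ∑ i ∈ Finset.Ico x y, ∑ j ∈ Finset.Ico x (y + 1), G i j +
          ∑ j ∈ Finset.Ico x (y + 1), G y j := Finset.sum_Ico_succ_top hy _
    have h1 : ∀ i, ∑ j ∈ Finset.Ico x (y + 1), G i j = ∑ j ∈ Finset.Ico x y, G i j + G i y :=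
      fun i => Finset.sum_Ico_succ_top hy _
    rw [hR, hL]
    simp_rw [h1]
    rw [Finset.sum_add_distrib, ih]
    have h2 : ∑ j ∈ Finset.Ico x y, G y j = ∑ i ∈ Finset.Ico x y, G i y :=
      Finset.sum_congr rfl fun j _ => hG y j
    rw [h2]
    ring

lemma Gm_neg (u v : ℤ) (N : ℕ) (m : ℤ) : Gm u v N (-m) = Gm u v N m := by
  unfold Gm
  have h1 : ∀ n : ℤ, ee (((-m : ℤ) : ℝ) / N * n) = (starRingEnd ℂ) (ee ((m : ℝ) / N * n)) := by
    intro n
    rw [← ee_neg]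
    congr 1
    push_cast; ring
  simp_rw [h1]
  rw [← map_sum, RCLike.norm_conj]

lemma arith_geo (T : ℕ) : ∑ t ∈ Finset.range T, (t : ℝ) / 2 ^ t = 2 - (2 * T + 2) / 2 ^ T := by
  induction T with
  | zero => simp
  | succ T ih =>
    rw [Finset.sum_range_succ, ih]
    push_cast
    field_simp
    ring

/-- The second moment in the range without wrap around. -/
theorem moment_one (u v : ℤ) (N : ℕ) (hN : 1 ≤ N) (θ : ℝ) (b h : ℕ) (hb : 2 ≤ b) (hh : 1 ≤ h)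
    (x y : ℕ) (hxy : x ≤ y) (hy : ∀ j, j < y → 2 * (h * b ^ j) ≤ N) :
    ∑ n ∈ Finset.Icc u v, ‖∑ j ∈ Finset.Ico x y, ee (h * ((θ + (n : ℝ) / N) * (b : ℝ) ^ j))‖ ^ 2 ≤
      (Finset.Icc u v).card * (y - x : ℕ) + 4 * N / (b : ℝ) ^ x := by
  have hN0 : (0 : ℝ) < N := by exact_mod_cast hN
  have hb0 : (0 : ℝ) < b := by exact_mod_cast (by omega : 0 < b)
  have hb2 : (2 : ℝ) ≤ b := by exact_mod_cast hb
  have hhr : (1 : ℝ) ≤ h := by exact_mod_cast hh
  obtain ⟨f, hf⟩ : ∃ f : ℕ → ℤ, f = fun j => (h : ℤ) * (b : ℤ) ^ j := ⟨_, rfl⟩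
  have h1 := moment u v N θ (Finset.Ico x y) f
  have h2 : ∀ (n : ℤ) (j : ℕ), ee ((f j : ℝ) * (θ + (n : ℝ) / N)) =
      ee (h * ((θ + (n : ℝ) / N) * (b : ℝ) ^ j)) := by
    intro n j
    rw [hf]; congr 1; push_cast; ring
  simp_rw [h2] at h1
  refine h1.trans ?_
  rw [sym_sum (fun i j => Gm u v N (f i - f j)) (fun i j => by
    rw [← Gm_neg]; congr 1; ring) x y hxy, Finset.sum_add_distrib]
  have hdiag : ∑ j ∈ Finset.Ico x y, Gm u v N (f j - f j) ≤
      (Finset.Icc u v).card * (y - x : ℕ) := by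
    calc ∑ j ∈ Finset.Ico x y, Gm u v N (f j - f j)
        ≤ ∑ _j ∈ Finset.Ico x y, ((Finset.Icc u v).card : ℝ) :=
          Finset.sum_le_sum fun j _ => Gm_le_card _ _ _ _
      _ = _ := by rw [Finset.sum_const, Nat.card_Ico, nsmul_eq_mul, mul_comm]
  have hoff : ∀ j ∈ Finset.Ico x y, 2 * ∑ i ∈ Finset.Ico x j, Gm u v N (f i - f j) ≤
      2 * ((j - x : ℕ) * (N / (b : ℝ) ^ j)) := by
    intro j hj
    rw [Finset.mem_Ico] at hj
    gcongr
    calc ∑ i ∈ Finset.Ico x j, Gm u v N (f i - f j)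
        ≤ ∑ _i ∈ Finset.Ico x j, (N / (b : ℝ) ^ j) := by
          refine Finset.sum_le_sum fun i hi => ?_
          rw [Finset.mem_Ico] at hi
          -- the frequency
          have hbij : (b : ℤ) ^ j = b ^ i * b ^ (j - i) := by rw [← pow_add]; congr 1; omega
          have hbi : (1 : ℤ) ≤ (b : ℤ) ^ i := one_le_pow₀ (by omega)
          have hbd : (2 : ℤ) ≤ (b : ℤ) ^ (j - i) := by
            calc (2 : ℤ) ≤ b := by exact_mod_cast hb
              _ ≤ (b : ℤ) ^ (j - i) := le_self_pow₀ (by omega) (by omega)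
          have hle : 2 * (b : ℤ) ^ i ≤ (b : ℤ) ^ j := by rw [hbij]; nlinarith
          have hhz : (1 : ℤ) ≤ h := by exact_mod_cast hh
          have hneg : f i - f j < 0 := by
            rw [hf]; simp only
            nlinarith
          have hlow : (b : ℤ) ^ j ≤ 2 * (f j - f i) := by
            rw [hf]; simp only
            nlinarith
          have hup : 2 * (f j - f i) ≤ N := by
            have h3 : (2 * (h * b ^ j) : ℤ) ≤ N := by exact_mod_cast hy j hj.2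
            rw [hf]; simp only
            nlinarith
          have h4 := Gm_good u v N hN (f i - f j) (f i - f j) 0 (by ring) hneg.ne (by
            rw [abs_of_neg hneg]; linarith)
          refine h4.trans ?_
          have h5 : |((f i - f j : ℤ) : ℝ)| = ((f j - f i : ℤ) : ℝ) := by
            rw [abs_of_neg (by exact_mod_cast hneg)]; push_cast; ring
          rw [h5]
          have h6 : (b : ℝ) ^ j ≤ 2 * ((f j - f i : ℤ) : ℝ) := by exact_mod_cast hlow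
          gcongr
      _ = _ := by rw [Finset.sum_const, Nat.card_Ico, nsmul_eq_mul]
  have hsum : ∑ j ∈ Finset.Ico x y, 2 * ∑ i ∈ Finset.Ico x j, Gm u v N (f i - f j) ≤
      4 * N / (b : ℝ) ^ x := by
    refine (Finset.sum_le_sum hoff).trans ?_
    rw [Finset.sum_Ico_eq_sum_range]
    calc ∑ t ∈ Finset.range (y - x), 2 * (((x + t - x : ℕ) : ℝ) * (N / (b : ℝ) ^ (x + t)))
        ≤ ∑ t ∈ Finset.range (y - x), (2 * N / (b : ℝ) ^ x) * ((t : ℝ) / 2 ^ t) := by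
          refine Finset.sum_le_sum fun t _ => ?_
          rw [Nat.add_sub_cancel_left, pow_add]
          have h7 : (2 : ℝ) ^ t ≤ (b : ℝ) ^ t := by gcongr
          have h8 : (t : ℝ) / (b : ℝ) ^ t ≤ (t : ℝ) / 2 ^ t := by gcongr
          calc 2 * ((t : ℝ) * (N / ((b : ℝ) ^ x * (b : ℝ) ^ t)))
              = (2 * N / (b : ℝ) ^ x) * ((t : ℝ) / (b : ℝ) ^ t) := by field_simp
            _ ≤ _ := by gcongr
      _ = (2 * N / (b : ℝ) ^ x) * (2 - (2 * (y - x : ℕ) + 2) / 2 ^ (y - x)) := by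
          rw [← Finset.mul_sum, arith_geo]
      _ ≤ (2 * N / (b : ℝ) ^ x) * 2 := by
          gcongr
          have : (0 : ℝ) ≤ (2 * (y - x : ℕ) + 2) / 2 ^ (y - x) := by positivity
          linarith
      _ = _ := by ring
  linarith

end Pool.Agent.H493R3
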