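import Mathlib
import Pool.Agent.H493R3.Moment

set_option autoImplicit false

open Filter Topology Set

namespace Pool.Agent.H493R3

/-- A separated subset of `range M` is small. -/
lemma sep_card (M T : ℕ) (hT : 1 ≤ T) (X : Finset ℕ) (hX : X ⊆ Finset.range M)
    (hsep : ∀ i ∈ X, ∀ j ∈ X, i < j → T ≤ j - i) : X.card ≤ M / T + 1 := by
  have hinj : Set.InjOn (fun i => i / T) (X : Set ℕ) := by
    intro i hi j hj hij
    simp only at hij
    by_contra hne
    have key : ∀ a ∈ X, ∀ c ∈ X, a < c → a / T = c / T → False := by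
      intro a ha c hc hac he
      have h1 := hsep a ha c hc hac
      have h2 : (a + T) / T ≤ c / T := Nat.div_le_div_right (by omega)
      rw [Nat.add_div_right a (by omega)] at h2
      omega
    rcases Nat.lt_or_gt_of_ne hne with h | h
    · exact key i hi j hj h hij
    · exact key j hj i hi h hij.symm
  have h1 : X.card ≤ (Finset.range (M / T + 1)).card := by
    apply Finset.card_le_card_of_injOn (fun i => i / T) _ hinj
    intro i hi
    have h2 := Finset.mem_range.1 (hX hi)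
    have h3 : i / T ≤ M / T := Nat.div_le_div_right h2.le
    refine Finset.mem_coe.2 (Finset.mem_range.2 ?_)
    simp only
    omega
  rwa [Finset.card_range] at h1

/-- `m` is within `R` of a multiple of `N`. -/
def Bad (N R : ℕ) (m : ℤ) : Prop := ∃ r : ℤ, |r| < R ∧ (N : ℤ) ∣ (m - r)

lemma dvd_pow_sub (p b T : ℕ) (hb : 2 ≤ b) (hpT : b ^ T ≤ p) (e : ℕ) (he : 1 ≤ e)
    (hd : (p : ℤ) ∣ (b : ℤ) ^ e - 1) : T ≤ e := by
  have h0 : (1 : ℤ) < (b : ℤ) ^ e := by
    have : (1 : ℤ) < b := by exact_mod_cast (by omega : 1 < b)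
    exact one_lt_pow₀ this (by omega)
  have h1 := Int.le_of_dvd (by omega) hd
  have h2 : ((b ^ T : ℕ) : ℤ) ≤ p := by exact_mod_cast hpT
  push_cast at h2
  have h3 : (b : ℤ) ^ T < (b : ℤ) ^ e := by omega
  have h4 : b ^ T < b ^ e := by exact_mod_cast h3
  exact ((Nat.pow_lt_pow_iff_right (by omega)).1 h4).le

open Classical in
/-- Counting bad pairs. -/
theorem bad_pairs (p A b h R T M : ℕ) (hp : p.Prime) (hA : 1 ≤ A) (hb : 2 ≤ b) (hh : 1 ≤ h)
    (hbp : b < p) (hhp : h < p) (hT : 1 ≤ T) (hpT : b ^ T ≤ p) :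
    ((Finset.range M ×ˢ Finset.range M).filter (fun q : ℕ × ℕ => q.1 < q.2 ∧
      Bad (p ^ A) R ((h : ℤ) * (b : ℤ) ^ q.2 - (h : ℤ) * (b : ℤ) ^ q.1))).card ≤
      M * (2 * R + 1) * (M / T + 1) := by
  have hpZ : Prime (p : ℤ) := Nat.prime_iff_prime_int.mp hp
  have hph : ¬ (p : ℤ) ∣ h := by
    intro hd
    have := Nat.le_of_dvd (by omega) (Int.natCast_dvd_natCast.1 hd)
    omega
  have hpb : ¬ (p : ℤ) ∣ b := by
    intro hd
    have := Nat.le_of_dvd (by omega) (Int.natCast_dvd_natCast.1 hd)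
    omega
  obtain ⟨X, hX⟩ : ∃ X : ℕ → Finset ℕ, X = fun d => (Finset.range M).filter
    (fun i => Bad (p ^ A) R ((h : ℤ) * (b : ℤ) ^ i * ((b : ℤ) ^ d - 1))) := ⟨_, rfl⟩
  -- reduction to the sum over the differences
  have h1 : ((Finset.range M ×ˢ Finset.range M).filter (fun q : ℕ × ℕ => q.1 < q.2 ∧
      Bad (p ^ A) R ((h : ℤ) * (b : ℤ) ^ q.2 - (h : ℤ) * (b : ℤ) ^ q.1))).card ≤
      ∑ d ∈ Finset.Ico 1 M, (X d).card := by
    rw [← Finset.card_sigma]
    apply Finset.card_le_card_of_injOn (fun q : ℕ × ℕ => (⟨q.2 - q.1, q.1⟩ : Σ _ : ℕ, ℕ))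
    · rintro ⟨i, j⟩ hq
      rw [Finset.mem_coe, Finset.mem_filter, Finset.mem_product, Finset.mem_range,
        Finset.mem_range] at hq
      obtain ⟨⟨h2, h3⟩, h4, h5⟩ := hq
      simp only at h2 h3 h4 h5
      rw [Finset.mem_coe, Finset.mem_sigma]
      simp only
      refine ⟨Finset.mem_Ico.2 ⟨by omega, by omega⟩, ?_⟩
      rw [hX, Finset.mem_filter, Finset.mem_range]
      refine ⟨h2, ?_⟩
      have e : (h : ℤ) * (b : ℤ) ^ i * ((b : ℤ) ^ (j - i) - 1) =
          (h : ℤ) * (b : ℤ) ^ j - (h : ℤ) * (b : ℤ) ^ i := by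
        have : (b : ℤ) ^ j = b ^ i * b ^ (j - i) := by rw [← pow_add]; congr 1; omega
        rw [this]; ring
      rw [e]; exact h5
    · rintro ⟨i, j⟩ hq ⟨i', j'⟩ hq' he
      rw [Finset.mem_coe, Finset.mem_filter] at hq hq'
      obtain ⟨_, h4, _⟩ := hq
      obtain ⟨_, h4', _⟩ := hq'
      simp only at h4 h4'
      simp only [Sigma.mk.injEq, heq_eq_eq] at he
      obtain ⟨h5, h6⟩ := he
      subst h6
      have : j = j' := by omega
      rw [this]
  obtain ⟨D, hD⟩ : ∃ D : Finset ℕ, D = (Finset.Ico 1 M).filter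
    (fun d => (p : ℤ) ∣ (b : ℤ) ^ d - 1) := ⟨_, rfl⟩
  have hDcard : D.card ≤ M / T + 1 := by
    apply sep_card M T hT
    · intro d hd
      rw [hD, Finset.mem_filter, Finset.mem_Ico] at hd
      exact Finset.mem_range.2 hd.1.2
    · intro i hi j hj hij
      rw [hD, Finset.mem_filter, Finset.mem_Ico] at hi hj
      apply dvd_pow_sub p b T hb hpT (j - i) (by omega)
      have h2 := dvd_sub hj.2 hi.2
      have e : (b : ℤ) ^ j - 1 - ((b : ℤ) ^ i - 1) = (b : ℤ) ^ i * ((b : ℤ) ^ (j - i) - 1) := by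
        have : (b : ℤ) ^ j = b ^ i * b ^ (j - i) := by rw [← pow_add]; congr 1; omega
        rw [this]; ring
      rw [e] at h2
      rcases hpZ.dvd_or_dvd h2 with h3 | h3
      · exact absurd (hpZ.dvd_of_dvd_pow h3) hpb
      · exact h3
  have hX1 : ∀ d, (X d).card ≤ M := by
    intro d
    rw [hX]
    exact (Finset.card_filter_le _ _).trans (by rw [Finset.card_range])
  have hX2 : ∀ d, 1 ≤ d → ¬ (p : ℤ) ∣ (b : ℤ) ^ d - 1 → (X d).card ≤ 2 * R * (M / T + 1) := by
    intro d hd1 hd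
    have hsub : X d ⊆ (Finset.Ioo (-(R : ℤ)) R).biUnion (fun r => (Finset.range M).filter
        (fun i => ((p ^ A : ℕ) : ℤ) ∣ ((h : ℤ) * (b : ℤ) ^ i * ((b : ℤ) ^ d - 1) - r))) := by
      intro i hi
      rw [hX, Finset.mem_filter] at hi
      obtain ⟨hi1, r, hr1, hr2⟩ := hi
      rw [Finset.mem_biUnion]
      rw [abs_lt] at hr1
      exact ⟨r, Finset.mem_Ioo.2 ⟨hr1.1, hr1.2⟩, Finset.mem_filter.2 ⟨hi1, hr2⟩⟩
    refine (Finset.card_le_card hsub).trans (Finset.card_biUnion_le.trans ?_)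
    calc ∑ r ∈ Finset.Ioo (-(R : ℤ)) R, ((Finset.range M).filter
        (fun i => ((p ^ A : ℕ) : ℤ) ∣ ((h : ℤ) * (b : ℤ) ^ i * ((b : ℤ) ^ d - 1) - r))).card
        ≤ ∑ _r ∈ Finset.Ioo (-(R : ℤ)) R, (M / T + 1) := by
          refine Finset.sum_le_sum fun r _ => ?_
          apply sep_card M T hT _ (Finset.filter_subset _ _)
          intro i hi j hj hij
          rw [Finset.mem_filter] at hi hj
          apply dvd_pow_sub p b T hb hpT (j - i) (by omega)
          have h2 := dvd_sub hj.2 hi.2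
          have e : (h : ℤ) * (b : ℤ) ^ j * ((b : ℤ) ^ d - 1) - r -
              ((h : ℤ) * (b : ℤ) ^ i * ((b : ℤ) ^ d - 1) - r) =
              h * ((b : ℤ) ^ i * (((b : ℤ) ^ d - 1) * ((b : ℤ) ^ (j - i) - 1))) := by
            have : (b : ℤ) ^ j = b ^ i * b ^ (j - i) := by rw [← pow_add]; congr 1; omega
            rw [this]; ring
          rw [e] at h2
          have h3 : (p : ℤ) ∣ ((p ^ A : ℕ) : ℤ) := by
            push_cast
            exact dvd_pow_self _ (by omega)
          have h4 := h3.trans h2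
          rcases hpZ.dvd_or_dvd h4 with h5 | h5
          · exact absurd h5 hph
          rcases hpZ.dvd_or_dvd h5 with h6 | h6
          · exact absurd (hpZ.dvd_of_dvd_pow h6) hpb
          rcases hpZ.dvd_or_dvd h6 with h7 | h7
          · exact absurd h7 hd
          · exact h7
      _ = (Finset.Ioo (-(R : ℤ)) R).card * (M / T + 1) := by
          rw [Finset.sum_const, smul_eq_mul]
      _ ≤ 2 * R * (M / T + 1) := by
          apply Nat.mul_le_mul_right
          rw [Int.card_Ioo]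
          omega
  refine h1.trans ?_
  have hsplit : ∑ d ∈ Finset.Ico 1 M, (X d).card ≤
      ∑ d ∈ Finset.Ico 1 M, ((if (p : ℤ) ∣ (b : ℤ) ^ d - 1 then M else 0) +
        2 * R * (M / T + 1)) := by
    refine Finset.sum_le_sum fun d hd => ?_
    rw [Finset.mem_Ico] at hd
    split_ifs with h2
    · exact (hX1 d).trans (Nat.le_add_right _ _)
    · rw [zero_add]
      exact hX2 d hd.1 h2
  refine hsplit.trans ?_
  rw [Finset.sum_add_distrib, ← Finset.sum_filter, ← hD, Finset.sum_const, Finset.sum_const,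
    smul_eq_mul, smul_eq_mul, Nat.card_Ico]
  calc D.card * M + (M - 1) * (2 * R * (M / T + 1))
      ≤ (M / T + 1) * M + M * (2 * R * (M / T + 1)) := by
        apply Nat.add_le_add
        · exact Nat.mul_le_mul_right _ hDcard
        · exact Nat.mul_le_mul_right _ (Nat.sub_le _ _)
    _ = M * (2 * R + 1) * (M / T + 1) := by ring

lemma Gm_not_bad (u v : ℤ) (N R : ℕ) (hN : 1 ≤ N) (hR : 1 ≤ R) (m : ℤ) (hm : ¬ Bad N R m) :
    Gm u v N m ≤ N / (2 * (R : ℝ)) := by
  have hN0 : (0 : ℝ) < N := by exact_mod_cast hN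
  obtain ⟨r, hr⟩ : ∃ r, r = Int.bmod m N := ⟨_, rfl⟩
  have h1 := Int.bmod_add_bdiv m N
  rw [← hr] at h1
  have h2 := Int.le_bmod (x := m) (m := N) (by omega)
  have h3 := Int.bmod_lt (x := m) (m := N) (by omega)
  rw [← hr] at h2 h3
  have h4 : (R : ℤ) ≤ |r| := by
    by_contra hlt
    push Not at hlt
    apply hm
    refine ⟨r, hlt, ⟨Int.bdiv m N, ?_⟩⟩
    linarith
  have h5 : 2 * |r| ≤ N := by
    rcases abs_cases r with ⟨h, _⟩ | ⟨h, _⟩ <;> rw [h] <;> omega
  have h6 : r ≠ 0 := by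
    intro h0
    rw [h0, abs_zero] at h4
    omega
  refine (Gm_good u v N hN m r (Int.bdiv m N) h1.symm h6 h5).trans ?_
  have h7 : (R : ℝ) ≤ |(r : ℝ)| := by exact_mod_cast h4
  have h8 : (0 : ℝ) < R := by exact_mod_cast hR
  gcongr

open Classical in
/-- The second moment in the range with wrap around. -/
theorem moment_two (u v : ℤ) (p A b h R T : ℕ) (hp : p.Prime) (hA : 1 ≤ A) (hb : 2 ≤ b)
    (hh : 1 ≤ h) (hbp : b < p) (hhp : h < p) (hT : 1 ≤ T) (hpT : b ^ T ≤ p) (hR : 1 ≤ R) (θ : ℝ)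
    (x y : ℕ) (hxy : x ≤ y) :
    ∑ n ∈ Finset.Icc u v, ‖∑ j ∈ Finset.Ico x y,
      ee (h * ((θ + (n : ℝ) / ((p ^ A : ℕ) : ℝ)) * (b : ℝ) ^ j))‖ ^ 2 ≤
      (Finset.Icc u v).card * (y : ℝ) + (y : ℝ) ^ 2 * ((p ^ A : ℕ) : ℝ) / R +
        2 * (Finset.Icc u v).card * ((y * (2 * R + 1) * (y / T + 1) : ℕ) : ℝ) := by
  obtain ⟨N, hN⟩ : ∃ N : ℕ, N = p ^ A := ⟨_, rfl⟩
  rw [← hN]
  have hN1 : 1 ≤ N := by rw [hN]; exact Nat.one_le_iff_ne_zero.mpr (pow_ne_zero A hp.ne_zero)
  have hN0 : (0 : ℝ) < N := by exact_mod_cast hN1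
  have hR0 : (0 : ℝ) < R := by exact_mod_cast hR
  obtain ⟨f, hf⟩ : ∃ f : ℕ → ℤ, f = fun j => (h : ℤ) * (b : ℤ) ^ j := ⟨_, rfl⟩
  have h1 := moment u v N θ (Finset.Ico x y) f
  have h2 : ∀ (n : ℤ) (j : ℕ), ee ((f j : ℝ) * (θ + (n : ℝ) / N)) =
      ee (h * ((θ + (n : ℝ) / N) * (b : ℝ) ^ j)) := by
    intro n j
    rw [hf]; congr 1; push_cast; ring
  simp_rw [h2] at h1
  refine h1.trans ?_
  rw [sym_sum (fun i j => Gm u v N (f i - f j)) (fun i j => by
    rw [← Gm_neg]; congr 1; ring) x y hxy, Finset.sum_add_distrib]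
  have hyx : ((y - x : ℕ) : ℝ) ≤ y := by exact_mod_cast Nat.sub_le _ _
  have hdiag : ∑ j ∈ Finset.Ico x y, Gm u v N (f j - f j) ≤
      (Finset.Icc u v).card * (y : ℝ) := by
    calc ∑ j ∈ Finset.Ico x y, Gm u v N (f j - f j)
        ≤ ∑ _j ∈ Finset.Ico x y, ((Finset.Icc u v).card : ℝ) :=
          Finset.sum_le_sum fun j _ => Gm_le_card _ _ _ _
      _ = (Finset.Icc u v).card * ((y - x : ℕ) : ℝ) := by
          rw [Finset.sum_const, Nat.card_Ico, nsmul_eq_mul, mul_comm]
      _ ≤ _ := by gcongr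
  have hterm : ∀ i j : ℕ, Gm u v N (f i - f j) ≤ N / (2 * (R : ℝ)) +
      (if Bad N R (f j - f i) then ((Finset.Icc u v).card : ℝ) else 0) := by
    intro i j
    have e : Gm u v N (f i - f j) = Gm u v N (f j - f i) := by
      rw [← Gm_neg]; congr 1; ring
    rw [e]
    split_ifs with hbad
    · have h3 := Gm_le_card u v N (f j - f i)
      have h4 : (0 : ℝ) ≤ N / (2 * (R : ℝ)) := by positivity
      linarith
    · rw [add_zero]
      exact Gm_not_bad u v N R hN1 hR _ hbad
  have hoff : ∑ j ∈ Finset.Ico x y, ∑ i ∈ Finset.Ico x j, Gm u v N (f i - f j) ≤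
      (y : ℝ) * y * (N / (2 * (R : ℝ))) +
        (Finset.Icc u v).card * ((y * (2 * R + 1) * (y / T + 1) : ℕ) : ℝ) := by
    calc ∑ j ∈ Finset.Ico x y, ∑ i ∈ Finset.Ico x j, Gm u v N (f i - f j)
        ≤ ∑ j ∈ Finset.Ico x y, ∑ i ∈ Finset.Ico x j, (N / (2 * (R : ℝ)) +
          (if Bad N R (f j - f i) then ((Finset.Icc u v).card : ℝ) else 0)) :=
          Finset.sum_le_sum fun j _ => Finset.sum_le_sum fun i _ => hterm i j
      _ = ∑ j ∈ Finset.Ico x y, ∑ i ∈ Finset.Ico x j, (N / (2 * (R : ℝ))) +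
          ∑ j ∈ Finset.Ico x y, ∑ i ∈ Finset.Ico x j,
            (if Bad N R (f j - f i) then ((Finset.Icc u v).card : ℝ) else 0) := by
          rw [← Finset.sum_add_distrib]
          refine Finset.sum_congr rfl fun j _ => ?_
          rw [Finset.sum_add_distrib]
      _ ≤ _ := by
          apply add_le_add
          · calc ∑ j ∈ Finset.Ico x y, ∑ i ∈ Finset.Ico x j, (N / (2 * (R : ℝ)))
                ≤ ∑ _j ∈ Finset.Ico x y, (y : ℝ) * (N / (2 * (R : ℝ))) := by
                  refine Finset.sum_le_sum fun j hj => ?_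
                  rw [Finset.sum_const, Nat.card_Ico, nsmul_eq_mul]
                  rw [Finset.mem_Ico] at hj
                  have : ((j - x : ℕ) : ℝ) ≤ y := by exact_mod_cast (by omega : j - x ≤ y)
                  gcongr
              _ = ((y - x : ℕ) : ℝ) * ((y : ℝ) * (N / (2 * (R : ℝ)))) := by
                  rw [Finset.sum_const, Nat.card_Ico, nsmul_eq_mul]
              _ ≤ (y : ℝ) * ((y : ℝ) * (N / (2 * (R : ℝ)))) := by gcongr
              _ = _ := by ring
          · have h5 := bad_pairs p A b h R T y hp hA hb hh hbp hhp hT hpT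
            rw [← hN] at h5
            have h6 : ∑ j ∈ Finset.Ico x y, ∑ i ∈ Finset.Ico x j,
                (if Bad N R (f j - f i) then ((Finset.Icc u v).card : ℝ) else 0) ≤
                (Finset.Icc u v).card * ((((Finset.range y ×ˢ Finset.range y).filter
                  (fun q : ℕ × ℕ => q.1 < q.2 ∧
                    Bad N R ((h : ℤ) * (b : ℤ) ^ q.2 - (h : ℤ) * (b : ℤ) ^ q.1))).card : ℕ) : ℝ) := by
              rw [← nsmul_eq_mul', ← Finset.sum_const, Finset.sum_sigma', ← Finset.sum_filter]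
              rw [Finset.sum_const, Finset.sum_const]
              apply nsmul_le_nsmul_left (by positivity)
              apply Finset.card_le_card_of_injOn (fun q : (Σ _ : ℕ, ℕ) => (q.2, q.1))
              · rintro ⟨j, i⟩ hq
                rw [Finset.mem_coe, Finset.mem_filter, Finset.mem_sigma, Finset.mem_Ico,
                  Finset.mem_Ico] at hq
                obtain ⟨⟨h7, h8⟩, h9⟩ := hq
                simp only at h7 h8 h9
                rw [Finset.mem_coe, Finset.mem_filter, Finset.mem_product, Finset.mem_range,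
                  Finset.mem_range]
                simp only
                refine ⟨⟨by omega, h7.2⟩, h8.2, ?_⟩
                rw [hf] at h9
                exact h9
              · rintro ⟨j, i⟩ _ ⟨j', i'⟩ _ he
                simp only [Prod.mk.injEq] at he
                rw [he.1, he.2]
            refine h6.trans ?_
            have h7 : ((((Finset.range y ×ˢ Finset.range y).filter
                  (fun q : ℕ × ℕ => q.1 < q.2 ∧
                    Bad N R ((h : ℤ) * (b : ℤ) ^ q.2 - (h : ℤ) * (b : ℤ) ^ q.1))).card : ℕ) : ℝ) ≤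
                ((y * (2 * R + 1) * (y / T + 1) : ℕ) : ℝ) := by exact_mod_cast h5
            gcongr
  rw [← Finset.mul_sum]
  have h8 : 2 * ((y : ℝ) * y * (N / (2 * (R : ℝ)))) = (y : ℝ) ^ 2 * N / R := by
    field_simp
  linarith

end Pool.Agent.H493R3
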