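import Mathlib
import Pool.Agent.H493R3.MomentB

set_option autoImplicit false

open Filter Topology Set

namespace Pool.Agent.H493R3

/-- Weyl sum over `[x, y)`. -/
noncomputable def WS (b h : ℕ) (α : ℝ) (x y : ℕ) : ℂ :=
  ∑ j ∈ Finset.Ico x y, ee (h * (α * (b : ℝ) ^ j))

lemma WS_norm_le (b h : ℕ) (α : ℝ) (x y : ℕ) : ‖WS b h α x y‖ ≤ ((y - x : ℕ) : ℝ) := by
  unfold WS
  refine (norm_sum_le _ _).trans ?_
  simp [ee_norm]

lemma WS_add (b h : ℕ) (α : ℝ) (x y z : ℕ) (hxy : x ≤ y) (hyz : y ≤ z) :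
    WS b h α x z = WS b h α x y + WS b h α y z := by
  unfold WS
  rw [Finset.sum_Ico_consecutive _ hxy hyz]

/-- starting index for the width `w` -/
noncomputable def LL (b : ℕ) (w : ℝ) : ℕ := Nat.clog b ⌈1 / w⌉₊

/-- good equidistribution of `α` from `LL b w` on, as long as `b ^ M ≤ N ^ W` -/
def Cond (b h : ℕ) (ε w : ℝ) (W N : ℕ) (α : ℝ) : Prop :=
  ∀ M : ℕ, LL b w ≤ M → b ^ M ≤ N ^ W → ‖WS b h α (LL b w) M‖ ≤ 4 * ε * M

open Classical in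
lemma chebyshev (S : Finset ℤ) (F : ℤ → ℂ) (t V : ℝ) (ht : 0 < t)
    (hV : ∑ n ∈ S, ‖F n‖ ^ 2 ≤ V) : ((S.filter (fun n => t < ‖F n‖)).card : ℝ) ≤ V / t ^ 2 := by
  rw [le_div_iff₀ (by positivity)]
  calc ((S.filter (fun n => t < ‖F n‖)).card : ℝ) * t ^ 2
      = ∑ _n ∈ S.filter (fun n => t < ‖F n‖), t ^ 2 := by rw [Finset.sum_const, nsmul_eq_mul]
    _ ≤ ∑ n ∈ S.filter (fun n => t < ‖F n‖), ‖F n‖ ^ 2 := by
        refine Finset.sum_le_sum fun n hn => ?_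
        rw [Finset.mem_filter] at hn
        have := hn.2.le
        gcongr
    _ ≤ ∑ n ∈ S, ‖F n‖ ^ 2 := by
        apply Finset.sum_le_sum_of_subset_of_nonneg (Finset.filter_subset _ _)
        intro n _ _
        positivity
    _ ≤ V := hV

lemma clog_ge (b : ℕ) (hb : 2 ≤ b) (w : ℝ) : 1 / w ≤ (b : ℝ) ^ LL b w := by
  have h1 : ⌈1 / w⌉₊ ≤ b ^ LL b w := Nat.le_pow_clog (by omega) _
  have h2 : (⌈1 / w⌉₊ : ℝ) ≤ (b : ℝ) ^ LL b w := by exact_mod_cast h1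
  exact (Nat.le_ceil _).trans h2

/-- deterministic part of the stage lemma, first range -/
lemma det_one (b h : ℕ) (α ε : ℝ) (hε : 0 < ε) (L j0 : ℕ) (hL : 4 / ε ^ 2 ≤ L)
    (hgrid : ∀ i : ℕ, L ≤ i ^ 2 → i ^ 2 ≤ j0 → ‖WS b h α L (i ^ 2)‖ ≤ ε * (i ^ 2 : ℕ))
    (M : ℕ) (hM : L ≤ M) (hMj : M ≤ j0) : ‖WS b h α L M‖ ≤ 2 * ε * M := by
  obtain ⟨i, hi⟩ : ∃ i, i = Nat.sqrt M := ⟨_, rfl⟩
  have h1 : i ^ 2 ≤ M := by rw [hi]; exact Nat.sqrt_le' M
  have h2 : M < (i + 1) ^ 2 := by rw [hi]; exact Nat.lt_succ_sqrt' M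
  have h3 : M - i ^ 2 ≤ 2 * i := by
    have : (i + 1) ^ 2 = i ^ 2 + 2 * i + 1 := by ring
    omega
  have hMr : 4 / ε ^ 2 ≤ (M : ℝ) := hL.trans (by exact_mod_cast hM)
  have h4 : (2 * i : ℝ) ≤ ε * M := by
    rw [div_le_iff₀ (by positivity)] at hMr
    have h5 : ((i : ℝ)) ^ 2 ≤ M := by exact_mod_cast h1
    have h6 : (2 * (i : ℝ)) ^ 2 ≤ (ε * M) ^ 2 := by
      calc (2 * (i : ℝ)) ^ 2 = 4 * (i : ℝ) ^ 2 := by ring
        _ ≤ (M * ε ^ 2) * M := by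
            have : (0 : ℝ) ≤ (i : ℝ) ^ 2 := by positivity
            have h7 : (0 : ℝ) ≤ M * ε ^ 2 := by positivity
            nlinarith
        _ = (ε * M) ^ 2 := by ring
    exact (pow_le_pow_iff_left₀ (by positivity) (by positivity) (by norm_num)).1 h6
  have h5 : ((M - i ^ 2 : ℕ) : ℝ) ≤ ε * M := by
    have : ((M - i ^ 2 : ℕ) : ℝ) ≤ ((2 * i : ℕ) : ℝ) := by exact_mod_cast h3
    push_cast at this
    exact this.trans h4
  have hM0 : (0 : ℝ) ≤ M := Nat.cast_nonneg _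
  by_cases hc : L ≤ i ^ 2
  · rw [WS_add b h α L (i ^ 2) M hc h1]
    have h6 := hgrid i hc (h1.trans hMj)
    have h7 := WS_norm_le b h α (i ^ 2) M
    have h8 : ε * ((i ^ 2 : ℕ) : ℝ) ≤ ε * M := by
      have : ((i ^ 2 : ℕ) : ℝ) ≤ M := by exact_mod_cast h1
      gcongr
    calc ‖WS b h α L (i ^ 2) + WS b h α (i ^ 2) M‖
        ≤ ‖WS b h α L (i ^ 2)‖ + ‖WS b h α (i ^ 2) M‖ := norm_add_le _ _
      _ ≤ ε * M + ε * M := by linarith
      _ = _ := by ring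
  · push Not at hc
    have h6 := WS_norm_le b h α L M
    have h7 : ((M - L : ℕ) : ℝ) ≤ ((M - i ^ 2 : ℕ) : ℝ) := by exact_mod_cast (by omega)
    have h8 : 0 ≤ ε * M := by positivity
    linarith

/-- deterministic part of the stage lemma, second range -/
lemma det_two (b h : ℕ) (α ε : ℝ) (hε : 0 < ε) (j0 Q K : ℕ) (hQ : 1 ≤ Q) (hQε : (Q : ℝ) ≤ ε * j0)
    (hgrid : ∀ l : ℕ, l ≤ K → ‖WS b h α j0 (j0 + l * Q)‖ ≤ ε * ((j0 + l * Q : ℕ) : ℝ))
    (M : ℕ) (hM : j0 ≤ M) (hMK : (M - j0) / Q ≤ K) : ‖WS b h α j0 M‖ ≤ 2 * ε * M := by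
  obtain ⟨l, hl⟩ : ∃ l, l = (M - j0) / Q := ⟨_, rfl⟩
  rw [← hl] at hMK
  have h1 : l * Q ≤ M - j0 := by rw [hl]; exact Nat.div_mul_le_self _ _
  have h2 : M - j0 < l * Q + Q := by
    have := Nat.lt_div_mul_add (a := M - j0) (b := Q) (by omega)
    rw [hl]; omega
  rw [WS_add b h α j0 (j0 + l * Q) M (by omega) (by omega)]
  have h3 := hgrid l hMK
  have h4 := WS_norm_le b h α (j0 + l * Q) M
  have h5 : ((M - (j0 + l * Q) : ℕ) : ℝ) ≤ Q := by exact_mod_cast (by omega)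
  have h6 : ((j0 + l * Q : ℕ) : ℝ) ≤ M := by exact_mod_cast (by omega)
  have h7 : (j0 : ℝ) ≤ M := by exact_mod_cast hM
  calc ‖WS b h α j0 (j0 + l * Q) + WS b h α (j0 + l * Q) M‖
      ≤ ‖WS b h α j0 (j0 + l * Q)‖ + ‖WS b h α (j0 + l * Q) M‖ := norm_add_le _ _
    _ ≤ ε * M + ε * M := by
        have : ε * ((j0 + l * Q : ℕ) : ℝ) ≤ ε * M := by gcongr
        have : ε * (j0 : ℝ) ≤ ε * M := by gcongr
        linarith
    _ = _ := by ring

open Classical in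
/-- Most points are good at a stage. -/
theorem stage_count (b h : ℕ) (hb : 2 ≤ b) (hh : 1 ≤ h) (ε δ : ℝ) (hε : 0 < ε) (hδ : 0 < δ) :
    ∃ w0 : ℝ, 0 < w0 ∧ ∀ w : ℝ, 0 < w → w ≤ w0 → ∀ W : ℕ, ∃ P0 : ℕ, ∀ p : ℕ, p.Prime → P0 ≤ p →
      ∀ A : ℕ, 1 ≤ A → ∀ (θ : ℝ) (u v : ℤ),
        ((Finset.Icc u v).card : ℝ) ≤ 2 * (w * ((p ^ A : ℕ) : ℝ)) →
        (((Finset.Icc u v).filter (fun n : ℤ =>
          ¬ Cond b h ε w W (p ^ A) (θ + (n : ℝ) / ((p ^ A : ℕ) : ℝ)))).card : ℝ) ≤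
          δ * (w * ((p ^ A : ℕ) : ℝ)) := by
  have hb0 : (0 : ℝ) < b := by exact_mod_cast (by omega : 0 < b)
  have hb1 : (1 : ℝ) < b := by exact_mod_cast (by omega : 1 < b)
  obtain ⟨s0, hs0⟩ : ∃ s0 : ℕ, s0 = ⌈24 / (ε ^ 2 * δ)⌉₊ + 1 := ⟨_, rfl⟩
  obtain ⟨L0, hL0⟩ : ∃ L0 : ℕ, L0 = s0 ^ 2 + ⌈4 / ε ^ 2⌉₊ := ⟨_, rfl⟩
  refine ⟨1 / (b : ℝ) ^ L0, by positivity, fun w hw0 hw W => ?_⟩
  obtain ⟨L, hL⟩ : ∃ L, L = LL b w := ⟨_, rfl⟩
  have hbL : 1 / w ≤ (b : ℝ) ^ L := by rw [hL]; exact clog_ge b hb w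
  have hLL0 : L0 ≤ L := by
    have h1 : (b : ℝ) ^ L0 ≤ (b : ℝ) ^ L := by
      refine le_trans ?_ hbL
      rw [le_div_iff₀ hw0]
      rw [le_div_iff₀ (by positivity)] at hw
      linarith
    exact (pow_le_pow_iff_right₀ hb1).1 h1
  have hL4 : 4 / ε ^ 2 ≤ (L : ℝ) :=
    (Nat.le_ceil _).trans (by exact_mod_cast (by omega : ⌈4 / ε ^ 2⌉₊ ≤ L))
  obtain ⟨s, hs⟩ : ∃ s, s = Nat.sqrt L := ⟨_, rfl⟩
  have hss0 : s0 ≤ s := by
    rw [hs, Nat.le_sqrt']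
    omega
  have hs1 : 1 ≤ s := by omega
  have hs24 : 24 / (ε ^ 2 * δ) ≤ (s : ℝ) :=
    (Nat.le_ceil _).trans (by exact_mod_cast (by omega : ⌈24 / (ε ^ 2 * δ)⌉₊ ≤ s))
  have hsL : s ^ 2 ≤ L := by rw [hs]; exact Nat.sqrt_le' L
  -- parameters of the second range
  obtain ⟨K, hK⟩ : ∃ K : ℕ, K = ⌈4 * W / ε⌉₊ := ⟨_, rfl⟩
  obtain ⟨η, hη⟩ : ∃ η : ℝ, η = ε ^ 2 * δ / (2 * (K + 1)) := ⟨_, rfl⟩
  have hη0 : 0 < η := by rw [hη]; positivity
  obtain ⟨R, hR⟩ : ∃ R : ℕ, R = ⌈2 / (w * η)⌉₊ + 1 := ⟨_, rfl⟩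
  have hR1 : 1 ≤ R := by omega
  have hR0 : (0 : ℝ) < R := by exact_mod_cast hR1
  have hRη : 2 / (w * η) ≤ (R : ℝ) :=
    (Nat.le_ceil _).trans (by exact_mod_cast (by omega : ⌈2 / (w * η)⌉₊ ≤ R))
  obtain ⟨T, hT⟩ : ∃ T : ℕ, T = ⌈2 * (2 + 8 * (2 * (R : ℝ) + 1)) / η⌉₊ + ⌈2 / ε⌉₊ + 1 := ⟨_, rfl⟩
  have hT1 : 1 ≤ T := by omega
  have hT0 : (0 : ℝ) < T := by exact_mod_cast hT1
  have hTη : 2 * (2 + 8 * (2 * (R : ℝ) + 1)) / η ≤ (T : ℝ) :=
    (Nat.le_ceil _).trans (Nat.cast_le.2 (by omega))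
  have hTε : 2 / ε ≤ (T : ℝ) :=
    (Nat.le_ceil _).trans (Nat.cast_le.2 (by omega))
  refine ⟨2 * h * b ^ T + 2 * h * b ^ L + (2 * h) ^ 2 + b + h + 1, fun p hp hpP A hA θ u v hcard => ?_⟩
  obtain ⟨N, hN⟩ : ∃ N : ℕ, N = p ^ A := ⟨_, rfl⟩
  rw [← hN] at hcard ⊢
  have hN1 : 1 ≤ N := by rw [hN]; exact Nat.one_le_iff_ne_zero.mpr (pow_ne_zero A hp.ne_zero)
  have hN0 : (0 : ℝ) < N := by exact_mod_cast hN1
  have hpN : p ≤ N := by rw [hN]; exact Nat.le_self_pow (by omega) p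
  have hpT : b ^ T ≤ p := by
    have : b ^ T ≤ 2 * h * b ^ T := Nat.le_mul_of_pos_left _ (by omega)
    omega
  -- the transition index
  have hex : ∃ j, N < 2 * (h * b ^ j) := by
    refine ⟨N, ?_⟩
    have h1 : N < b ^ N := Nat.lt_pow_self (by omega)
    have h2 : b ^ N ≤ h * b ^ N := Nat.le_mul_of_pos_left _ (by omega)
    omega
  obtain ⟨j0, hj0⟩ : ∃ j0, j0 = Nat.find hex := ⟨_, rfl⟩
  have hj0a : N < 2 * (h * b ^ j0) := by rw [hj0]; exact Nat.find_spec hex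
  have hj0b : ∀ j, j < j0 → 2 * (h * b ^ j) ≤ N := by
    intro j hj
    rw [hj0] at hj
    have := Nat.find_min hex hj
    omega
  have hgt : ∀ X : ℕ, 2 * h * b ^ X ≤ N → X < j0 := by
    intro X hX
    by_contra hc
    push Not at hc
    have h1 : b ^ j0 ≤ b ^ X := Nat.pow_le_pow_right (by omega) hc
    have h2 : 2 * (h * b ^ j0) ≤ 2 * h * b ^ X := by
      calc 2 * (h * b ^ j0) = 2 * h * b ^ j0 := by ring
        _ ≤ 2 * h * b ^ X := Nat.mul_le_mul_left _ h1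
    omega
  have hTj : T < j0 := hgt T (by omega)
  have hLj : L < j0 := hgt L (by omega)
  have hj00 : (0 : ℝ) < j0 := by exact_mod_cast (by omega : 0 < j0)
  have h2h : 2 * h ≤ b ^ j0 := by
    have h1 : (2 * h) ^ 2 < 2 * h * b ^ j0 := by
      calc (2 * h) ^ 2 ≤ p := by omega
        _ ≤ N := hpN
        _ < 2 * (h * b ^ j0) := hj0a
        _ = 2 * h * b ^ j0 := by ring
    rw [pow_two] at h1
    exact (Nat.lt_of_mul_lt_mul_left h1).le
  have hMbound : ∀ M, b ^ M ≤ N ^ W → M ≤ 2 * W * j0 := by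
    intro M hM
    have h1 : N ≤ b ^ (2 * j0) := by
      calc N ≤ 2 * h * b ^ j0 := by rw [mul_assoc]; exact hj0a.le
        _ ≤ b ^ j0 * b ^ j0 := Nat.mul_le_mul_right _ h2h
        _ = b ^ (2 * j0) := by rw [← pow_add]; congr 1; ring
    have h2 : b ^ M ≤ b ^ (2 * W * j0) := by
      calc b ^ M ≤ N ^ W := hM
        _ ≤ (b ^ (2 * j0)) ^ W := Nat.pow_le_pow_left h1 W
        _ = b ^ (2 * W * j0) := by rw [← pow_mul]; congr 1; ring
    exact (Nat.pow_le_pow_iff_right (by omega)).1 h2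
  -- the block length
  obtain ⟨Q, hQ⟩ : ∃ Q : ℕ, Q = ⌊ε * j0⌋₊ := ⟨_, rfl⟩
  have hTj' : (T : ℝ) ≤ j0 := by exact_mod_cast hTj.le
  have hεj : 2 ≤ ε * j0 := by
    have h1 := hTε.trans hTj'
    rw [div_le_iff₀ hε] at h1
    linarith
  have hQ1 : 1 ≤ Q := by
    rw [hQ, Nat.one_le_floor_iff]; linarith
  have hQle : (Q : ℝ) ≤ ε * j0 := by rw [hQ]; exact Nat.floor_le (by positivity)
  have hQge : ε * j0 / 2 ≤ Q := by
    have := Nat.lt_floor_add_one (ε * j0)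
    rw [← hQ] at this
    linarith
  have hKbound : ∀ M, b ^ M ≤ N ^ W → (M - j0) / Q ≤ K := by
    intro M hM
    have h1 := hMbound M hM
    have h2 : (M - j0) / Q ≤ (2 * W * j0) / Q := Nat.div_le_div_right (by omega)
    refine h2.trans ?_
    have h3 : (((2 * W * j0) / Q : ℕ) : ℝ) ≤ K := by
      refine (Nat.cast_div_le).trans ?_
      have hQ0 : (0 : ℝ) < Q := by exact_mod_cast hQ1
      rw [div_le_iff₀ hQ0]
      have h4 : 4 * W / ε ≤ (K : ℝ) := by rw [hK]; exact Nat.le_ceil _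
      rw [div_le_iff₀ hε] at h4
      push_cast
      calc 2 * (W : ℝ) * j0 = (4 * W) * j0 / 2 := by ring
        _ ≤ (K * ε) * j0 / 2 := by gcongr
        _ = K * (ε * j0 / 2) := by ring
        _ ≤ K * Q := by gcongr
    exact_mod_cast h3
  -- the two exceptional sets
  obtain ⟨B1, hB1⟩ : ∃ B1 : ℕ → Finset ℤ, B1 = fun i => (Finset.Icc u v).filter (fun n : ℤ =>
    ε * ((i ^ 2 : ℕ) : ℝ) < ‖WS b h (θ + (n : ℝ) / N) L (i ^ 2)‖) := ⟨_, rfl⟩
  obtain ⟨B2, hB2⟩ : ∃ B2 : ℕ → Finset ℤ, B2 = fun l => (Finset.Icc u v).filter (fun n : ℤ =>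
    ε * ((j0 + l * Q : ℕ) : ℝ) < ‖WS b h (θ + (n : ℝ) / N) j0 (j0 + l * Q)‖) := ⟨_, rfl⟩
  obtain ⟨I1, hI1⟩ : ∃ I1 : Finset ℕ, I1 = (Finset.Ioo (s - 1) (j0 + 1)).filter
    (fun i => L ≤ i ^ 2 ∧ i ^ 2 ≤ j0) := ⟨_, rfl⟩
  have hsub : (Finset.Icc u v).filter (fun n : ℤ => ¬ Cond b h ε w W N (θ + (n : ℝ) / N)) ⊆
      I1.biUnion B1 ∪ (Finset.range (K + 1)).biUnion B2 := by
    intro n hn
    rw [Finset.mem_filter] at hn
    by_contra hno
    rw [Finset.mem_union, Finset.mem_biUnion, Finset.mem_biUnion] at hno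
    push Not at hno
    obtain ⟨hno1, hno2⟩ := hno
    apply hn.2
    obtain ⟨α, hα⟩ : ∃ α : ℝ, α = θ + (n : ℝ) / N := ⟨_, rfl⟩
    rw [← hα]
    have g1 : ∀ i : ℕ, L ≤ i ^ 2 → i ^ 2 ≤ j0 → ‖WS b h α L (i ^ 2)‖ ≤ ε * (i ^ 2 : ℕ) := by
      intro i hi1 hi2
      have hsi : s ≤ i := by
        by_contra hc
        push Not at hc
        have : i ^ 2 < s ^ 2 := Nat.pow_lt_pow_left hc (by norm_num)
        omega
      have hij : i ≤ i ^ 2 := Nat.le_self_pow (by norm_num) i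
      have h1 : i ∈ I1 := by
        rw [hI1, Finset.mem_filter, Finset.mem_Ioo]
        exact ⟨⟨by omega, by omega⟩, hi1, hi2⟩
      have h2 := hno1 i h1
      rw [hB1] at h2
      simp only [Finset.mem_filter, not_and, not_lt] at h2
      rw [hα]
      exact h2 hn.1
    have g2 : ∀ l : ℕ, l ≤ K → ‖WS b h α j0 (j0 + l * Q)‖ ≤ ε * ((j0 + l * Q : ℕ) : ℝ) := by
      intro l hl
      have h2 := hno2 l (Finset.mem_range.2 (by omega))
      rw [hB2] at h2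
      simp only [Finset.mem_filter, not_and, not_lt] at h2
      rw [hα]
      exact h2 hn.1
    intro M hM1 hM2
    rw [← hL] at hM1 ⊢
    have hM0 : (0 : ℝ) ≤ M := Nat.cast_nonneg _
    rcases le_total M j0 with hMj | hMj
    · have h1 := det_one b h α ε hε L j0 hL4 g1 M hM1 hMj
      have : 0 ≤ ε * M := by positivity
      linarith
    · have h1 := det_one b h α ε hε L j0 hL4 g1 j0 hLj.le le_rfl
      have h2 := det_two b h α ε hε j0 Q K hQ1 hQle g2 M hMj (hKbound M hM2)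
      rw [WS_add b h α L j0 M hLj.le hMj]
      have h3 : (j0 : ℝ) ≤ M := by exact_mod_cast hMj
      have h4 : ε * (j0 : ℝ) ≤ ε * M := by gcongr
      have h5 := norm_add_le (WS b h α L j0) (WS b h α j0 M)
      linarith
  -- counting in the first range
  have hwN : 0 < w * (N : ℝ) := by positivity
  have hB1card : ∀ i ∈ I1, ((B1 i).card : ℝ) ≤ (6 * (w * N) / ε ^ 2) * ((i : ℝ) ^ 2)⁻¹ := by
    intro i hi
    rw [hI1, Finset.mem_filter, Finset.mem_Ioo] at hi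
    obtain ⟨⟨hi1, _⟩, hi2, hi3⟩ := hi
    have hi0 : 1 ≤ i := by omega
    have hir : (1 : ℝ) ≤ i := by exact_mod_cast hi0
    have h1 := moment_one u v N hN1 θ b h hb hh L (i ^ 2) hi2 (fun j hj => hj0b j (by omega))
    have h2 : ((Finset.Icc u v).card : ℝ) * ((i ^ 2 - L : ℕ) : ℝ) + 4 * N / (b : ℝ) ^ L ≤
        6 * (w * N) * (i : ℝ) ^ 2 := by
      have h3 : ((i ^ 2 - L : ℕ) : ℝ) ≤ (i : ℝ) ^ 2 := by
        have : ((i ^ 2 - L : ℕ) : ℝ) ≤ ((i ^ 2 : ℕ) : ℝ) := by exact_mod_cast Nat.sub_le _ _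
        push_cast at this
        exact this
      have h4 : 4 * N / (b : ℝ) ^ L ≤ 4 * (w * N) := by
        rw [div_le_iff₀ (by positivity)]
        rw [div_le_iff₀ hw0] at hbL
        nlinarith
      have h5 : (1 : ℝ) ≤ (i : ℝ) ^ 2 := one_le_pow₀ hir
      calc ((Finset.Icc u v).card : ℝ) * ((i ^ 2 - L : ℕ) : ℝ) + 4 * N / (b : ℝ) ^ L
          ≤ 2 * (w * N) * (i : ℝ) ^ 2 + 4 * (w * N) * (i : ℝ) ^ 2 := by
            apply add_le_add
            · gcongr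
            · refine h4.trans ?_
              exact le_mul_of_one_le_right (by positivity) h5
        _ = _ := by ring
    have h6 := chebyshev (Finset.Icc u v) (fun n => WS b h (θ + (n : ℝ) / N) L (i ^ 2))
      (ε * ((i ^ 2 : ℕ) : ℝ)) (6 * (w * N) * (i : ℝ) ^ 2) (by positivity) (by
        refine le_trans (le_of_eq ?_) (h1.trans h2)
        rfl)
    rw [hB1]
    refine h6.trans (le_of_eq ?_)
    push_cast
    field_simp
  have hsum1 : ∑ i ∈ I1, ((B1 i).card : ℝ) ≤ δ / 2 * (w * N) := by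
    calc ∑ i ∈ I1, ((B1 i).card : ℝ)
        ≤ ∑ i ∈ I1, (6 * (w * N) / ε ^ 2) * ((i : ℝ) ^ 2)⁻¹ := Finset.sum_le_sum hB1card
      _ ≤ ∑ i ∈ Finset.Ioo (s - 1) (j0 + 1), (6 * (w * N) / ε ^ 2) * ((i : ℝ) ^ 2)⁻¹ := by
          rw [hI1]
          apply Finset.sum_le_sum_of_subset_of_nonneg (Finset.filter_subset _ _)
          intro i _ _
          positivity
      _ = (6 * (w * N) / ε ^ 2) * ∑ i ∈ Finset.Ioo (s - 1) (j0 + 1), ((i : ℝ) ^ 2)⁻¹ := by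
          rw [Finset.mul_sum]
      _ ≤ (6 * (w * N) / ε ^ 2) * (2 / (((s - 1 : ℕ) : ℝ) + 1)) := by
          gcongr
          exact sum_Ioo_inv_sq_le (s - 1) (j0 + 1)
      _ = (6 * (w * N) / ε ^ 2) * (2 / (s : ℝ)) := by
          congr 2
          rw [Nat.cast_sub hs1]; push_cast; ring
      _ ≤ δ / 2 * (w * N) := by
          have hs0' : (0 : ℝ) < s := by exact_mod_cast hs1
          rw [div_le_iff₀ (by positivity)] at hs24
          rw [div_mul_div_comm, div_le_iff₀ (by positivity)]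
          calc 6 * (w * N) * 2 = (w * N) * 24 / 2 := by ring
            _ ≤ (w * N) * (s * (ε ^ 2 * δ)) / 2 := by gcongr
            _ = _ := by ring
  -- counting in the second range
  have hB2card : ∀ l ∈ Finset.range (K + 1), ((B2 l).card : ℝ) ≤ (w * N) * η / ε ^ 2 := by
    intro l _
    obtain ⟨y, hy⟩ : ∃ y, y = j0 + l * Q := ⟨_, rfl⟩
    have hjy : j0 ≤ y := by omega
    have hTy : T ≤ y := by omega
    have hy0 : (0 : ℝ) < y := by exact_mod_cast (by omega : 0 < y)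
    have hTyr : (T : ℝ) ≤ y := by exact_mod_cast hTy
    have h1 := moment_two u v p A b h R T hp hA hb hh (by omega) (by omega) hT1 hpT hR1 θ j0 y hjy
    rw [← hN] at h1
    have h2 : ((Finset.Icc u v).card : ℝ) * (y : ℝ) + (y : ℝ) ^ 2 * (N : ℝ) / R +
        2 * ((Finset.Icc u v).card : ℝ) * ((y * (2 * R + 1) * (y / T + 1) : ℕ) : ℝ) ≤
        (w * N) * η * (y : ℝ) ^ 2 := by
      have h3 : ((y / T + 1 : ℕ) : ℝ) ≤ 2 * y / T := by
        push_cast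
        have h4 : ((y / T : ℕ) : ℝ) ≤ (y : ℝ) / T := Nat.cast_div_le
        have h5 : (1 : ℝ) ≤ (y : ℝ) / T := by rw [le_div_iff₀ hT0]; linarith
        calc ((y / T : ℕ) : ℝ) + 1 ≤ (y : ℝ) / T + (y : ℝ) / T := add_le_add h4 h5
          _ = 2 * y / T := by ring
      have h4 : ((y * (2 * R + 1) * (y / T + 1) : ℕ) : ℝ) ≤
          y * (2 * R + 1) * (2 * y / T) := by
        rw [Nat.cast_mul]
        push_cast at h3 ⊢
        gcongr
      have h5 : (y : ℝ) ^ 2 * (N : ℝ) / R ≤ (w * N) * (η / 2) * (y : ℝ) ^ 2 := by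
        rw [div_le_iff₀ hR0]
        rw [div_le_iff₀ (by positivity)] at hRη
        calc (y : ℝ) ^ 2 * (N : ℝ) = (y : ℝ) ^ 2 * N / 2 * 2 := by ring
          _ ≤ (y : ℝ) ^ 2 * N / 2 * (R * (w * η)) := by gcongr
          _ = _ := by ring
      have h6 : (y : ℝ) ≤ (y : ℝ) ^ 2 / T := by
        rw [le_div_iff₀ hT0, pow_two]
        gcongr
      calc ((Finset.Icc u v).card : ℝ) * (y : ℝ) + (y : ℝ) ^ 2 * (N : ℝ) / R +
            2 * ((Finset.Icc u v).card : ℝ) * ((y * (2 * R + 1) * (y / T + 1) : ℕ) : ℝ)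
          ≤ (2 * (w * N)) * ((y : ℝ) ^ 2 / T) + (w * N) * (η / 2) * (y : ℝ) ^ 2 +
            2 * (2 * (w * N)) * (y * (2 * R + 1) * (2 * y / T)) := by gcongr
        _ = (w * N) * (y : ℝ) ^ 2 * ((2 + 8 * (2 * (R : ℝ) + 1)) / T) +
            (w * N) * (η / 2) * (y : ℝ) ^ 2 := by
            field_simp
            ring
        _ ≤ (w * N) * (y : ℝ) ^ 2 * (η / 2) + (w * N) * (η / 2) * (y : ℝ) ^ 2 := by
            have h7 : (2 + 8 * (2 * (R : ℝ) + 1)) / T ≤ η / 2 := by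
              rw [div_le_iff₀ hT0]
              rw [div_le_iff₀ hη0] at hTη
              linarith
            gcongr
        _ = _ := by ring
    have h6 := chebyshev (Finset.Icc u v) (fun n => WS b h (θ + (n : ℝ) / N) j0 y)
      (ε * (y : ℝ)) ((w * N) * η * (y : ℝ) ^ 2) (by positivity) (by
        refine le_trans (le_of_eq ?_) (h1.trans h2)
        rfl)
    rw [hB2]
    simp only
    rw [← hy]
    refine h6.trans (le_of_eq ?_)
    field_simp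
  have hsum2 : ∑ l ∈ Finset.range (K + 1), ((B2 l).card : ℝ) ≤ δ / 2 * (w * N) := by
    calc ∑ l ∈ Finset.range (K + 1), ((B2 l).card : ℝ)
        ≤ ∑ _l ∈ Finset.range (K + 1), (w * N) * η / ε ^ 2 := Finset.sum_le_sum hB2card
      _ = (K + 1) * ((w * N) * η / ε ^ 2) := by
          rw [Finset.sum_const, Finset.card_range, nsmul_eq_mul]; push_cast; ring
      _ = δ / 2 * (w * N) := by
          rw [hη]; field_simp
  have hfin : (((Finset.Icc u v).filter (fun n : ℤ =>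
      ¬ Cond b h ε w W N (θ + (n : ℝ) / N))).card : ℝ) ≤
      ∑ i ∈ I1, ((B1 i).card : ℝ) + ∑ l ∈ Finset.range (K + 1), ((B2 l).card : ℝ) := by
    have h1 := (Finset.card_le_card hsub).trans ((Finset.card_union_le _ _).trans
      (add_le_add (Finset.card_biUnion_le (s := I1) (t := B1))
        (Finset.card_biUnion_le (s := Finset.range (K + 1)) (t := B2))))
    exact_mod_cast h1
  linarith

end Pool.Agent.H493R3
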