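import Mathlib
import Pool.Agent.H493R3.Stage

set_option autoImplicit false

open Filter Topology Set

namespace Pool.Agent.H493R3

lemma ee_lip (x y : ℝ) : ‖ee x - ee y‖ ≤ 7 * |x - y| := by
  have h1 : ee x - ee y = ee y * (ee (x - y) - 1) := by
    rw [mul_sub, mul_one, ← ee_add]; congr 2; ring
  have h2 : ee (x - y) = Complex.exp (Complex.I * ((2 * Real.pi * (x - y) : ℝ) : ℂ)) := by
    unfold ee
    congr 1
    push_cast; ring
  rw [h1, norm_mul, ee_norm, one_mul, h2]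
  refine (Real.norm_exp_I_mul_ofReal_sub_one_le).trans ?_
  rw [Real.norm_eq_abs, abs_mul, abs_of_pos (by positivity : 0 < 2 * Real.pi)]
  have h3 := Real.pi_lt_d2
  have h4 := abs_nonneg (x - y)
  nlinarith

lemma geom_le (b : ℕ) (hb : 2 ≤ b) (M : ℕ) : ∑ j ∈ Finset.range M, (b : ℝ) ^ j ≤ (b : ℝ) ^ M := by
  have hb2 : (2 : ℝ) ≤ b := by exact_mod_cast hb
  induction M with
  | zero => simp
  | succ M ih =>
    rw [Finset.sum_range_succ, pow_succ]
    have : (0 : ℝ) ≤ (b : ℝ) ^ M := by positivity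
    nlinarith

lemma WS_close (b h : ℕ) (hb : 2 ≤ b) (ξ α η : ℝ) (hη : |ξ - α| ≤ η) (x M : ℕ) :
    ‖WS b h ξ x M‖ ≤ ‖WS b h α x M‖ + 7 * h * η * (b : ℝ) ^ M := by
  have hη0 : 0 ≤ η := (abs_nonneg _).trans hη
  have h1 : ‖WS b h ξ x M - WS b h α x M‖ ≤ 7 * h * η * (b : ℝ) ^ M := by
    unfold WS
    rw [← Finset.sum_sub_distrib]
    refine (norm_sum_le _ _).trans ?_
    calc ∑ j ∈ Finset.Ico x M, ‖ee (h * (ξ * (b : ℝ) ^ j)) - ee (h * (α * (b : ℝ) ^ j))‖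
        ≤ ∑ j ∈ Finset.Ico x M, 7 * h * η * (b : ℝ) ^ j := by
          refine Finset.sum_le_sum fun j _ => ?_
          refine (ee_lip _ _).trans ?_
          have e : (h : ℝ) * (ξ * (b : ℝ) ^ j) - h * (α * (b : ℝ) ^ j) =
              (h * (b : ℝ) ^ j) * (ξ - α) := by ring
          rw [e, abs_mul, abs_of_nonneg (by positivity : (0 : ℝ) ≤ h * (b : ℝ) ^ j)]
          calc 7 * ((h : ℝ) * (b : ℝ) ^ j * |ξ - α|) ≤ 7 * ((h : ℝ) * (b : ℝ) ^ j * η) := by gcongr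
            _ = _ := by ring
      _ ≤ ∑ j ∈ Finset.range M, 7 * h * η * (b : ℝ) ^ j := by
          apply Finset.sum_le_sum_of_subset_of_nonneg
          · intro j hj
            rw [Finset.mem_Ico] at hj
            exact Finset.mem_range.2 hj.2
          · intro j _ _
            positivity
      _ = 7 * h * η * ∑ j ∈ Finset.range M, (b : ℝ) ^ j := by rw [Finset.mul_sum]
      _ ≤ _ := by
          gcongr
          exact geom_le b hb M
  have h2 := norm_sub_norm_le (WS b h ξ x M) (WS b h α x M)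
  linarith

lemma half_rec (D δ : ℕ → ℝ) (K0 : ℕ) (hD : ∀ k, 0 ≤ D k)
    (hrec : ∀ k, K0 ≤ k → D (k + 1) ≤ D k / 2 + δ k) (hδ : Tendsto δ atTop (𝓝 0)) :
    Tendsto D atTop (𝓝 0) := by
  rw [Metric.tendsto_atTop]
  intro ε hε
  obtain ⟨K1, hK1⟩ := eventually_atTop.1 (hδ.eventually_lt_const (show (0 : ℝ) < ε / 4 by positivity))
  obtain ⟨K, hK⟩ : ∃ K, K = max K0 K1 := ⟨_, rfl⟩
  have h1 : ∀ n, D (K + n) ≤ D K / 2 ^ n + ε / 2 := by
    intro n
    induction n with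
    | zero => simp; positivity
    | succ n ih =>
      have h2 := hrec (K + n) (by rw [hK]; exact (le_max_left _ _).trans (Nat.le_add_right _ _))
      have h3 := hK1 (K + n) (by rw [hK]; exact (le_max_right _ _).trans (Nat.le_add_right _ _))
      have e : D K / 2 ^ (n + 1) = D K / 2 ^ n / 2 := by rw [pow_succ]; field_simp
      rw [e, ← Nat.add_assoc]
      linarith
  have h2 : Tendsto (fun n : ℕ => D K / 2 ^ n) atTop (𝓝 0) := by
    have := (tendsto_pow_atTop_nhds_zero_of_lt_one (r := (1 / 2 : ℝ)) (by norm_num) (by norm_num)).const_mul (D K)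
    rw [mul_zero] at this
    refine this.congr fun n => ?_
    rw [one_div, inv_pow]; rfl
  obtain ⟨n0, hn0⟩ := eventually_atTop.1 (h2.eventually_lt_const (show (0 : ℝ) < ε / 2 by positivity))
  refine ⟨K + n0, fun k hk => ?_⟩
  obtain ⟨n, rfl⟩ : ∃ n, k = K + n := ⟨k - K, by omega⟩
  have h3 := h1 n
  have h4 := hn0 n (by omega)
  rw [Real.dist_eq, sub_zero, abs_of_nonneg (hD _)]
  linarith

theorem weyl_of_chain (b h : ℕ) (hb : 2 ≤ b) (ξ : ℝ) (w α : ℕ → ℝ) (N W p : ℕ → ℕ)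
    (hw : ∀ k, 0 < w k) (hp : ∀ k, 2 ≤ p k) (hkp : ∀ k, k ≤ p k) (hpN : ∀ k, p k ≤ N k)
    (hW : ∀ k, 22 ≤ W k)
    (hwr : ∀ k, w (k + 1) = 1 / (N k : ℝ) ^ W k / 2)
    (hlo : ∀ k, α k ≤ ξ) (hhi : ∀ k, ξ ≤ α k + 2 * (1 / (N k : ℝ) ^ W k))
    (hpw : ∀ k, 2 / w k ≤ (p k : ℝ))
    (hcond : ∀ k, b ≤ k + 2 → h ≤ k + 1 → Cond b h (1 / ((k : ℝ) + 1)) (w k) (W k) (N k) (α k)) :
    Tendsto (fun M : ℕ => ‖∑ j ∈ Finset.range M, ee (h * (ξ * (b : ℝ) ^ j))‖ / M) atTop (𝓝 0) := by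
  have hb0 : (0 : ℝ) < b := by exact_mod_cast (by omega : 0 < b)
  have hb1 : (1 : ℝ) < b := by exact_mod_cast (by omega : 1 < b)
  obtain ⟨K0, hK0⟩ : ∃ K0 : ℕ, K0 = b + h + 1 := ⟨_, rfl⟩
  obtain ⟨L, hL⟩ : ∃ L : ℕ → ℕ, L = fun k => LL b (w k) := ⟨_, rfl⟩
  have hN1 : ∀ k, 1 ≤ N k := fun k => by have := hp k; have := hpN k; omega
  -- the index `L (k+1)` is almost covered
  have hcov : ∀ k, K0 ≤ k → 2 ≤ L (k + 1) ∧ b ^ (L (k + 1) - 2) ≤ N k ^ W k ∧
      2 * N k ^ W k ≤ b ^ L (k + 1) ∧ (b : ℝ) ^ (L (k + 1) - 1) ≤ 1 / w (k + 1) := by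
    intro k hk
    have hNW : 2 ≤ N k ^ W k := by
      calc 2 ≤ N k := (hp k).trans (hpN k)
        _ ≤ N k ^ W k := Nat.le_self_pow (by have := hW k; omega) _
    have hN0 : (0 : ℝ) < (N k : ℝ) ^ W k := by
      have : (0 : ℝ) < N k := by exact_mod_cast hN1 k
      positivity
    have e2 : 1 / w (k + 1) = ((2 * N k ^ W k : ℕ) : ℝ) := by
      rw [hwr]; push_cast; field_simp
    have e1 : ⌈1 / w (k + 1)⌉₊ = 2 * N k ^ W k := by
      rw [e2, Nat.ceil_natCast]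
    have e3 : L (k + 1) = Nat.clog b (2 * N k ^ W k) := by rw [hL]; unfold LL; simp only; rw [e1]
    have h2 : 2 * N k ^ W k ≤ b ^ L (k + 1) := by
      rw [e3]; exact Nat.le_pow_clog (by omega) _
    have h3 : b ^ (L (k + 1)).pred < 2 * N k ^ W k := by
      rw [e3]; exact Nat.pow_pred_clog_lt_self (by omega) (by omega)
    have hbN : b ≤ N k := by have := hkp k; have := hpN k; omega
    have h4 : b ^ 2 ≤ N k ^ W k := by
      calc b ^ 2 ≤ b ^ W k := Nat.pow_le_pow_right (by omega) (by have := hW k; omega)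
        _ ≤ N k ^ W k := Nat.pow_le_pow_left hbN _
    have h5 : b ^ 2 < b ^ L (k + 1) := by
      have : 0 < b ^ 2 := by positivity
      omega
    have h6 : 2 < L (k + 1) := (Nat.pow_lt_pow_iff_right (by omega)).1 h5
    have hpred : (L (k + 1)).pred = L (k + 1) - 1 := rfl
    rw [hpred] at h3
    refine ⟨h6.le, ?_, h2, ?_⟩
    · have h7 : b ^ (L (k + 1) - 1) = b * b ^ (L (k + 1) - 2) := by
        rw [← pow_succ']; congr 1; omega
      rw [h7] at h3
      have h8 : 2 * b ^ (L (k + 1) - 2) ≤ b * b ^ (L (k + 1) - 2) := Nat.mul_le_mul_right _ hb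
      omega
    · rw [e2]
      exact_mod_cast h3.le
  obtain ⟨K1, hK1⟩ : ∃ K1 : ℕ, K1 = K0 + 1 := ⟨_, rfl⟩
  have hL2 : ∀ k, K1 ≤ k → 2 ≤ L k := by
    intro k hk
    obtain ⟨j, rfl⟩ : ∃ j, k = j + 1 := ⟨k - 1, by omega⟩
    exact (hcov j (by omega)).1
  have hgrow : ∀ k, K1 ≤ k → 2 * L k ≤ L (k + 1) := by
    intro k hk
    obtain ⟨j, hj⟩ : ∃ j, k = j + 1 := ⟨k - 1, by omega⟩
    have h1 : (b : ℝ) ^ (L k - 1) ≤ 1 / w k := by rw [hj]; exact (hcov j (by omega)).2.2.2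
    have h2 := hpw k
    have h3 : (b : ℝ) ^ (L k - 1) ≤ p k := by
      have h4 : 1 / w k ≤ 2 / w k := by
        have := hw k
        gcongr
        norm_num
      linarith
    have h3' : b ^ (L k - 1) ≤ p k := by exact_mod_cast h3
    have hbp : b ≤ p k := by have := hkp k; omega
    have h5 : b ^ L k ≤ p k ^ 2 := by
      have := hL2 k hk
      calc b ^ L k = b * b ^ (L k - 1) := by rw [← pow_succ']; congr 1; omega
        _ ≤ p k * p k := Nat.mul_le_mul hbp h3'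
        _ = p k ^ 2 := by ring
    have h6 : b ^ (2 * L k) ≤ b ^ L (k + 1) := by
      calc b ^ (2 * L k) = (b ^ L k) ^ 2 := by rw [← pow_mul]; congr 1; ring
        _ ≤ (p k ^ 2) ^ 2 := Nat.pow_le_pow_left h5 2
        _ = p k ^ 4 := by rw [← pow_mul]
        _ ≤ N k ^ 4 := Nat.pow_le_pow_left (hpN k) 4
        _ ≤ N k ^ W k := Nat.pow_le_pow_right (hN1 k) (by have := hW k; omega)
        _ ≤ 2 * N k ^ W k := by omega
        _ ≤ b ^ L (k + 1) := (hcov k (by omega)).2.2.1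
    exact (Nat.pow_le_pow_iff_right (by omega)).1 h6
  have hLge : ∀ n, n ≤ L (K1 + n) := by
    intro n
    induction n with
    | zero => exact Nat.zero_le _
    | succ n ih =>
      have h1 := hgrow (K1 + n) (by omega)
      have h2 := hL2 (K1 + n) (by omega)
      rw [← Nat.add_assoc]
      omega
  have hLtop : Tendsto L atTop atTop := by
    rw [tendsto_atTop]
    intro B
    rw [eventually_atTop]
    refine ⟨K1 + B, fun k hk => ?_⟩
    have h1 := hLge (k - K1)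
    have e : K1 + (k - K1) = k := by omega
    rw [e] at h1
    omega
  obtain ⟨C, hC⟩ : ∃ C : ℝ, C = 14 * h + 2 := ⟨_, rfl⟩
  have hC0 : 0 ≤ C := by rw [hC]; positivity
  -- the main estimate
  have hmain : ∀ k, K1 ≤ k → ∀ M, L k ≤ M → M ≤ L (k + 1) →
      ‖WS b h ξ (L k) M‖ ≤ 4 / ((k : ℝ) + 1) * M + C := by
    intro k hk M hM1 hM2
    have hg := hgrow k hk
    have hl := hL2 k hk
    obtain ⟨M', hM'⟩ : ∃ M', M' = min M (L (k + 1) - 2) := ⟨_, rfl⟩
    have h1 : L k ≤ M' := by omega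
    have h2 : M' ≤ M := by omega
    have h3 : M - M' ≤ 2 := by omega
    obtain ⟨_, hc2, _, _⟩ := hcov k (by omega)
    have h4 : b ^ M' ≤ N k ^ W k :=
      (Nat.pow_le_pow_right (by omega) (by omega)).trans hc2
    have hN0 : (0 : ℝ) < (N k : ℝ) ^ W k := by
      have : (0 : ℝ) < N k := by exact_mod_cast hN1 k
      positivity
    have h5 := hcond k (by omega) (by omega) M' (by rw [hL] at h1; exact h1) h4
    have e : LL b (w k) = L k := by rw [hL]
    rw [e] at h5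
    have h6 := WS_close b h hb ξ (α k) (2 * (1 / (N k : ℝ) ^ W k)) (by
      rw [abs_of_nonneg (by linarith [hlo k])]
      linarith [hhi k]) (L k) M'
    have h7 : 7 * (h : ℝ) * (2 * (1 / (N k : ℝ) ^ W k)) * (b : ℝ) ^ M' ≤ 14 * h := by
      have h8 : (b : ℝ) ^ M' ≤ (N k : ℝ) ^ W k := by exact_mod_cast h4
      calc 7 * (h : ℝ) * (2 * (1 / (N k : ℝ) ^ W k)) * (b : ℝ) ^ M'
          ≤ 7 * (h : ℝ) * (2 * (1 / (N k : ℝ) ^ W k)) * (N k : ℝ) ^ W k := by gcongr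
        _ = 14 * h := by field_simp; ring
    have h9 := WS_norm_le b h ξ M' M
    have h10 : ((M - M' : ℕ) : ℝ) ≤ 2 := by exact_mod_cast h3
    rw [WS_add b h ξ (L k) M' M h1 h2]
    have h11 := norm_add_le (WS b h ξ (L k) M') (WS b h ξ M' M)
    have h12 : 4 * (1 / ((k : ℝ) + 1)) * (M' : ℝ) ≤ 4 / ((k : ℝ) + 1) * M := by
      have : (M' : ℝ) ≤ M := by exact_mod_cast h2
      calc 4 * (1 / ((k : ℝ) + 1)) * (M' : ℝ) = 4 / ((k : ℝ) + 1) * M' := by ring
        _ ≤ _ := by gcongr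
    rw [hC]
    linarith
  -- the values at the indices `L k`
  obtain ⟨D, hD⟩ : ∃ D : ℕ → ℝ, D = fun k => ‖WS b h ξ 0 (L k)‖ / L k := ⟨_, rfl⟩
  obtain ⟨δ, hδ⟩ : ∃ δ : ℕ → ℝ, δ = fun k : ℕ => 4 / ((k : ℝ) + 1) + C / L (k + 1) := ⟨_, rfl⟩
  have h4k : Tendsto (fun k : ℕ => 4 / ((k : ℝ) + 1)) atTop (𝓝 0) := by
    have h1 : Tendsto (fun k : ℕ => (k : ℝ) + 1) atTop atTop :=
      tendsto_atTop_add_const_right _ _ tendsto_natCast_atTop_atTop
    exact h1.const_div_atTop 4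
  have hCL : Tendsto (fun k : ℕ => C / (L k : ℝ)) atTop (𝓝 0) := by
    have h1 : Tendsto (fun k : ℕ => (L k : ℝ)) atTop atTop :=
      tendsto_natCast_atTop_atTop.comp hLtop
    exact h1.const_div_atTop C
  have hδ0 : Tendsto δ atTop (𝓝 0) := by
    rw [hδ]
    have h1 := (tendsto_add_atTop_iff_nat (f := fun k : ℕ => C / (L k : ℝ)) 1).2 hCL
    have := h4k.add h1
    rw [add_zero] at this
    exact this
  have hD0 : Tendsto D atTop (𝓝 0) := by
    apply half_rec D δ K1 (fun k => by rw [hD]; positivity) _ hδ0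
    intro k hk
    have h1 := hmain k hk (L (k + 1)) (by have := hgrow k hk; omega) le_rfl
    have hg := hgrow k hk
    have hl := hL2 k hk
    have hLk : (0 : ℝ) < L k := by exact_mod_cast (by omega : 0 < L k)
    have hLk1 : (0 : ℝ) < L (k + 1) := by exact_mod_cast (by omega : 0 < L (k + 1))
    have h2 := WS_add b h ξ 0 (L k) (L (k + 1)) (Nat.zero_le _) (by omega)
    have h3 := norm_add_le (WS b h ξ 0 (L k)) (WS b h ξ (L k) (L (k + 1)))
    rw [← h2] at h3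
    rw [hD, hδ]
    simp only
    have h4 : ‖WS b h ξ 0 (L (k + 1))‖ / (L (k + 1) : ℝ) ≤
        ‖WS b h ξ 0 (L k)‖ / (L (k + 1) : ℝ) +
          (4 / ((k : ℝ) + 1) * L (k + 1) + C) / (L (k + 1) : ℝ) := by
      rw [← add_div]
      gcongr
      linarith
    have h5 : ‖WS b h ξ 0 (L k)‖ / (L (k + 1) : ℝ) ≤ ‖WS b h ξ 0 (L k)‖ / L k / 2 := by
      rw [div_div]
      gcongr
      have : ((2 * L k : ℕ) : ℝ) ≤ L (k + 1) := by exact_mod_cast hg
      push_cast at this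
      linarith
    have h6 : (4 / ((k : ℝ) + 1) * L (k + 1) + C) / (L (k + 1) : ℝ) =
        4 / ((k : ℝ) + 1) + C / L (k + 1) := by
      field_simp
    rw [h6] at h4
    linarith
  -- conclusion
  have hE : Tendsto (fun k : ℕ => D k + (4 / ((k : ℝ) + 1) + C / (L k : ℝ))) atTop (𝓝 0) := by
    have := hD0.add (h4k.add hCL)
    simpa using this
  rw [Metric.tendsto_atTop]
  intro ε hε
  obtain ⟨K2, hK2⟩ := eventually_atTop.1 (hE.eventually_lt_const hε)
  obtain ⟨K, hK⟩ : ∃ K, K = max K1 K2 := ⟨_, rfl⟩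
  have hKK1 : K1 ≤ K := by rw [hK]; exact le_max_left _ _
  have hKK2 : K2 ≤ K := by rw [hK]; exact le_max_right _ _
  refine ⟨L K, fun M hM => ?_⟩
  -- locate `M`
  have hex : ∃ n, M < L (K + n) := by
    refine ⟨M + 1, ?_⟩
    have h1 := hLge (K - K1 + (M + 1))
    have e : K1 + (K - K1 + (M + 1)) = K + (M + 1) := by omega
    rw [e] at h1
    omega
  obtain ⟨n, hn⟩ : ∃ n, n = Nat.find hex := ⟨_, rfl⟩
  have hn1 : M < L (K + n) := by rw [hn]; exact Nat.find_spec hex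
  have hn0 : n ≠ 0 := by
    rintro rfl
    rw [Nat.add_zero] at hn1
    omega
  have hn2 : L (K + (n - 1)) ≤ M := by
    have := Nat.find_min hex (m := n - 1) (by omega)
    omega
  obtain ⟨k, hk⟩ : ∃ k, k = K + (n - 1) := ⟨_, rfl⟩
  have hk1 : k + 1 = K + n := by omega
  rw [← hk] at hn2
  rw [← hk1] at hn1
  have hkK1 : K1 ≤ k := by omega
  have h1 := hmain k hkK1 M hn2 hn1.le
  have hl := hL2 k hkK1
  have hLk : (0 : ℝ) < L k := by exact_mod_cast (by omega : 0 < L k)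
  have hLM : (L k : ℝ) ≤ M := by exact_mod_cast hn2
  have hM0 : (0 : ℝ) < M := by linarith
  have h2 := WS_add b h ξ 0 (L k) M (Nat.zero_le _) hn2
  have h3 := norm_add_le (WS b h ξ 0 (L k)) (WS b h ξ (L k) M)
  rw [← h2] at h3
  have e0 : ∑ j ∈ Finset.range M, ee (h * (ξ * (b : ℝ) ^ j)) = WS b h ξ 0 M := by
    unfold WS; rw [Finset.range_eq_Ico]
  rw [e0, Real.dist_eq, sub_zero, abs_of_nonneg (by positivity)]
  have h4 := hK2 k (by omega)
  refine lt_of_le_of_lt ?_ h4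
  rw [hD]
  simp only
  have h5 : ‖WS b h ξ 0 M‖ / (M : ℝ) ≤ ‖WS b h ξ 0 (L k)‖ / (M : ℝ) +
      (4 / ((k : ℝ) + 1) * M + C) / (M : ℝ) := by
    rw [← add_div]
    gcongr
    linarith
  have h6 : ‖WS b h ξ 0 (L k)‖ / (M : ℝ) ≤ ‖WS b h ξ 0 (L k)‖ / L k := by gcongr
  have h7 : (4 / ((k : ℝ) + 1) * M + C) / (M : ℝ) = 4 / ((k : ℝ) + 1) + C / M := by
    field_simp
  have h8 : C / (M : ℝ) ≤ C / L k := by gcongr
  rw [h7] at h5
  linarith

end Pool.Agent.H493R3
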