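import Mathlib
import Pool.Agent.H493R3.ConstrTW
import Pool.Agent.H493R3.Chain
import Pool.Agent.Helper35.TFinal

set_option autoImplicit false

namespace Pool.Agent.H493R3

open Polynomial Pool.Agent.Helper35 Filter Topology

/-- The general existence theorem: approximation exponents `V j` in degree `j + 1`. -/
theorem mainTW (V : ℕ → ℕ) (hV : ∀ j, 22 ≤ V j) :
    ∃ ξ : ℝ, 0 ≤ ξ ∧ ξ ≤ 1 ∧
      (∀ n E : ℕ, 40 * (n + 1) ≤ E → (∀ j, j < n → V j ≤ E) →
        ∃ c : ℝ, 0 < c ∧ ∀ P : ℤ[X], P ≠ 0 → P.natDegree ≤ n → c ≤ |aeval ξ P| * (ht P : ℝ) ^ E) ∧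
      (∀ (j : ℕ) (v : ℝ), v < (V j : ℝ) - 1 → v ∈ WSet ξ (j + 1)) ∧
      (∀ b h : ℕ, 2 ≤ b → 1 ≤ h →
        Tendsto (fun M : ℕ => ‖∑ j ∈ Finset.range M, ee (h * (ξ * (b : ℝ) ^ j))‖ / M)
          atTop (𝓝 0)) := by
  classical
  -- local constants
  choose c Cu η0 hc hCu hη0 hloc using fun j => theta_local (TD j)
  set e : ℕ → ℕ := fun k => (Nat.unpair k).1 with he
  have heK : ∀ j K : ℕ, ∃ k, K ≤ k ∧ e k = j := by
    intro j K
    refine ⟨Nat.pair j K, Nat.right_le_pair j K, ?_⟩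
    simp [he]
  obtain ⟨ξ, p, n, w, hξ0, hξ1, hw, hp, hpM, hn, hlead, hwr, hrw, hlo, hhi, hgood, hcond⟩ :=
    constrTW (fun k => e k + 1) (fun k => TD (e k)) (fun k => (e k + 1) * V (e k))
      (fun k => k + ⌈1 / c (e k)⌉₊ + ⌈2 / η0 (e k)⌉₊)
      (fun k => by
        have := hV (e k)
        calc 22 ≤ V (e k) := this
          _ ≤ (e k + 1) * V (e k) := Nat.le_mul_of_pos_left _ (by omega))
  -- abbreviations
  set N : ℕ → ℕ := fun k => (p k) ^ EA k with hN
  have hEA : ∀ k, 1 ≤ EA k := fun k => by unfold EA; omega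
  have hN1 : ∀ k, (1 : ℝ) ≤ N k := by
    intro k
    have : 1 ≤ N k := Nat.one_le_iff_ne_zero.mpr (pow_ne_zero _ (hp k).ne_zero)
    exact_mod_cast this
  have hpN : ∀ k, (p k : ℝ) ≤ N k := by
    intro k
    have : p k ≤ N k := Nat.le_self_pow (by have := hEA k; omega) _
    exact_mod_cast this
  have hkp : ∀ k : ℕ, (k : ℝ) ≤ p k := by
    intro k
    exact_mod_cast (by have := hpM k; omega)
  have hcN : ∀ k, 1 ≤ c (e k) * (N k : ℝ) := by
    intro k
    have h1 : 1 / c (e k) ≤ p k := (Nat.le_ceil _).trans (by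
      exact_mod_cast (by have := hpM k; omega))
    have h2 := h1.trans (hpN k)
    rw [div_le_iff₀ (hc _)] at h2
    linarith
  set r : ℕ → ℝ := fun k => 1 / (N k : ℝ) ^ ((e k + 1) * V (e k)) with hr
  have hrpos : ∀ k, 0 < r k := by
    intro k
    have := hN1 k
    simp only [hr]
    positivity
  have hWpos : ∀ k, (e k + 1) * V (e k) ≠ 0 := by
    intro k
    have := hV (e k)
    exact Nat.mul_ne_zero (by omega) (by omega)
  have hη : ∀ k, 2 * r k ≤ η0 (e k) := by
    intro k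
    have h1 : 2 / η0 (e k) ≤ p k := (Nat.le_ceil _).trans (by
      exact_mod_cast (by have := hpM k; omega))
    have h2 := h1.trans (hpN k)
    rw [div_le_iff₀ (hη0 _)] at h2
    have h3 : (N k : ℝ) ≤ (N k : ℝ) ^ ((e k + 1) * V (e k)) := le_self_pow₀ (hN1 k) (hWpos k)
    have h4 := hN1 k
    have h5 := hη0 (e k)
    simp only [hr]
    rw [mul_one_div, div_le_iff₀ (by positivity)]
    nlinarith
  have hgoal3 : ∀ b h : ℕ, 2 ≤ b → 1 ≤ h →
      Tendsto (fun M : ℕ => ‖∑ j ∈ Finset.range M, ee (h * (ξ * (b : ℝ) ^ j))‖ / M)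
        atTop (𝓝 0) := by
    intro b h hb h0
    · refine weyl_of_chain b h hb ξ w
        (fun k => (TD (e k)).θ + (n k : ℝ) / (N k : ℝ)) N (fun k => (e k + 1) * V (e k)) p hw
        (fun k => (hp k).two_le) (fun k => by exact_mod_cast hkp k)
        (fun k => by exact_mod_cast hpN k) (fun k => by
          have := hV (e k)
          calc 22 ≤ V (e k) := this
            _ ≤ (e k + 1) * V (e k) := Nat.le_mul_of_pos_left _ (by omega))
        (fun k => hwr k) (fun k => ?_) (fun k => hhi k) (fun k => (hcond k).2)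
        (fun k hk1 hk2 => (hcond k).1 b h hb hk1 h0 hk2)
      have h1 := hlo k
      have h2 := hrpos k
      simp only [hr] at h2
      linarith
  refine ⟨ξ, hξ0, hξ1, ?_, ?_, hgoal3⟩
  · intro n' E hE1 hE2
    apply general_bound
    intro m hm hmn
    obtain ⟨H0, hH0⟩ := irr_main hξ1 hw hrpos (fun k => hwr k) (fun k => hrw k)
      (fun k => hlo k) (fun k => hhi k) (fun k => hgood k) m m le_rfl
    refine ⟨H0, fun P hP hPd hH => ?_⟩
    have hHr : (1 : ℝ) ≤ ht P := by exact_mod_cast ht_pos hP.ne_zero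
    rcases hH0 P hP hPd hH with ⟨k, g, _, hg, hPg⟩ | h
    · have h1 := special_lower (TD (e k)) (c (e k)) (Cu (e k)) (η0 (e k)) (hc _) (hloc _)
        (p k) (EA k) (hp k) (hEA k) (n k) (hn k) (hlead k) (V (e k)) (by omega) (hcN k) ξ (r k)
        rfl (hη k) (hlo k) (hhi k) g hg
      rw [← hPg] at h1
      have hdeg : P.natDegree = e k + 1 := by
        rw [hPg, natDegree_C_mul hg]
        exact (SP_props (TD (e k)) (p k) (EA k) (hp k) (hEA k) (n k) (hn k) (hlead k)).2.2.1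
      have h2 : V (e k) ≤ E := hE2 _ (by omega)
      refine h1.trans ?_
      have h3 := pow_le_pow_right₀ hHr h2
      gcongr
    · refine h.trans ?_
      have h3 : (ht P : ℝ) ^ (40 * (m + 1)) ≤ (ht P : ℝ) ^ E :=
        pow_le_pow_right₀ hHr (le_trans (by omega) hE1)
      gcongr
  · intro j v hv
    unfold WSet
    -- infinitely many stages of degree j + 1
    set Ch : ℝ := ((((j + 1 : ℕ) : ℝ) + 1) * ht (TD j).T * 3 ^ (j + 1)) with hCh
    have hhtT : (1 : ℝ) ≤ ht (TD j).T := by exact_mod_cast ht_pos (TD j).irr.ne_zero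
    have hCh1 : 1 ≤ Ch := by
      rw [hCh]
      have h1 : (1 : ℝ) ≤ 3 ^ (j + 1) := one_le_pow₀ (by norm_num)
      have h2 : (1 : ℝ) ≤ ((j + 1 : ℕ) : ℝ) + 1 := by
        have : (0 : ℝ) ≤ ((j + 1 : ℕ) : ℝ) := by positivity
        linarith
      calc (1 : ℝ) = 1 * 1 * 1 := by norm_num
        _ ≤ _ := by gcongr
    set v' : ℝ := max v 0 with hv'
    have hv'0 : 0 ≤ v' := le_max_right _ _
    have hVj := hV j
    have hVr : (22 : ℝ) ≤ V j := by exact_mod_cast hVj
    have hv'1 : v' < V j - 1 := max_lt hv (by linarith)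
    have hlim : Filter.Tendsto (fun H : ℕ => (H : ℝ) ^ ((V j : ℝ) - 1 - v')) Filter.atTop
        Filter.atTop := (tendsto_rpow_atTop (by linarith)).comp tendsto_natCast_atTop_atTop
    obtain ⟨H1, hH1⟩ := Filter.eventually_atTop.mp
      (hlim.eventually_ge_atTop (2 * Cu j * Ch ^ v'))
    -- suppose finite
    intro hfin
    set St := {P : ℤ[X] | P ≠ 0 ∧ P.natDegree ≤ j + 1 ∧ 0 < |aeval ξ P| ∧
      |aeval ξ P| ≤ (ht P : ℝ) ^ (-v)} with hSt
    obtain ⟨B, hB⟩ : ∃ B : ℕ, ∀ P ∈ St, ht P ≤ B := by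
      have := hfin.image ht
      obtain ⟨B, hB⟩ := this.bddAbove
      exact ⟨B, fun P hP => hB ⟨P, hP, rfl⟩⟩
    obtain ⟨k, hkK, hek⟩ := heK j (H1 + B + 1)
    have hj1 : 1 ≤ j + 1 := by omega
    obtain ⟨_, _, hdegS, _, _⟩ := SP_props (TD (e k)) (p k) (EA k) (hp k) (hEA k) (n k) (hn k)
      (hlead k)
    have hpos := special_upper (TD (e k)) (c (e k)) (Cu (e k)) (η0 (e k)) (hc _) (hloc _)
      (p k) (EA k) (hp k) (hEA k) (n k) (hn k) (hlead k) (V (e k)) ξ (r k)
      rfl (hη k) (hlo k) (hhi k)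
    obtain ⟨hpos1, hpos2⟩ := hpos
    have hα1 : |(TD (e k)).θ + (n k : ℝ) / (N k : ℝ)| ≤ 1 := by
      have h1 : (TD (e k)).θ + (n k : ℝ) / (N k : ℝ) + r k ≤ ξ := hlo k
      have h2 : ξ ≤ (TD (e k)).θ + (n k : ℝ) / (N k : ℝ) + 2 * r k := hhi k
      have h3 := hrpos k
      have h4 : r k ≤ 1 / 2 := by
        simp only [hr]
        rw [div_le_div_iff₀ (by have := hN1 k; positivity) (by norm_num)]
        have h5 : (2 : ℝ) ≤ p k := by exact_mod_cast (hp k).two_le
        have h6 : (N k : ℝ) ≤ (N k : ℝ) ^ ((e k + 1) * V (e k)) := le_self_pow₀ (hN1 k) (hWpos k)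
        have := hpN k
        linarith
      rw [abs_le]
      constructor <;> linarith
    have hN1k : 1 ≤ N k := Nat.one_le_iff_ne_zero.mpr (pow_ne_zero _ (hp k).ne_zero)
    have hup := ht_SP_upper (TD (e k)) (N k) hN1k (n k) hα1
    have hlow := ht_SP_lower (TD (e k)) (N k) hN1k (n k)
    set S := SP (TD (e k)).T ((p k) ^ EA k) (n k) with hS
    change (ht S : ℝ) ≤ _ at hup
    change N k ^ (e k + 1) ≤ ht S at hlow
    have hkN : k ≤ N k := by
      have h1 := (hkp k).trans (hpN k)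
      exact_mod_cast h1
    have hhtS : B < ht S := by
      calc B < k := by omega
        _ ≤ N k := hkN
        _ ≤ N k ^ (e k + 1) := Nat.le_self_pow (by omega) _
        _ ≤ ht S := hlow
    have hSne : S ≠ 0 := by
      intro h0
      rw [h0] at hhtS
      simp [ht] at hhtS
    have hmem : S ∈ St := by
      refine ⟨hSne, ?_, hpos1, ?_⟩
      · rw [hdegS, hek]
      · have hhtS1 : (1 : ℝ) ≤ ht S := by exact_mod_cast ht_pos hSne
        have h1 : (ht S : ℝ) ^ (-v') ≤ (ht S : ℝ) ^ (-v) := by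
          apply Real.rpow_le_rpow_of_exponent_le hhtS1
          have := le_max_left v 0
          linarith
        refine le_trans ?_ h1
        -- |S(ξ)| ≤ 2 Cu N^(d(1-V)) ≤ (Ch N^d)^(-v')
        have hN0 : (0 : ℝ) < N k := by have := hN1 k; linarith
        rw [hek] at hup hpos2
        change |aeval ξ S| * (N k : ℝ) ^ ((j + 1) * V j) ≤ 2 * Cu j * (N k : ℝ) ^ (j + 1) at hpos2
        change (ht S : ℝ) ≤ Ch * (N k : ℝ) ^ (j + 1) at hup
        have h2 : (Ch * (N k : ℝ) ^ (j + 1)) ^ (-v') ≤ (ht S : ℝ) ^ (-v') :=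
          Real.rpow_le_rpow_of_nonpos (by linarith) hup (by linarith)
        refine le_trans ?_ h2
        set Z : ℝ := (N k : ℝ) ^ (j + 1) with hZ
        have hZ0 : 0 < Z := by positivity
        have hZ1 : 1 ≤ Z := one_le_pow₀ (hN1 k)
        have h3 : (N k : ℝ) ^ ((j + 1) * V j) = Z ^ V j := by rw [hZ, pow_mul]
        rw [h3] at hpos2
        have h4 : |aeval ξ S| ≤ 2 * Cu j * Z / Z ^ V j := by
          rw [le_div_iff₀ (by positivity)]; exact hpos2
        refine h4.trans ?_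
        have h5 : 2 * Cu j * Ch ^ v' ≤ Z ^ ((V j : ℝ) - 1 - v') := by
          have h6 := hH1 (N k) (by omega)
          refine h6.trans ?_
          apply Real.rpow_le_rpow hN0.le _ (by linarith)
          rw [hZ]
          exact le_self_pow₀ (hN1 k) (by omega)
        rw [Real.mul_rpow (by linarith) hZ0.le, Real.rpow_neg (by linarith : (0 : ℝ) ≤ Ch),
          Real.rpow_neg hZ0.le]
        have h7 : Z ^ ((V j : ℝ) - 1 - v') = Z ^ V j / Z / Z ^ v' := by
          rw [Real.rpow_sub hZ0, Real.rpow_sub hZ0, Real.rpow_one, Real.rpow_natCast]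
        rw [h7] at h5
        have hChv : 0 < Ch ^ v' := by positivity
        have hZv : 0 < Z ^ v' := by positivity
        have hZV : 0 < Z ^ V j := by positivity
        rw [div_le_iff₀ hZV, ← mul_inv, ← one_div, div_mul_eq_mul_div, one_mul,
          le_div_iff₀ (by positivity)]
        rw [le_div_iff₀ hZv, le_div_iff₀ hZ0] at h5
        calc 2 * Cu j * Z * (Ch ^ v' * Z ^ v') = 2 * Cu j * Ch ^ v' * Z ^ v' * Z := by ring
          _ ≤ Z ^ V j := h5
    have := hB S hmem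
    omega

end Pool.Agent.H493R3
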