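import Mathlib

set_option autoImplicit false

namespace Pool.Agent.H493R3.GG

open Set

theorem orbit {s : ℕ → ℝ} {a : ℕ → ℕ} (h0 : ∀ j, 0 < s j) (h1 : ∀ j, s j < 1)
    (h : ∀ j, 1 / s j = a j + s (j + 1)) (j : ℕ) :
    (fun y : ℝ => Int.fract (1 / y))^[j] (s 0) = s j := by
  induction j with
  | zero => rfl
  | succ n ih =>
    rw [Function.iterate_succ_apply', ih]
    show Int.fract (1 / s n) = s (n + 1)
    rw [h n, Int.fract_natCast_add]
    exact Int.fract_eq_self.2 ⟨(h0 _).le, h1 _⟩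

theorem orbit_floor {s : ℕ → ℝ} {a : ℕ → ℕ} (h0 : ∀ j, 0 < s j) (h1 : ∀ j, s j < 1)
    (h : ∀ j, 1 / s j = a j + s (j + 1)) (j : ℕ) :
    ⌊1 / ((fun y : ℝ => Int.fract (1 / y))^[j] (s 0))⌋ = (a j : ℤ) := by
  rw [orbit h0 h1 h j, h j, Int.floor_natCast_add]
  have : ⌊s (j + 1)⌋ = 0 := Int.floor_eq_zero_iff.2 ⟨(h0 _).le, h1 _⟩
  omega

/-- nested sets -/
def K : ℕ → (ℕ → ℕ) → Set ℝ
  | 0, _ => Icc 0 1
  | n + 1, a => (fun t : ℝ => 1 / ((a 0 : ℝ) + t)) '' K n (fun i => a (i + 1))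

theorem K_sub : ∀ (n : ℕ) (a : ℕ → ℕ), (∀ i, 1 ≤ a i) → K n a ⊆ Icc 0 1 := by
  intro n
  induction n with
  | zero => intro a _; exact subset_rfl
  | succ n ih =>
    intro a ha x hx
    obtain ⟨t, ht, rfl⟩ := hx
    have h1 := ih (fun i => a (i + 1)) (fun i => ha _) ht
    have h2 : (1 : ℝ) ≤ a 0 := by exact_mod_cast ha 0
    simp only [mem_Icc] at h1 ⊢
    constructor
    · have := h1.1; positivity
    · rw [div_le_one (by linarith [h1.1])]; linarith [h1.1]

theorem K_compact : ∀ (n : ℕ) (a : ℕ → ℕ), (∀ i, 1 ≤ a i) → IsCompact (K n a) := by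
  intro n
  induction n with
  | zero => intro a _; exact isCompact_Icc
  | succ n ih =>
    intro a ha
    refine (ih (fun i => a (i + 1)) (fun i => ha _)).image_of_continuousOn ?_
    refine ContinuousOn.div continuousOn_const (by fun_prop) ?_
    intro t ht
    have h1 := K_sub n (fun i => a (i + 1)) (fun i => ha _) ht
    have h2 : (1 : ℝ) ≤ a 0 := by exact_mod_cast ha 0
    simp only [mem_Icc] at h1
    linarith [h1.1]

theorem K_ne : ∀ (n : ℕ) (a : ℕ → ℕ), (∀ i, 1 ≤ a i) → (K n a).Nonempty := by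
  intro n
  induction n with
  | zero => intro a _; exact ⟨0, by simp [K]⟩
  | succ n ih => intro a ha; exact (ih (fun i => a (i + 1)) (fun i => ha _)).image _

theorem K_anti : ∀ (n : ℕ) (a : ℕ → ℕ), (∀ i, 1 ≤ a i) → K (n + 1) a ⊆ K n a := by
  intro n
  induction n with
  | zero => intro a ha; exact K_sub 1 a ha
  | succ n ih => intro a ha; exact image_mono (ih (fun i => a (i + 1)) (fun i => ha _))

theorem exists_mem (a : ℕ → ℕ) (ha : ∀ i, 1 ≤ a i) : ∃ g, ∀ n, g ∈ K n a := by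
  have := IsCompact.nonempty_iInter_of_sequence_nonempty_isCompact_isClosed (fun n => K n a)
    (fun n => K_anti n a ha) (fun n => K_ne n a ha) (K_compact 0 a ha)
    (fun n => (K_compact n a ha).isClosed)
  obtain ⟨g, hg⟩ := this
  exact ⟨g, fun n => mem_iInter.1 hg n⟩

theorem unroll (a : ℕ → ℕ) (ha : ∀ i, 1 ≤ a i) (g : ℝ) (hg : ∀ n, g ∈ K n a) :
    0 < g ∧ ∀ n, 1 / g - a 0 ∈ K n (fun i => a (i + 1)) := by
  have h2 : (1 : ℝ) ≤ a 0 := by exact_mod_cast ha 0
  have key : ∀ n, 0 < g ∧ 1 / g - a 0 ∈ K n (fun i => a (i + 1)) := by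
    intro n
    obtain ⟨t, ht, hgt⟩ := hg (n + 1)
    have h1 := K_sub n (fun i => a (i + 1)) (fun i => ha _) ht
    simp only [mem_Icc] at h1
    have hpos : 0 < (a 0 : ℝ) + t := by linarith [h1.1]
    have hgt' : g = 1 / ((a 0 : ℝ) + t) := hgt.symm
    refine ⟨by rw [hgt']; positivity, ?_⟩
    have : 1 / g - a 0 = t := by rw [hgt', one_div_one_div]; ring
    rw [this]; exact ht
  exact ⟨(key 0).1, fun n => (key n).2⟩

theorem exists_orbit (a : ℕ → ℕ) (ha : ∀ i, 1 ≤ a i) :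
    ∃ s : ℕ → ℝ, (∀ j, 0 < s j) ∧ (∀ j, s j < 1) ∧ ∀ j, 1 / s j = a j + s (j + 1) := by
  obtain ⟨g, hg⟩ := exists_mem a ha
  let s : ℕ → ℝ := fun n => Nat.rec g (fun k r => 1 / r - a k) n
  have hs0 : s 0 = g := rfl
  have hs1 : ∀ k, s (k + 1) = 1 / s k - a k := fun k => rfl
  have hmem : ∀ j, ∀ n, s j ∈ K n (fun i => a (j + i)) := by
    intro j
    induction j with
    | zero => intro n; simpa [hs0] using hg n
    | succ j ih =>
      intro n
      have := (unroll (fun i => a (j + i)) (fun i => ha _) (s j) ih).2 n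
      rw [hs1]
      have e : (fun i => a (j + 1 + i)) = (fun i => a (j + (i + 1))) := by
        funext i; congr 1; omega
      rw [e]
      simpa using this
  have hpos : ∀ j, 0 < s j := fun j => (unroll (fun i => a (j + i)) (fun i => ha _) (s j) (hmem j)).1
  have heq : ∀ j, 1 / s j = a j + s (j + 1) := fun j => by rw [hs1]; ring
  refine ⟨s, hpos, ?_, heq⟩
  intro j
  have h1 : (1 : ℝ) < 1 / s j := by
    rw [heq]
    have h2 : (1 : ℝ) ≤ a j := by exact_mod_cast ha j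
    linarith [hpos (j + 1)]
  rw [lt_div_iff₀ (hpos j)] at h1
  linarith

end Pool.Agent.H493R3.GG
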