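import Pool.Agent.H493R3.GGa

set_option autoImplicit false

namespace Pool.Agent.H493R3.GG

open Set

/-- value of the finite continued fraction with a tail -/
noncomputable def cf (l : List ℕ) (t : ℝ) : ℝ := l.foldr (fun a s => 1 / ((a : ℝ) + s)) t

/-- last two denominators -/
def qq (l : List ℕ) : ℕ × ℕ := l.foldl (fun z a => (a * z.1 + z.2, z.1)) (1, 0)

/-- last two numerators -/
def pp (l : List ℕ) : ℕ × ℕ := l.foldl (fun z a => (a * z.1 + z.2, z.1)) (0, 1)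

theorem cf_nil (t : ℝ) : cf [] t = t := rfl

theorem cf_cons (a : ℕ) (l : List ℕ) (t : ℝ) : cf (a :: l) t = 1 / ((a : ℝ) + cf l t) := rfl

theorem cf_snoc (l : List ℕ) (a : ℕ) (t : ℝ) : cf (l ++ [a]) t = cf l (1 / ((a : ℝ) + t)) := by
  simp [cf, List.foldr_append]

theorem qq_nil : qq [] = (1, 0) := rfl
theorem pp_nil : pp [] = (0, 1) := rfl

theorem qq_snoc (l : List ℕ) (a : ℕ) : qq (l ++ [a]) = (a * (qq l).1 + (qq l).2, (qq l).1) := by
  simp [qq, List.foldl_append]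

theorem pp_snoc (l : List ℕ) (a : ℕ) : pp (l ++ [a]) = (a * (pp l).1 + (pp l).2, (pp l).1) := by
  simp [pp, List.foldl_append]

/-- all entries positive -/
def Pos (l : List ℕ) : Prop := ∀ a ∈ l, 1 ≤ a

theorem Pos.snoc {l : List ℕ} {a : ℕ} (h : Pos l) (ha : 1 ≤ a) : Pos (l ++ [a]) := by
  intro b hb
  rcases List.mem_append.1 hb with h1 | h1
  · exact h b h1
  · rw [List.mem_singleton.1 h1]; exact ha

theorem Pos.of_snoc {l : List ℕ} {a : ℕ} (h : Pos (l ++ [a])) : Pos l ∧ 1 ≤ a :=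
  ⟨fun b hb => h b (by simp [hb]), h a (by simp)⟩

theorem q_props (l : List ℕ) (h : Pos l) : 1 ≤ (qq l).1 ∧ (qq l).2 ≤ (qq l).1 ∧
    (l ≠ [] → 1 ≤ (qq l).2) ∧ l.length ≤ (qq l).1 := by
  induction l using List.reverseRecOn with
  | nil => simp [qq_nil]
  | append_singleton l a ih =>
    obtain ⟨h1, h2⟩ := h.of_snoc
    obtain ⟨i1, i2, i3, i4⟩ := ih h1
    rw [qq_snoc]
    simp only [List.length_append, List.length_cons, List.length_nil]
    have hmul : (qq l).1 ≤ a * (qq l).1 := Nat.le_mul_of_pos_left _ h2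
    refine ⟨by omega, by omega, fun _ => i1, ?_⟩
    by_cases hl : l = []
    · subst hl; simp at *; omega
    · have := i3 hl; omega

theorem det_eq (l : List ℕ) : ((pp l).2 : ℝ) * (qq l).1 - (pp l).1 * (qq l).2 = (-1) ^ l.length := by
  induction l using List.reverseRecOn with
  | nil => simp [qq_nil, pp_nil]
  | append_singleton l a ih =>
    rw [qq_snoc, pp_snoc]
    simp only [List.length_append, List.length_cons, List.length_nil, zero_add, pow_succ, ← ih]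
    push_cast
    ring

theorem cf_eq (l : List ℕ) (h : Pos l) (t : ℝ) (ht : 0 ≤ t) :
    cf l t = ((pp l).1 + t * (pp l).2) / ((qq l).1 + t * (qq l).2) := by
  induction l using List.reverseRecOn generalizing t with
  | nil => simp [qq_nil, pp_nil, cf_nil]
  | append_singleton l a ih =>
    obtain ⟨h1, h2⟩ := h.of_snoc
    have ha : (1 : ℝ) ≤ a := by exact_mod_cast h2
    have hat : 0 < (a : ℝ) + t := by linarith
    rw [cf_snoc, ih h1 _ (by positivity), qq_snoc, pp_snoc]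
    have hq : (1 : ℝ) ≤ (qq l).1 := by exact_mod_cast (q_props l h1).1
    have hq' : (0 : ℝ) ≤ (qq l).2 := Nat.cast_nonneg _
    push_cast
    have d1 : 0 < ((qq l).1 : ℝ) + 1 / ((a : ℝ) + t) * (qq l).2 := by positivity
    have d2 : 0 < (a : ℝ) * (qq l).1 + (qq l).2 + t * (qq l).1 := by positivity
    rw [div_eq_div_iff d1.ne' d2.ne']
    field_simp
    ring

theorem cf_sub (l : List ℕ) (h : Pos l) (t : ℝ) (ht : 0 ≤ t) :
    cf l t - cf l 0 = (-1) ^ l.length * t / ((qq l).1 * ((qq l).1 + t * (qq l).2)) := by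
  rw [cf_eq l h t ht, cf_eq l h 0 le_rfl, ← det_eq l]
  have hq : (1 : ℝ) ≤ (qq l).1 := by exact_mod_cast (q_props l h).1
  have hq' : (0 : ℝ) ≤ (qq l).2 := Nat.cast_nonneg _
  have d1 : 0 < ((qq l).1 : ℝ) + t * (qq l).2 := by positivity
  have d2 : (0 : ℝ) < (qq l).1 := by positivity
  simp only [zero_mul, add_zero]
  rw [div_sub_div _ _ d1.ne' d2.ne', div_eq_div_iff (by positivity) (by positivity)]
  ring

theorem cf_snoc_zero (l : List ℕ) (h : Pos l) (a : ℕ) (ha : 1 ≤ a) :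
    cf (l ++ [a]) 0 = cf l 0 + (-1) ^ l.length / ((qq l).1 * (a * (qq l).1 + (qq l).2)) := by
  have ha' : (1 : ℝ) ≤ a := by exact_mod_cast ha
  have := cf_sub l h (1 / (a : ℝ)) (by positivity)
  rw [cf_snoc, add_zero, eq_add_of_sub_eq this, add_comm]
  congr 1
  have hq : (1 : ℝ) ≤ (qq l).1 := by exact_mod_cast (q_props l h).1
  have hq' : (0 : ℝ) ≤ (qq l).2 := Nat.cast_nonneg _
  rw [div_eq_div_iff (by positivity) (by positivity)]
  field_simp

theorem abs_cf_sub (l : List ℕ) (h : Pos l) (t : ℝ) (ht : 0 ≤ t) (ht1 : t ≤ 1) :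
    |cf l t - cf l 0| ≤ 1 / ((qq l).1 : ℝ) ^ 2 := by
  rw [cf_sub l h t ht]
  have hq : (1 : ℝ) ≤ (qq l).1 := by exact_mod_cast (q_props l h).1
  have hq' : (0 : ℝ) ≤ (qq l).2 := Nat.cast_nonneg _
  rw [abs_div, abs_mul, abs_pow, abs_neg, abs_one, one_pow, one_mul, abs_of_nonneg ht,
    abs_of_nonneg (by positivity), div_le_div_iff₀ (by positivity) (by positivity)]
  have : 0 ≤ ((qq l).1 : ℝ) * (t * (qq l).2) := by positivity
  nlinarith [mul_le_mul_of_nonneg_right ht1 (sq_nonneg ((qq l).1 : ℝ))]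

theorem cf_rat (l : List ℕ) : ∃ r : ℚ, cf l 0 = r := by
  induction l with
  | nil => exact ⟨0, by simp [cf_nil]⟩
  | cons a l ih =>
    obtain ⟨r, hr⟩ := ih
    exact ⟨1 / (a + r), by rw [cf_cons, hr]; push_cast; rfl⟩

/-- the abstract step -/
theorem step (q q' Q Q' D R : ℝ) (hq : 0 < q) (hq' : 0 ≤ q') (hq'q : q' ≤ q) (hQ : 0 < Q)
    (hQ' : 0 ≤ Q') (hQ'Q : Q' ≤ Q) (hD : 0 < D) (hθ : D * Q ^ 2 < 1) (hR : 16 ≤ R)
    (hRQ : R * q ^ 2 = Q ^ 2) :
    (∃ a : ℕ, 1 ≤ a ∧ D - 1 / (q * (a * q + q')) = 0) ∨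
    (∃ a b : ℕ, R / 5 - 2 ≤ a ∧ R / 5 - 2 ≤ b ∧
      D - 1 / (q * (a * q + q')) - 1 / (Q * (b * Q + Q')) ≤ 0 ∧
      -(D - 1 / (q * (a * q + q')) - 1 / (Q * (b * Q + Q'))) * (b * Q + Q') ^ 2 < 1 ∧
      (R + 1) * (a * q + q') ^ 2 ≤ (b * Q + Q') ^ 2) ∨
    (∃ a c : ℕ, R / 5 - 2 ≤ a ∧ R / 5 - 2 ≤ c ∧
      0 ≤ D - 1 / (q * (a * q + q')) + 1 / ((a * q + q') * (c * (a * q + q') + q)) ∧
      (D - 1 / (q * (a * q + q')) + 1 / ((a * q + q') * (c * (a * q + q') + q))) *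
        (c * (a * q + q') + q) ^ 2 < 1 ∧
      (R + 1) * Q ^ 2 ≤ (c * (a * q + q') + q) ^ 2) := by
  obtain ⟨y, hy⟩ : ∃ y, y = 1 / (q ^ 2 * D) := ⟨_, rfl⟩
  obtain ⟨r, hr⟩ : ∃ r, r = q' / q := ⟨_, rfl⟩
  obtain ⟨r2, hr2⟩ : ∃ r2, r2 = Q' / Q := ⟨_, rfl⟩
  have hr0 : 0 ≤ r := by rw [hr]; positivity
  have hr1 : r ≤ 1 := by rw [hr, div_le_one hq]; exact hq'q
  have hr20 : 0 ≤ r2 := by rw [hr2]; positivity
  have hr21 : r2 ≤ 1 := by rw [hr2, div_le_one hQ]; exact hQ'Q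
  have hq'e : q' = r * q := by rw [hr]; field_simp
  have hQ'e : Q' = r2 * Q := by rw [hr2]; field_simp
  have hyR : R < y := by
    rw [hy, lt_div_iff₀ (by positivity)]
    calc R * (q ^ 2 * D) = D * Q ^ 2 := by rw [← hRQ]; ring
      _ < 1 := hθ
  have hDy : D = 1 / (q ^ 2 * y) := by rw [hy]; field_simp
  have hy0 : 0 < y := by linarith
  obtain ⟨n, hn⟩ : ∃ n : ℕ, n = ⌈y - r⌉₊ := ⟨_, rfl⟩
  have hn1 : y - r ≤ n := by rw [hn]; exact Nat.le_ceil _
  have hn2 : (n : ℝ) < y - r + 1 := by rw [hn]; exact Nat.ceil_lt_add_one (by linarith)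
  obtain ⟨δ, hδ⟩ : ∃ δ, δ = n + r - y := ⟨_, rfl⟩
  have hδ0 : 0 ≤ δ := by linarith
  have hδ1 : δ < 1 := by linarith
  have hnr : (n : ℝ) + r = y + δ := by linarith
  rcases hδ0.eq_or_lt with h0 | hδpos
  · -- exact hit
    left
    refine ⟨n, ?_, ?_⟩
    · have : (1 : ℝ) ≤ n := by linarith
      exact_mod_cast this
    · have e : q * (n * q + q') = q ^ 2 * y := by
        rw [hq'e]
        have : (n : ℝ) * q + r * q = q * y := by
          have : (n : ℝ) + r = y := by linarith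
          rw [← this]; ring
        rw [this]; ring
      rw [e, ← hDy, sub_self]
  right
  -- D' = δ / (q^2 y (y+δ))
  have hq1 : (n : ℝ) * q + q' = q * (y + δ) := by rw [hq'e, ← hnr]; ring
  have hD' : D - 1 / (q * (n * q + q')) = δ / (q ^ 2 * (y * (y + δ))) := by
    rw [hq1, hDy]
    field_simp
    ring
  by_cases hcase : δ * (y + δ) / y ≤ 1 - 4 / R
  · left
    obtain ⟨y', hy'⟩ : ∃ y', y' = q ^ 2 * (y * (y + δ)) / (Q ^ 2 * δ) := ⟨_, rfl⟩
    have hyd : 0 < y + δ := by linarith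
    -- y' ≥ (y+δ)^2/R * (1+4/R)
    have hy'1 : y' = (y + δ) ^ 2 / R * (1 / (δ * (y + δ) / y)) := by
      rw [hy', ← hRQ]
      field_simp
    obtain ⟨θ, hθd⟩ : ∃ θ, θ = δ * (y + δ) / y := ⟨_, rfl⟩
    rw [← hθd] at hcase hy'1
    have hθ0 : 0 < θ := by rw [hθd]; positivity
    have hinv : 1 + 4 / R ≤ 1 / θ := by
      rw [le_div_iff₀ hθ0]
      have h4 : (0 : ℝ) < 4 / R := by positivity
      nlinarith
    obtain ⟨R', hR'⟩ : ∃ R', R' = (y + δ) ^ 2 / R := ⟨_, rfl⟩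
    have hR'1 : R ≤ R' := by
      rw [hR', le_div_iff₀ (by linarith)]
      nlinarith
    rw [← hR'] at hy'1
    have hy'2 : R' + 4 ≤ y' := by
      have e1 : R' * (1 + 4 / R) ≤ y' := by
        rw [hy'1]; exact mul_le_mul_of_nonneg_left hinv (by linarith)
      have e2 : 4 ≤ R' * (4 / R) := by
        rw [mul_div_assoc', le_div_iff₀ (by linarith)]; linarith
      linarith
    obtain ⟨m, hm⟩ : ∃ m : ℕ, m = ⌊y' - r2⌋₊ := ⟨_, rfl⟩
    have hm1 : (m : ℝ) ≤ y' - r2 := by rw [hm]; exact Nat.floor_le (by linarith)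
    have hm2 : y' - r2 < m + 1 := by rw [hm]; exact Nat.lt_floor_add_one _
    obtain ⟨ε, hε⟩ : ∃ ε, ε = y' - r2 - m := ⟨_, rfl⟩
    have hε0 : 0 ≤ ε := by linarith
    have hε1 : ε < 1 := by linarith
    have hQ1 : (m : ℝ) * Q + Q' = Q * (y' - ε) := by rw [hQ'e, hε]; ring
    have hye : 0 < y' - ε := by linarith
    have hy'0 : 0 < y' := by linarith
    have hD'2 : D - 1 / (q * (n * q + q')) = 1 / (Q ^ 2 * y') := by
      rw [hD', hy']
      field_simp
    have hD1 : D - 1 / (q * (n * q + q')) - 1 / (Q * (m * Q + Q')) = -(ε / (Q ^ 2 * (y' * (y' - ε)))) := by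
      rw [hD'2, hQ1]
      field_simp
      ring
    refine ⟨n, m, by linarith, by linarith, ?_, ?_, ?_⟩
    · rw [hD1]
      have : 0 ≤ ε / (Q ^ 2 * (y' * (y' - ε))) := by positivity
      linarith
    · rw [hD1, hQ1]
      have : -(-(ε / (Q ^ 2 * (y' * (y' - ε))))) * (Q * (y' - ε)) ^ 2 = ε * ((y' - ε) / y') := by
        field_simp
      rw [this]
      have h1 : (y' - ε) / y' ≤ 1 := by rw [div_le_one hy'0]; linarith
      have h2 : 0 ≤ (y' - ε) / y' := by positivity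
      nlinarith
    · rw [hq1, hQ1]
      have e1 : (q * (y + δ)) ^ 2 * 1 = R' * Q ^ 2 := by
        rw [hR', ← hRQ]; field_simp
      have e2 : (R + 1) * (q * (y + δ)) ^ 2 = (R + 1) * R' * Q ^ 2 := by
        rw [mul_assoc, ← e1, mul_one]
      rw [e2, mul_pow, mul_comm (Q ^ 2)]
      refine mul_le_mul_of_nonneg_right ?_ (by positivity)
      have : R' + 3 ≤ y' - ε := by linarith
      nlinarith
  · right
    push Not at hcase
    obtain ⟨η, hη⟩ : ∃ η, η = 1 - δ := ⟨_, rfl⟩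
    have hη0 : 0 < η := by linarith
    have hηR : η * R < 5 := by
      have h1 : δ * (y + δ) / y = δ + δ ^ 2 / y := by field_simp
      rw [h1] at hcase
      have h2 : δ ^ 2 / y ≤ 1 / R := by
        rw [div_le_div_iff₀ hy0 (by linarith)]
        nlinarith [mul_le_mul_of_nonneg_left hδ1.le hδ0]
      have h3 : η < 5 / R := by
        have : (5 : ℝ) / R = 4 / R + 1 / R := by ring
        linarith
      rwa [lt_div_iff₀ (by linarith)] at h3
    have hη1 : η ≤ 1 := by linarith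
    have hn0 : 1 ≤ n := by
      have : (1 : ℝ) ≤ n := by linarith
      exact_mod_cast this
    obtain ⟨k, rfl⟩ : ∃ k, n = k + 1 := ⟨n - 1, by omega⟩
    have hk : (k : ℝ) = y - η - r := by push_cast at hnr; linarith
    have hyη : 0 < y - η := by linarith
    have hq2 : (k : ℝ) * q + q' = q * (y - η) := by rw [hk, hq'e]; ring
    obtain ⟨z, hz⟩ : ∃ z, z = y / (η * (y - η)) := ⟨_, rfl⟩
    have hz0 : 0 < z := by rw [hz]; positivity
    have hzR : R / 5 < z := by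
      rw [hz, lt_div_iff₀ (by positivity)]
      nlinarith [mul_pos hη0 hyη]
    obtain ⟨r3, hr3⟩ : ∃ r3, r3 = 1 / (y - η) := ⟨_, rfl⟩
    have hr30 : 0 < r3 := by rw [hr3]; positivity
    have hr31 : r3 ≤ 1 := by rw [hr3, div_le_one hyη]; linarith
    have hq4 : q = r3 * (q * (y - η)) := by rw [hr3]; field_simp
    obtain ⟨m, hm⟩ : ∃ m : ℕ, m = ⌊z - r3⌋₊ := ⟨_, rfl⟩
    have hm1 : (m : ℝ) ≤ z - r3 := by rw [hm]; exact Nat.floor_le (by linarith)
    have hm2 : z - r3 < m + 1 := by rw [hm]; exact Nat.lt_floor_add_one _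
    obtain ⟨ε, hε⟩ : ∃ ε, ε = z - r3 - m := ⟨_, rfl⟩
    have hε0 : 0 ≤ ε := by linarith
    have hε1 : ε < 1 := by linarith
    have hq3 : (m : ℝ) * (k * q + q') + q = q * (y - η) * (z - ε) := by
      rw [hq2]
      have : (m : ℝ) = z - ε - r3 := by linarith
      rw [this]
      have h5 : r3 * (y - η) = 1 := by rw [hr3]; field_simp
      linear_combination (-q) * h5
    have hze : 0 < z - ε := by linarith
    have hD3 : D - 1 / (q * (k * q + q')) = -(1 / ((q * (y - η)) ^ 2 * z)) := by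
      rw [hq2, hDy, hz]
      field_simp
      ring
    have hD4 : D - 1 / (q * (k * q + q')) + 1 / ((k * q + q') * (m * (k * q + q') + q)) =
        ε / ((q * (y - η)) ^ 2 * (z * (z - ε))) := by
      rw [hD3, hq3, hq2]
      field_simp
      ring
    refine ⟨k, m, by linarith, by linarith, ?_, ?_, ?_⟩
    · rw [hD4]; positivity
    · rw [hD4, hq3]
      have : ε / ((q * (y - η)) ^ 2 * (z * (z - ε))) * (q * (y - η) * (z - ε)) ^ 2 =
          ε * ((z - ε) / z) := by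
        field_simp
      rw [this]
      have h1 : (z - ε) / z ≤ 1 := by rw [div_le_one hz0]; linarith
      have h2 : 0 ≤ (z - ε) / z := by positivity
      nlinarith
    · rw [hq3, ← hRQ]
      have h1 : R - 1 ≤ y - η := by linarith
      have h2 : (11 : ℝ) / 5 ≤ z - ε := by linarith
      have h3 : (R - 1) ^ 2 ≤ (y - η) ^ 2 := by nlinarith
      have h4 : (11 / 5 : ℝ) ^ 2 ≤ (z - ε) ^ 2 := by nlinarith
      have h5 : (R + 1) * R ≤ (y - η) ^ 2 * (z - ε) ^ 2 := by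
        calc (R + 1) * R ≤ (R - 1) ^ 2 * (11 / 5) ^ 2 := by nlinarith
          _ ≤ _ := mul_le_mul h3 h4 (by positivity) (by positivity)
      calc (R + 1) * (R * q ^ 2) = q ^ 2 * ((R + 1) * R) := by ring
        _ ≤ q ^ 2 * ((y - η) ^ 2 * (z - ε) ^ 2) := mul_le_mul_of_nonneg_left h5 (by positivity)
        _ = _ := by ring

end Pool.Agent.H493R3.GG
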