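import Pool.Agent.H493R3.GGb

set_option autoImplicit false

namespace Pool.Agent.H493R3.GG

open Set Filter

/-- good pairs of words -/
def Good (x R : ℝ) (u v : List ℕ) : Prop :=
  Pos u ∧ Pos v ∧ ((-1 : ℝ) ^ u.length = (-1) ^ v.length) ∧
    0 < (-1) ^ u.length * (x - cf u 0 - cf v 0) ∧
    (-1) ^ u.length * (x - cf u 0 - cf v 0) * ((qq v).1 : ℝ) ^ 2 < 1 ∧
    R * ((qq u).1 : ℝ) ^ 2 ≤ ((qq v).1 : ℝ) ^ 2

theorem Good.mono {x R R' : ℝ} {u v : List ℕ} (h : Good x R u v) (hR : R' ≤ R) : Good x R' u v := by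
  obtain ⟨h1, h2, h3, h4, h5, h6⟩ := h
  exact ⟨h1, h2, h3, h4, h5, le_trans (mul_le_mul_of_nonneg_right hR (by positivity)) h6⟩

theorem ne_zero_of_irr {x : ℝ} (hx : Irrational x) (u v : List ℕ) : x - cf u 0 - cf v 0 ≠ 0 := by
  obtain ⟨r, hr⟩ := cf_rat u
  obtain ⟨s, hs⟩ := cf_rat v
  intro h
  apply hx
  refine ⟨r + s, ?_⟩
  push_cast
  rw [← hr, ← hs]
  linarith

theorem good_step {x R : ℝ} (hx : Irrational x) {u v : List ℕ} (h : Good x R u v) (hR : 16 ≤ R) :
    (∃ a b : ℕ, R / 5 - 2 ≤ a ∧ R / 5 - 2 ≤ b ∧ Good x (R + 1) (u ++ [a]) (v ++ [b])) ∨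
    (∃ a c : ℕ, R / 5 - 2 ≤ a ∧ R / 5 - 2 ≤ c ∧ Good x (R + 1) v ((u ++ [a]) ++ [c])) := by
  obtain ⟨h1, h2, h3, h4, h5, h6⟩ := h
  obtain ⟨qu1, qu2, -, -⟩ := q_props u h1
  obtain ⟨qv1, qv2, -, -⟩ := q_props v h2
  have qu1' : (1 : ℝ) ≤ (qq u).1 := by exact_mod_cast qu1
  have qv1' : (1 : ℝ) ≤ (qq v).1 := by exact_mod_cast qv1
  have qu2' : ((qq u).2 : ℝ) ≤ (qq u).1 := by exact_mod_cast qu2
  have qv2' : ((qq v).2 : ℝ) ≤ (qq v).1 := by exact_mod_cast qv2
  obtain ⟨σ, hσ⟩ : ∃ σ : ℝ, σ = (-1) ^ u.length := ⟨_, rfl⟩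
  have hσσ : σ * σ = 1 := by
    rw [hσ, ← pow_add, ← two_mul, pow_mul]; norm_num
  obtain ⟨R0, hR0⟩ : ∃ R0 : ℝ, R0 = ((qq v).1 : ℝ) ^ 2 / ((qq u).1 : ℝ) ^ 2 := ⟨_, rfl⟩
  have hRR0 : R ≤ R0 := by rw [hR0, le_div_iff₀ (by positivity)]; exact h6
  have hR0e : R0 * ((qq u).1 : ℝ) ^ 2 = ((qq v).1 : ℝ) ^ 2 := by rw [hR0]; field_simp
  rw [← hσ] at h3 h4 h5
  have hst := step ((qq u).1) ((qq u).2) ((qq v).1) ((qq v).2) (σ * (x - cf u 0 - cf v 0)) R0
    (by linarith) (Nat.cast_nonneg _) qu2' (by linarith) (Nat.cast_nonneg _) qv2' h4 h5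
    (by linarith) hR0e
  have hu1 : ∀ a : ℕ, 1 ≤ a → cf (u ++ [a]) 0 =
      cf u 0 + σ * (1 / ((qq u).1 * (a * (qq u).1 + (qq u).2))) := by
    intro a ha; rw [cf_snoc_zero u h1 a ha, ← hσ]; ring
  have hv1 : ∀ a : ℕ, 1 ≤ a → cf (v ++ [a]) 0 =
      cf v 0 + σ * (1 / ((qq v).1 * (a * (qq v).1 + (qq v).2))) := by
    intro a ha; rw [cf_snoc_zero v h2 a ha, ← h3]; ring
  have hge : ∀ a : ℕ, R0 / 5 - 2 ≤ a → 1 ≤ a := by
    intro a ha
    have : (0 : ℝ) < a := by linarith
    exact_mod_cast this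
  rcases hst with ⟨a, ha, h0⟩ | ⟨a, b, ha, hb, e1, e2, e3⟩ | ⟨a, c, ha, hc, e1, e2, e3⟩
  · exfalso
    apply ne_zero_of_irr hx (u ++ [a]) v
    rw [hu1 a ha]
    have : σ * (σ * (x - cf u 0 - cf v 0) - 1 / ((qq u).1 * (a * (qq u).1 + (qq u).2))) = 0 := by
      rw [h0, mul_zero]
    linear_combination this - (x - cf u 0 - cf v 0) * hσσ
  · left
    refine ⟨a, b, by linarith, by linarith, h1.snoc (hge a ha), h2.snoc (hge b hb), ?_, ?_, ?_, ?_⟩
    · simp only [List.length_append, List.length_cons, List.length_nil, zero_add, pow_succ]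
      rw [← hσ, h3]
    · have e0 : (-1 : ℝ) ^ (u ++ [a]).length * (x - cf (u ++ [a]) 0 - cf (v ++ [b]) 0) =
          -(σ * (x - cf u 0 - cf v 0) - 1 / ((qq u).1 * (a * (qq u).1 + (qq u).2)) -
            1 / ((qq v).1 * (b * (qq v).1 + (qq v).2))) := by
        simp only [List.length_append, List.length_cons, List.length_nil, zero_add, pow_succ]
        rw [← hσ, hu1 a (hge a ha), hv1 b (hge b hb)]
        linear_combination (1 / (((qq u).1 : ℝ) * (a * (qq u).1 + (qq u).2)) +
          1 / (((qq v).1 : ℝ) * (b * (qq v).1 + (qq v).2))) * hσσ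
      have hne := ne_zero_of_irr hx (u ++ [a]) (v ++ [b])
      have hne2 : (-1 : ℝ) ^ (u ++ [a]).length * (x - cf (u ++ [a]) 0 - cf (v ++ [b]) 0) ≠ 0 :=
        mul_ne_zero (pow_ne_zero _ (by norm_num)) hne
      rw [e0] at hne2 ⊢
      exact lt_of_le_of_ne (by linarith) (Ne.symm hne2)
    · have e0 : (-1 : ℝ) ^ (u ++ [a]).length * (x - cf (u ++ [a]) 0 - cf (v ++ [b]) 0) =
          -(σ * (x - cf u 0 - cf v 0) - 1 / ((qq u).1 * (a * (qq u).1 + (qq u).2)) -
            1 / ((qq v).1 * (b * (qq v).1 + (qq v).2))) := by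
        simp only [List.length_append, List.length_cons, List.length_nil, zero_add, pow_succ]
        rw [← hσ, hu1 a (hge a ha), hv1 b (hge b hb)]
        linear_combination (1 / (((qq u).1 : ℝ) * (a * (qq u).1 + (qq u).2)) +
          1 / (((qq v).1 : ℝ) * (b * (qq v).1 + (qq v).2))) * hσσ
      rw [e0, qq_snoc]
      push_cast
      exact e2
    · rw [qq_snoc, qq_snoc]
      push_cast
      refine le_trans (mul_le_mul_of_nonneg_right ?_ (by positivity)) e3
      linarith
  · right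
    have hua : Pos (u ++ [a]) := h1.snoc (hge a ha)
    have hc1 := hge c hc
    have huac : cf ((u ++ [a]) ++ [c]) 0 = cf u 0 +
        σ * (1 / ((qq u).1 * (a * (qq u).1 + (qq u).2))) -
        σ * (1 / ((a * (qq u).1 + (qq u).2) * (c * (a * (qq u).1 + (qq u).2) + (qq u).1))) := by
      rw [cf_snoc_zero (u ++ [a]) hua c hc1, hu1 a (hge a ha), qq_snoc]
      simp only [List.length_append, List.length_cons, List.length_nil, zero_add, pow_succ]
      rw [← hσ]
      push_cast
      ring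
    have e0 : (-1 : ℝ) ^ v.length * (x - cf v 0 - cf ((u ++ [a]) ++ [c]) 0) =
        σ * (x - cf u 0 - cf v 0) - 1 / ((qq u).1 * (a * (qq u).1 + (qq u).2)) +
          1 / ((a * (qq u).1 + (qq u).2) * (c * (a * (qq u).1 + (qq u).2) + (qq u).1)) := by
      rw [← h3, huac]
      linear_combination (-(1 / (((qq u).1 : ℝ) * (a * (qq u).1 + (qq u).2))) +
        1 / (((a : ℝ) * (qq u).1 + (qq u).2) * (c * (a * (qq u).1 + (qq u).2) + (qq u).1))) * hσσ
    refine ⟨a, c, by linarith, by linarith, h2, hua.snoc hc1, ?_, ?_, ?_, ?_⟩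
    · simp only [List.length_append, List.length_cons, List.length_nil, zero_add, pow_succ]
      rw [← hσ, h3]; ring
    · have hne := ne_zero_of_irr hx v ((u ++ [a]) ++ [c])
      have hne2 : (-1 : ℝ) ^ v.length * (x - cf v 0 - cf ((u ++ [a]) ++ [c]) 0) ≠ 0 :=
        mul_ne_zero (pow_ne_zero _ (by norm_num)) hne
      rw [e0] at hne2 ⊢
      exact lt_of_le_of_ne (by linarith) (Ne.symm hne2)
    · rw [e0, qq_snoc, qq_snoc]
      push_cast
      exact e2
    · rw [qq_snoc, qq_snoc]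
      push_cast
      refine le_trans (mul_le_mul_of_nonneg_right ?_ (by positivity)) e3
      linarith

/-- symmetric version -/
def Gs (x R : ℝ) (u v : List ℕ) : Prop := Good x R u v ∨ Good x R v u

theorem bigstep_aux {x R : ℝ} (hx : Irrational x) {u v : List ℕ} (h : Good x R u v) (hR : 16 ≤ R) :
    ∃ s t : List ℕ, s ≠ [] ∧ t ≠ [] ∧ (∀ a ∈ s, R / 5 - 2 ≤ (a : ℝ)) ∧
      (∀ a ∈ t, R / 5 - 2 ≤ (a : ℝ)) ∧ Gs x (R + 1) (u ++ s) (v ++ t) := by
  rcases good_step hx h hR with ⟨a, b, ha, hb, hg⟩ | ⟨a, c, ha, hc, hg⟩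
  · refine ⟨[a], [b], by simp, by simp, ?_, ?_, Or.inl hg⟩
    · intro z hz; rw [List.mem_singleton.1 hz]; exact ha
    · intro z hz; rw [List.mem_singleton.1 hz]; exact hb
  · rcases good_step hx hg (by linarith) with ⟨a', b', ha', hb', hg'⟩ | ⟨a', c', ha', hc', hg'⟩
    · refine ⟨[a, c, b'], [a'], by simp, by simp, ?_, ?_, Or.inr ?_⟩
      · intro z hz
        simp only [List.mem_cons, List.not_mem_nil, or_false] at hz
        rcases hz with rfl | rfl | rfl <;> linarith
      · intro z hz; rw [List.mem_singleton.1 hz]; linarith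
      · have : u ++ [a, c, b'] = u ++ [a] ++ [c] ++ [b'] := by simp
        rw [this]
        exact hg'.mono (by linarith)
    · refine ⟨[a, c], [a', c'], by simp, by simp, ?_, ?_, Or.inl ?_⟩
      · intro z hz
        simp only [List.mem_cons, List.not_mem_nil, or_false] at hz
        rcases hz with rfl | rfl <;> linarith
      · intro z hz
        simp only [List.mem_cons, List.not_mem_nil, or_false] at hz
        rcases hz with rfl | rfl <;> linarith
      · have e1 : u ++ [a, c] = u ++ [a] ++ [c] := by simp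
        have e2 : v ++ [a', c'] = v ++ [a'] ++ [c'] := by simp
        rw [e1, e2]
        exact hg'.mono (by linarith)

theorem bigstep {x R : ℝ} (hx : Irrational x) {u v : List ℕ} (h : Gs x R u v) (hR : 16 ≤ R) :
    ∃ s t : List ℕ, s ≠ [] ∧ t ≠ [] ∧ (∀ a ∈ s, R / 5 - 2 ≤ (a : ℝ)) ∧
      (∀ a ∈ t, R / 5 - 2 ≤ (a : ℝ)) ∧ Gs x (R + 1) (u ++ s) (v ++ t) := by
  rcases h with h | h
  · exact bigstep_aux hx h hR
  · obtain ⟨s, t, h1, h2, h3, h4, h5⟩ := bigstep_aux hx h hR
    exact ⟨t, s, h2, h1, h4, h3, h5.symm⟩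

/-- growing words define a number -/
theorem limit (u : ℕ → List ℕ) (h0 : Pos (u 0))
    (h : ∀ k : ℕ, ∃ s : List ℕ, s ≠ [] ∧ (∀ a ∈ s, (16 + (k : ℝ)) / 5 - 2 ≤ (a : ℝ)) ∧
      u (k + 1) = u k ++ s) :
    ∃ g : ℝ, 0 < g ∧ g < 1 ∧
      Tendsto (fun n : ℕ => ⌊1 / ((fun y : ℝ => Int.fract (1 / y))^[n] g)⌋) atTop atTop ∧
      ∀ k, |g - cf (u k) 0| ≤ 1 / ((qq (u k)).1 : ℝ) ^ 2 := by
  have hlen : ∀ k, k ≤ (u k).length := by
    intro k
    induction k with
    | zero => simp
    | succ k ih =>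
      obtain ⟨s, hs, -, he⟩ := h k
      rw [he, List.length_append]
      have := List.length_pos_iff.2 hs
      omega
  have hpos : ∀ k, Pos (u k) := by
    intro k
    induction k with
    | zero => exact h0
    | succ k ih =>
      obtain ⟨s, hs, hs2, he⟩ := h k
      rw [he]
      intro b hb
      rcases List.mem_append.1 hb with h1 | h1
      · exact ih b h1
      · have := hs2 b h1
        have hk : (0 : ℝ) ≤ k := Nat.cast_nonneg _
        have : (0 : ℝ) < b := by linarith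
        exact_mod_cast this
  have hget : ∀ k m i, i < (u k).length → (u (k + m)).getD i 1 = (u k).getD i 1 ∧
      (u k).length ≤ (u (k + m)).length := by
    intro k m
    induction m with
    | zero => intro i _; exact ⟨rfl, le_rfl⟩
    | succ m ih =>
      intro i hi
      obtain ⟨s, hs, -, he⟩ := h (k + m)
      obtain ⟨i1, i2⟩ := ih i hi
      rw [← add_assoc, he]
      refine ⟨?_, ?_⟩
      · rw [List.getD_append _ _ _ _ (by omega)]; exact i1
      · rw [List.length_append]; omega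
  obtain ⟨a, ha⟩ : ∃ a : ℕ → ℕ, a = fun n => (u (n + 1)).getD n 1 := ⟨_, rfl⟩
  have haeq : ∀ k i, i < (u k).length → (u k).getD i 1 = a i := by
    intro k i hi
    rw [ha]
    rcases le_total k (i + 1) with hc | hc
    · obtain ⟨m, hm⟩ := Nat.exists_eq_add_of_le hc
      have := (hget k m i hi).1
      rw [← hm] at this
      exact this.symm
    · obtain ⟨m, hm⟩ := Nat.exists_eq_add_of_le hc
      have h2 : i < (u (i + 1)).length := lt_of_lt_of_le (Nat.lt_succ_self i) (hlen (i + 1))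
      have := (hget (i + 1) m i h2).1
      rw [← hm] at this
      exact this
  have hapos : ∀ i, 1 ≤ a i := by
    intro i
    have h2 : i < (u (i + 1)).length := lt_of_lt_of_le (Nat.lt_succ_self i) (hlen (i + 1))
    rw [← haeq (i + 1) i h2, List.getD_eq_getElem _ _ h2]
    exact hpos (i + 1) _ (List.getElem_mem h2)
  obtain ⟨s, s0, s1, s2⟩ := exists_orbit a hapos
  have hcf : ∀ l : List ℕ, (∀ i, i < l.length → l.getD i 1 = a i) → s 0 = cf l (s l.length) := by
    intro l
    induction l using List.reverseRecOn with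
    | nil => intro _; rfl
    | append_singleton l b ih =>
      intro hl
      have h1 : ∀ i, i < l.length → l.getD i 1 = a i := by
        intro i hi
        rw [← hl i (by simp; omega), List.getD_append _ _ _ _ hi]
      have h2 : b = a l.length := by
        rw [← hl l.length (by simp), List.getD_append_right _ _ _ _ le_rfl]
        simp
      have h3 := s2 l.length
      rw [cf_snoc]
      simp only [List.length_append, List.length_cons, List.length_nil, zero_add]
      rw [h2, ← h3, one_div_one_div]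
      exact ih h1
  refine ⟨s 0, s0 0, s1 0, ?_, ?_⟩
  · have e : (fun n : ℕ => ⌊1 / ((fun y : ℝ => Int.fract (1 / y))^[n] (s 0))⌋) =
        fun n => ((a n : ℕ) : ℤ) := by
      funext n; exact orbit_floor s0 s1 s2 n
    rw [e]
    refine tendsto_natCast_atTop_atTop.comp ?_
    rw [tendsto_atTop]
    intro N
    obtain ⟨k, hk⟩ := exists_nat_ge (5 * ((N : ℝ) + 2))
    have claim : ∀ m i, (u k).length ≤ i → i < (u (k + m)).length → N ≤ (u (k + m)).getD i 1 := by
      intro m
      induction m with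
      | zero => intro i h1 h2; simp at h2; omega
      | succ m ih =>
        intro i h1 h2
        obtain ⟨t, ht, ht2, he⟩ := h (k + m)
        rw [← add_assoc, he] at h2 ⊢
        by_cases hi : i < (u (k + m)).length
        · rw [List.getD_append _ _ _ _ hi]; exact ih i h1 hi
        · push Not at hi
          rw [List.getD_append_right _ _ _ _ hi]
          rw [List.length_append] at h2
          have h3 : i - (u (k + m)).length < t.length := by omega
          rw [List.getD_eq_getElem _ _ h3]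
          have h4 := ht2 _ (List.getElem_mem h3)
          push_cast at h4
          have hm : (0 : ℝ) ≤ m := Nat.cast_nonneg _
          have h5 : (N : ℝ) ≤ (t[i - (u (k + m)).length] : ℕ) := by linarith
          exact_mod_cast h5
    filter_upwards [eventually_ge_atTop (u k).length] with i hi
    have h6 : i < (u (k + (i + 1))).length := lt_of_lt_of_le (by omega) (hlen (k + (i + 1)))
    rw [← haeq (k + (i + 1)) i h6]
    exact claim (i + 1) i hi h6
  · intro k
    rw [hcf (u k) (haeq k)]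
    exact abs_cf_sub (u k) (hpos k) _ (s0 _).le (s1 _).le

end Pool.Agent.H493R3.GG
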