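import Pool.Agent.H493R3.GGc

set_option autoImplicit false

namespace Pool.Agent.H493R3.GG

open Set Filter

theorem expand {x : ℝ} (hx : Irrational x) (h0 : 0 < x) (h1 : x < 1) (n : ℕ) :
    ∃ (l : List ℕ) (t : ℝ), l.length = n ∧ Pos l ∧ x = cf l t ∧ 0 < t ∧ t < 1 ∧ Irrational t := by
  induction n with
  | zero => exact ⟨[], x, rfl, by intro a ha; simp at ha, rfl, h0, h1, hx⟩
  | succ n ih =>
    obtain ⟨l, t, hl, hp, hxe, ht0, ht1, hti⟩ := ih
    have hinv : 1 < 1 / t := by rw [lt_div_iff₀ ht0]; linarith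
    obtain ⟨m, hm⟩ : ∃ m : ℕ, m = ⌊1 / t⌋₊ := ⟨_, rfl⟩
    have hm1 : (m : ℝ) ≤ 1 / t := by rw [hm]; exact Nat.floor_le (by positivity)
    have hm2 : 1 / t < m + 1 := by rw [hm]; exact Nat.lt_floor_add_one _
    have hm0 : 1 ≤ m := by
      have : (0 : ℝ) < m := by linarith
      exact_mod_cast this
    have hirr : Irrational (1 / t - m) := by
      have : Irrational (1 / t) := by rw [one_div]; exact hti.inv
      exact this.sub_natCast m
    have hne : 1 / t - m ≠ 0 := hirr.ne_zero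
    refine ⟨l ++ [m], 1 / t - m, by simp [hl], hp.snoc hm0, ?_, ?_, by linarith, hirr⟩
    · rw [cf_snoc, hxe]
      have : 1 / ((m : ℝ) + (1 / t - m)) = t := by
        rw [add_sub_cancel, one_div_one_div]
      rw [this]
    · exact lt_of_le_of_ne (by linarith) (Ne.symm hne)

theorem init {x : ℝ} (hx : Irrational x) (h0 : 0 < x) (h1 : x < 1) :
    ∃ v : List ℕ, Good x 16 [] v := by
  obtain ⟨l, t, hl, hp, hxe, ht0, ht1, hti⟩ := expand hx h0 h1 4
  obtain ⟨q1, q2, q3, q4⟩ := q_props l hp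
  have q1' : (1 : ℝ) ≤ (qq l).1 := by exact_mod_cast q1
  have q2' : (0 : ℝ) ≤ (qq l).2 := Nat.cast_nonneg _
  have q4' : (4 : ℝ) ≤ (qq l).1 := by rw [hl] at q4; exact_mod_cast q4
  have hs := cf_sub l hp t ht0.le
  rw [← hxe, hl] at hs
  have hD : x - cf [] 0 - cf l 0 = t / ((qq l).1 * ((qq l).1 + t * (qq l).2)) := by
    rw [cf_nil, sub_zero, hs]; norm_num
  refine ⟨l, by intro a ha; simp at ha, hp, by rw [hl]; norm_num, ?_, ?_, ?_⟩
  · rw [hD]; simp only [List.length_nil, pow_zero, one_mul]; positivity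
  · rw [hD]
    simp only [List.length_nil, pow_zero, one_mul]
    rw [div_mul_eq_mul_div, div_lt_one (by positivity)]
    have : 0 ≤ ((qq l).1 : ℝ) * (t * (qq l).2) := by positivity
    nlinarith [mul_lt_mul_of_pos_right ht1 (by positivity : (0 : ℝ) < ((qq l).1 : ℝ) ^ 2)]
  · rw [qq_nil]
    push_cast
    nlinarith

theorem irr_case {x : ℝ} (hx : Irrational x) (h0 : 0 < x) (h1 : x < 1) :
    ∃ g₁ g₂ : ℝ,
        g₁ ∈ Set.Ioo (0 : ℝ) 1 ∧ g₂ ∈ Set.Ioo (0 : ℝ) 1 ∧
        Filter.Tendsto (fun n : ℕ => ⌊1 / ((fun y : ℝ => Int.fract (1 / y))^[n] g₁)⌋)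
          Filter.atTop Filter.atTop ∧
        Filter.Tendsto (fun n : ℕ => ⌊1 / ((fun y : ℝ => Int.fract (1 / y))^[n] g₂)⌋)
          Filter.atTop Filter.atTop ∧
        x = g₁ + g₂ := by
  obtain ⟨v0, hv0⟩ := init hx h0 h1
  have hstart : Gs x (16 + ((0 : ℕ) : ℝ)) [] v0 := by
    left
    simpa using hv0
  have hnext : ∀ (k : ℕ) (p : {p : List ℕ × List ℕ // Gs x (16 + (k : ℝ)) p.1 p.2}),
      ∃ p' : {p : List ℕ × List ℕ // Gs x (16 + ((k + 1 : ℕ) : ℝ)) p.1 p.2},
        ∃ s t : List ℕ, s ≠ [] ∧ t ≠ [] ∧ (∀ a ∈ s, (16 + (k : ℝ)) / 5 - 2 ≤ (a : ℝ)) ∧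
        (∀ a ∈ t, (16 + (k : ℝ)) / 5 - 2 ≤ (a : ℝ)) ∧ p'.1.1 = p.1.1 ++ s ∧ p'.1.2 = p.1.2 ++ t := by
    intro k p
    have hk : (0 : ℝ) ≤ k := Nat.cast_nonneg _
    obtain ⟨s, t, e1, e2, e3, e4, e5⟩ := bigstep hx p.2 (by linarith)
    refine ⟨⟨(p.1.1 ++ s, p.1.2 ++ t), ?_⟩, s, t, e1, e2, e3, e4, rfl, rfl⟩
    have : (16 + ((k + 1 : ℕ) : ℝ)) = 16 + (k : ℝ) + 1 := by push_cast; ring
    rw [this]; exact e5
  choose nxt hnxt using hnext
  let f : (k : ℕ) → {p : List ℕ × List ℕ // Gs x (16 + (k : ℝ)) p.1 p.2} :=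
    fun k => Nat.rec ⟨([], v0), hstart⟩ (fun k p => nxt k p) k
  have hf : ∀ k, f (k + 1) = nxt k (f k) := fun k => rfl
  have hu : ∀ k : ℕ, ∃ s : List ℕ, s ≠ [] ∧ (∀ a ∈ s, (16 + (k : ℝ)) / 5 - 2 ≤ (a : ℝ)) ∧
      (f (k + 1)).1.1 = (f k).1.1 ++ s := by
    intro k
    obtain ⟨s, t, e1, e2, e3, e4, e5, e6⟩ := hnxt k (f k)
    exact ⟨s, e1, e3, by rw [hf]; exact e5⟩
  have hv : ∀ k : ℕ, ∃ s : List ℕ, s ≠ [] ∧ (∀ a ∈ s, (16 + (k : ℝ)) / 5 - 2 ≤ (a : ℝ)) ∧
      (f (k + 1)).1.2 = (f k).1.2 ++ s := by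
    intro k
    obtain ⟨s, t, e1, e2, e3, e4, e5, e6⟩ := hnxt k (f k)
    exact ⟨t, e2, e4, by rw [hf]; exact e6⟩
  have hposu : ∀ k, Pos (f k).1.1 ∧ Pos (f k).1.2 := by
    intro k
    rcases (f k).2 with h | h
    · exact ⟨h.1, h.2.1⟩
    · exact ⟨h.2.1, h.1⟩
  obtain ⟨g₁, a1, a2, a3, a4⟩ := limit (fun k => (f k).1.1) (hposu 0).1 hu
  obtain ⟨g₂, b1, b2, b3, b4⟩ := limit (fun k => (f k).1.2) (hposu 0).2 hv
  refine ⟨g₁, g₂, ⟨a1, a2⟩, ⟨b1, b2⟩, a3, b3, ?_⟩
  have hlenu : ∀ k, k ≤ (f k).1.1.length ∧ k ≤ (f k).1.2.length := by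
    intro k
    induction k with
    | zero => simp
    | succ k ih =>
      obtain ⟨s, hs, -, he⟩ := hu k
      obtain ⟨t, ht, -, he'⟩ := hv k
      rw [he, he', List.length_append, List.length_append]
      have := List.length_pos_iff.2 hs
      have := List.length_pos_iff.2 ht
      omega
  -- the defect is tiny
  have hD : ∀ k : ℕ, 1 ≤ k → |x - cf (f k).1.1 0 - cf (f k).1.2 0| ≤ 1 / (k : ℝ) ^ 2 := by
    intro k hk
    have hk' : (1 : ℝ) ≤ k := by exact_mod_cast hk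
    have main : ∀ u v : List ℕ, k ≤ v.length → Good x (16 + (k : ℝ)) u v →
        |x - cf u 0 - cf v 0| ≤ 1 / (k : ℝ) ^ 2 := by
      intro u v hlen h
      obtain ⟨h1, h2, h3, h4, h5, h6⟩ := h
      have hq : (k : ℝ) ≤ (qq v).1 := by exact_mod_cast le_trans hlen (q_props v h2).2.2.2
      have e : |x - cf u 0 - cf v 0| = (-1) ^ u.length * (x - cf u 0 - cf v 0) := by
        rw [← abs_of_pos h4, abs_mul, abs_pow, abs_neg, abs_one, one_pow, one_mul]
      rw [e, le_div_iff₀ (by positivity)]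
      have : (k : ℝ) ^ 2 ≤ ((qq v).1 : ℝ) ^ 2 := by nlinarith
      nlinarith [mul_le_mul_of_nonneg_left this h4.le]
    rcases (f k).2 with h | h
    · exact main _ _ (hlenu k).2 h
    · have := main _ _ (hlenu k).1 h
      have e : x - cf (f k).1.1 0 - cf (f k).1.2 0 = x - cf (f k).1.2 0 - cf (f k).1.1 0 := by ring
      rw [e]; exact this
  have hfin : ∀ k : ℕ, 1 ≤ k → |x - (g₁ + g₂)| ≤ 3 / (k : ℝ) ^ 2 := by
    intro k hk
    have hk' : (1 : ℝ) ≤ k := by exact_mod_cast hk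
    have c1 := a4 k
    have c2 := b4 k
    have c3 := hD k hk
    have q1 : (k : ℝ) ≤ (qq (f k).1.1).1 := by
      exact_mod_cast le_trans (hlenu k).1 (q_props _ (hposu k).1).2.2.2
    have q2 : (k : ℝ) ≤ (qq (f k).1.2).1 := by
      exact_mod_cast le_trans (hlenu k).2 (q_props _ (hposu k).2).2.2.2
    have d1 : 1 / ((qq (f k).1.1).1 : ℝ) ^ 2 ≤ 1 / (k : ℝ) ^ 2 :=
      one_div_le_one_div_of_le (by positivity) (by nlinarith)
    have d2 : 1 / ((qq (f k).1.2).1 : ℝ) ^ 2 ≤ 1 / (k : ℝ) ^ 2 :=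
      one_div_le_one_div_of_le (by positivity) (by nlinarith)
    have e : x - (g₁ + g₂) = (x - cf (f k).1.1 0 - cf (f k).1.2 0) - (g₁ - cf (f k).1.1 0) -
        (g₂ - cf (f k).1.2 0) := by ring
    have e3 : (3 : ℝ) / (k : ℝ) ^ 2 = 1 / (k : ℝ) ^ 2 + 1 / (k : ℝ) ^ 2 + 1 / (k : ℝ) ^ 2 := by ring
    rw [e, e3]
    have t1 := abs_sub ((x - cf (f k).1.1 0 - cf (f k).1.2 0) - (g₁ - cf (f k).1.1 0))
      (g₂ - cf (f k).1.2 0)
    have t2 := abs_sub (x - cf (f k).1.1 0 - cf (f k).1.2 0) (g₁ - cf (f k).1.1 0)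
    linarith
  by_contra hne
  have hpos : 0 < |x - (g₁ + g₂)| := abs_pos.2 (sub_ne_zero.2 hne)
  obtain ⟨k, hk⟩ := exists_nat_gt (3 / |x - (g₁ + g₂)|)
  have hk0 : (0 : ℝ) < k := lt_trans (by positivity) hk
  have hk1 : 1 ≤ k := by exact_mod_cast hk0
  have hk1' : (1 : ℝ) ≤ k := by exact_mod_cast hk1
  have h3 := hfin k hk1
  rw [div_lt_iff₀ hpos] at hk
  rw [le_div_iff₀ (by positivity)] at h3
  nlinarith [mul_le_mul_of_nonneg_left hk1' (mul_nonneg hk0.le hpos.le)]

/-- words of rational numbers, both parities -/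
theorem rat_words : ∀ m : ℕ, 0 < m → ∀ n : ℕ, m ≤ n →
    (∃ w : List ℕ, Pos w ∧ Odd w.length ∧ cf w 0 = (m : ℝ) / n) ∧
    (m < n → ∃ w : List ℕ, Pos w ∧ Even w.length ∧ cf w 0 = (m : ℝ) / n) := by
  intro m
  induction m using Nat.strong_induction_on with
  | _ m ih =>
    intro hm n hmn
    have hm' : (0 : ℝ) < m := by exact_mod_cast hm
    have hn' : (0 : ℝ) < n := by exact_mod_cast lt_of_lt_of_le hm hmn
    obtain ⟨a, ha⟩ : ∃ a, a = n / m := ⟨_, rfl⟩
    obtain ⟨r, hr⟩ : ∃ r, r = n % m := ⟨_, rfl⟩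
    have hdiv : m * a + r = n := by rw [ha, hr]; exact Nat.div_add_mod n m
    have hdiv' : (m : ℝ) * a + r = n := by exact_mod_cast hdiv
    have hrm : r < m := by rw [hr]; exact Nat.mod_lt _ hm
    have ha1 : 1 ≤ a := by rw [ha]; exact (Nat.one_le_div_iff hm).2 hmn
    have ha1' : (1 : ℝ) ≤ a := by exact_mod_cast ha1
    rcases Nat.eq_zero_or_pos r with h0 | h0
    · subst h0
      have hn2 : (n : ℝ) = m * a := by rw [← hdiv']; simp
      constructor
      · refine ⟨[a], ?_, by simp, ?_⟩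
        · intro b hb; rw [List.mem_singleton.1 hb]; exact ha1
        · rw [cf_cons, cf_nil, hn2]; field_simp; simp
      · intro hlt
        have ha2 : 2 ≤ a := by
          by_contra hc
          have : a = 1 := by omega
          subst this; omega
        refine ⟨[a - 1, 1], ?_, by simp, ?_⟩
        · intro b hb
          simp only [List.mem_cons, List.not_mem_nil, or_false] at hb
          rcases hb with rfl | rfl <;> omega
        · rw [cf_cons, cf_cons, cf_nil, hn2]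
          push_cast [Nat.cast_sub (show 1 ≤ a by omega)]
          have ha0 : (a : ℝ) ≠ 0 := by positivity
          have e1 : (a : ℝ) - 1 + 1 / (1 + 0) = a := by norm_num
          rw [e1]
          field_simp
    · obtain ⟨⟨w1, p1, l1, c1⟩, h2⟩ := ih r hrm h0 m hrm.le
      obtain ⟨w2, p2, l2, c2⟩ := h2 hrm
      have hval : ∀ w : List ℕ, cf w 0 = (r : ℝ) / m → cf (a :: w) 0 = (m : ℝ) / n := by
        intro w hw
        rw [cf_cons, hw, ← hdiv']
        field_simp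
      constructor
      · refine ⟨a :: w2, ?_, ?_, hval w2 c2⟩
        · intro b hb
          rcases List.mem_cons.1 hb with h | h
          · rw [h]; exact ha1
          · exact p2 b h
        · rw [List.length_cons]; exact l2.add_one
      · intro _
        refine ⟨a :: w1, ?_, ?_, hval w1 c1⟩
        · intro b hb
          rcases List.mem_cons.1 hb with h | h
          · rw [h]; exact ha1
          · exact p1 b h
        · rw [List.length_cons]; exact l1.add_one

theorem cf_shift (w : List ℕ) (hw : Pos w) (t : ℝ) (h0 : 0 < t) (h1 : t < 1) :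
    0 < cf w t ∧ cf w t < 1 ∧ (fun y : ℝ => Int.fract (1 / y))^[w.length] (cf w t) = t := by
  induction w with
  | nil => exact ⟨h0, h1, rfl⟩
  | cons a w ih =>
    have ha : 1 ≤ a := hw a (by simp)
    have ha' : (1 : ℝ) ≤ a := by exact_mod_cast ha
    obtain ⟨i1, i2, i3⟩ := ih (fun b hb => hw b (by simp [hb]))
    rw [cf_cons]
    refine ⟨by positivity, ?_, ?_⟩
    · rw [div_lt_one (by positivity)]; linarith
    · rw [List.length_cons, Function.iterate_succ_apply]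
      have : Int.fract (1 / (1 / ((a : ℝ) + cf w t))) = cf w t := by
        rw [one_div_one_div, Int.fract_natCast_add]
        exact Int.fract_eq_self.2 ⟨i1.le, i2⟩
      rw [this]
      exact i3

theorem rat_case (r : ℚ) (h0 : 0 < (r : ℝ)) (h1 : (r : ℝ) ≤ 1) :
    ∃ g₁ g₂ : ℝ,
        g₁ ∈ Set.Ioo (0 : ℝ) 1 ∧ g₂ ∈ Set.Ioo (0 : ℝ) 1 ∧
        Filter.Tendsto (fun n : ℕ => ⌊1 / ((fun y : ℝ => Int.fract (1 / y))^[n] g₁)⌋)
          Filter.atTop Filter.atTop ∧
        Filter.Tendsto (fun n : ℕ => ⌊1 / ((fun y : ℝ => Int.fract (1 / y))^[n] g₂)⌋)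
          Filter.atTop Filter.atTop ∧
        (r : ℝ) = g₁ + g₂ := by
  -- odd word of r
  obtain ⟨w, hw, hodd, hcf⟩ : ∃ w : List ℕ, Pos w ∧ Odd w.length ∧ cf w 0 = (r : ℝ) := by
    have hr0 : 0 < r := by exact_mod_cast h0
    have hr1 : r ≤ 1 := by exact_mod_cast h1
    have hnum : 0 < r.num := Rat.num_pos.2 hr0
    obtain ⟨m, hm⟩ : ∃ m : ℕ, (m : ℤ) = r.num := ⟨r.num.toNat, Int.toNat_of_nonneg hnum.le⟩
    have hm0 : 0 < m := by
      have : (0 : ℤ) < m := by rw [hm]; exact hnum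
      exact_mod_cast this
    have hmn : m ≤ r.den := by
      have : r.num ≤ r.den := by
        have h2 := Rat.num_div_den r
        have hd : (0 : ℚ) < r.den := by exact_mod_cast r.den_pos
        rw [← h2, div_le_one hd] at hr1
        exact_mod_cast hr1
      rw [← hm] at this
      exact_mod_cast this
    obtain ⟨⟨w, p, o, c⟩, -⟩ := rat_words m hm0 r.den hmn
    refine ⟨w, p, o, ?_⟩
    rw [c]
    have h2 : (r : ℝ) = (r.num : ℝ) / r.den := by
      exact_mod_cast (Rat.num_div_den r).symm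
    rw [h2, ← hm]
    push_cast
    rfl
  obtain ⟨q1, q2, -, -⟩ := q_props w hw
  obtain ⟨q, hq⟩ : ∃ q, q = (qq w).1 := ⟨_, rfl⟩
  obtain ⟨q', hq'⟩ : ∃ q', q' = (qq w).2 := ⟨_, rfl⟩
  rw [← hq, ← hq'] at q2
  rw [← hq] at q1
  have hqr : (1 : ℝ) ≤ q := by exact_mod_cast q1
  have hq'r : (0 : ℝ) ≤ q' := Nat.cast_nonneg _
  obtain ⟨M, hM⟩ : ∃ M, M = q ^ 2 := ⟨_, rfl⟩
  have hM1 : 1 ≤ M := by rw [hM]; exact Nat.one_le_pow _ _ q1
  have hM1' : (1 : ℝ) ≤ M := by exact_mod_cast hM1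
  obtain ⟨s, s0, s1, s2⟩ := exists_orbit (fun j => M * (j + 1)) (fun j => Nat.succ_le_of_lt (by positivity))
  have hsM : ∀ j, (M : ℝ) * s j < 1 := by
    intro j
    have h3 := s2 j
    have h4 : (M : ℝ) < 1 / s j := by
      rw [h3]; push_cast
      have hj : (0 : ℝ) ≤ j := Nat.cast_nonneg _
      nlinarith [s0 (j + 1), mul_nonneg (by linarith : (0 : ℝ) ≤ M) hj]
    rw [lt_div_iff₀ (s0 j)] at h4
    exact h4
  obtain ⟨i1, i2, i3⟩ := cf_shift w hw (s 0) (s0 0) (s1 0)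
  -- the second orbit
  let R : ℕ → ℝ := fun j => match j with
    | 0 => s 0 / (q * (q + s 0 * q'))
    | k + 1 => if Even k then M * s (k + 1) else s (k + 1) / M
  let A : ℕ → ℕ := fun j => match j with
    | 0 => M * M + q * q'
    | k + 1 => if Even k then k + 2 else M * (M * (k + 2))
  have hR0 : R 0 = s 0 / (q * (q + s 0 * q')) := rfl
  have hRs : ∀ k, R (k + 1) = if Even k then M * s (k + 1) else s (k + 1) / M := fun k => rfl
  have hA0 : A 0 = M * M + q * q' := rfl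
  have hAs : ∀ k, A (k + 1) = if Even k then k + 2 else M * (M * (k + 2)) := fun k => rfl
  have Rpos : ∀ j, 0 < R j := by
    intro j
    cases j with
    | zero => rw [hR0]; have := s0 0; positivity
    | succ k =>
      rw [hRs]; have := s0 (k + 1)
      split_ifs <;> positivity
  have Rlt : ∀ j, R j < 1 := by
    intro j
    cases j with
    | zero =>
      rw [hR0, div_lt_one (by have := s0 0; positivity)]
      have h3 := s0 0
      have h4 := s1 0
      have : 0 ≤ (q : ℝ) * (s 0 * q') := by positivity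
      nlinarith
    | succ k =>
      rw [hRs]
      split_ifs
      · exact hsM _
      · rw [div_lt_one (by positivity)]; linarith [s1 (k + 1)]
  have Req : ∀ j, 1 / R j = A j + R (j + 1) := by
    intro j
    cases j with
    | zero =>
      rw [hR0, hRs, hA0, if_pos (by decide)]
      have h3 := s2 0
      have h5 : s (0 + 1) = 1 / s 0 - M := by
        rw [h3]; push_cast; ring
      have h6 := (s0 0).ne'
      have hMq : (M : ℝ) = (q : ℝ) ^ 2 := by rw [hM]; push_cast; ring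
      rw [h5]
      push_cast
      rw [hMq]
      field_simp
      ring
    | succ k =>
      rw [hRs, hAs, hRs]
      have h3 := s2 (k + 1)
      push_cast at h3
      have h6 := (s0 (k + 1)).ne'
      by_cases hk : Even k
      · have hk' : ¬ Even (k + 1) := by rw [Nat.even_add_one]; exact not_not.2 hk
        rw [if_pos hk, if_pos hk, if_neg hk']
        have h5 : s (k + 1 + 1) = 1 / s (k + 1) - M * ((k : ℝ) + 1 + 1) := by rw [h3]; ring
        rw [h5]
        push_cast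
        field_simp
        ring
      · have hk' : Even (k + 1) := Nat.even_add_one.2 hk
        rw [if_neg hk, if_neg hk, if_pos hk']
        have h5 : s (k + 1 + 1) = 1 / s (k + 1) - M * ((k : ℝ) + 1 + 1) := by rw [h3]; ring
        rw [h5]
        push_cast
        field_simp
        ring
  have hAge : ∀ j, j ≤ A j := by
    intro j
    cases j with
    | zero => exact Nat.zero_le _
    | succ k =>
      rw [hAs]
      split_ifs
      · omega
      · have : k + 2 ≤ M * (k + 2) := Nat.le_mul_of_pos_left _ hM1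
        have : M * (k + 2) ≤ M * (M * (k + 2)) := Nat.le_mul_of_pos_left _ hM1
        omega
  refine ⟨R 0, cf w (s 0), ⟨Rpos 0, Rlt 0⟩, ⟨i1, i2⟩, ?_, ?_, ?_⟩
  · have e : (fun n : ℕ => ⌊1 / ((fun y : ℝ => Int.fract (1 / y))^[n] (R 0))⌋) =
        fun n => ((A n : ℕ) : ℤ) := by
      funext n; exact orbit_floor Rpos Rlt Req n
    rw [e]
    exact tendsto_natCast_atTop_atTop.comp (tendsto_atTop_mono hAge tendsto_id)
  · rw [← tendsto_add_atTop_iff_nat w.length]
    have e : (fun n : ℕ => ⌊1 / ((fun y : ℝ => Int.fract (1 / y))^[n + w.length] (cf w (s 0)))⌋) =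
        fun n => ((M * (n + 1) : ℕ) : ℤ) := by
      funext n
      rw [Function.iterate_add_apply, i3]
      exact orbit_floor s0 s1 s2 n
    rw [e]
    refine tendsto_natCast_atTop_atTop.comp (tendsto_atTop_mono (fun n => ?_) tendsto_id)
    have : n + 1 ≤ M * (n + 1) := Nat.le_mul_of_pos_left _ hM1
    show n ≤ M * (n + 1)
    omega
  · have h3 := cf_sub w hw (s 0) (s0 0).le
    rw [hcf, hodd.neg_one_pow, ← hq, ← hq'] at h3
    rw [hR0]
    linear_combination -h3

end Pool.Agent.H493R3.GG
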